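import Pool.Agent.Helper88.TL.Defs

set_option autoImplicit false

open Finset
open Pool.Agent.Helper84.SP

namespace Pool.Agent.Helper88.TL

variable {ι G : Type*} [AddCommGroup G] [DecidableEq G]

theorem Iter_zero (X : Finset G) : sset (fun g : G => g) X {0} = X := by
  unfold sset
  ext g
  simp only [mem_image, mem_product, mem_singleton, Prod.exists]
  constructor
  · rintro ⟨a, b, ⟨ha, rfl⟩, rfl⟩
    rwa [add_zero]
  · intro hg
    exact ⟨g, 0, ⟨hg, rfl⟩, add_zero g⟩

theorem Iter_assoc (α : ι → G) (X Y : Finset G) (D : Finset ι) :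
    sset (fun g : G => g) X (sset α Y D) = sset α (sset (fun g : G => g) X Y) D := by
  unfold sset
  ext g
  simp only [mem_image, mem_product, Prod.exists]
  constructor
  · rintro ⟨a, b, ⟨ha, c, d, ⟨hc, hd⟩, rfl⟩, rfl⟩
    exact ⟨a + c, d, ⟨⟨a, c, ⟨ha, hc⟩, rfl⟩, hd⟩, add_assoc a c (α d)⟩
  · rintro ⟨a, d, ⟨⟨x, y, ⟨hx, hy⟩, rfl⟩, hd⟩, rfl⟩
    exact ⟨x, y + α d, ⟨hx, y, d, ⟨hy, hd⟩, rfl⟩, (add_assoc x y (α d)).symm⟩

theorem sset_it_it (α : ι → G) (A : Finset ι) (i j : ℕ) :
    sset (fun g : G => g) (it α A i) (it α A j) = it α A (i + j) := by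
  induction j with
  | zero => exact Iter_zero _
  | succ j ih =>
    change sset (fun g : G => g) (it α A i) (sset α (it α A j) A) = sset α (it α A (i + j)) A
    rw [Iter_assoc, ih]

/-- the pair `(jA, jA)` has doubling at most `|2jA| / |jA|` -/
theorem dd_it_le {α : ι → G} {A : Finset ι} (hA : A.Nonempty) (j : ℕ) :
    dd (it α A j) (it α A j) ≤
      2 * (Real.log (it α A (2 * j)).card - Real.log (it α A j).card) := by
  have h := I_le (α := fun g : G => g) (it_nonempty (α := α) hA j) (it_nonempty (α := α) hA j)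
  rw [sset_it_it, ← two_mul] at h
  unfold dd I2
  linarith

theorem I_it_le {α : ι → G} {A : Finset ι} (hA : A.Nonempty) {j : ℕ} (hj : 1 ≤ j) :
    I α (it α A j) A ≤ Real.log (it α A (2 * j)).card - Real.log (it α A j).card := by
  have h := I_le (α := α) (it_nonempty (α := α) hA j) hA
  change I α (it α A j) A ≤ Real.log (it α A (j + 1)).card - Real.log (it α A j).card at h
  have h2 : Real.log (it α A (j + 1)).card ≤ Real.log (it α A (2 * j)).card := by
    apply Real.log_le_log
    · exact_mod_cast card_pos.2 (it_nonempty (α := α) hA (j + 1))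
    · exact_mod_cast it_mono (α := α) hA (show j + 1 ≤ 2 * j by omega)
  linarith

end Pool.Agent.Helper88.TL
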