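import Pool.Agent.Helper88.TL.Bridge

/-!
# Sparse return sets from a place with a large contact: the two criteria
-/

set_option autoImplicit false

namespace Pool.Agent.Helper88.TL

open Pool.Agent.Helper33.SS MvPolynomial Height AdmissibleAbsValues
open Pool.Agent.Helper29.TG (cr ct df)

variable {K : Type} [Field K] [NumberField K] [Algebra K ℂ]

/-- **The criterion with the Jacobians.** -/
theorem sparse_of_place (v : AbsoluteValue K ℝ) (hv : v ∈ nonarchAbsVal (K := K)) (hp2 : v 2 = 1)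
    {ν : ℕ} (F : Fin (ν + 1) → MvPolynomial (Fin (ν + 1)) K) (d : ℕ) (hd : 2 ≤ d)
    (hF : ∀ i, (F i).IsHomogeneous d) (hint : ∀ i m, v ((F i).coeff m) ≤ 1)
    (hgood : ∀ y : Fin (ν + 1) → K, (∀ i, v (y i) ≤ 1) → (∃ i, v (y i) = 1) →
      ∃ i, v (eval y (F i)) = 1)
    (x : ℕ → Fin (ν + 1) → K) (hx : ∀ n, x n ≠ 0)
    (hstep : ∀ n, ∃ c : K, c ≠ 0 ∧ x (n + 1) = c • fun i => eval (x n) (F i))
    (hnp : ∀ n m, n ≠ m → cr (x n) (x m) ≠ 0)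
    (i n : ℕ) (hin : i < n) (hct : 0 < ct v (x i) (x n))
    (hdf : ∀ l, i ≤ l → l < n → eval (x l) (Matrix.of fun i j => pderiv j (F i)).det ≠ 0 ∧
      df v (Matrix.of fun i j => pderiv j (F i)).det ((ν + 1) * (d - 1)) (x l) < ct v (x i) (x n))
    (V : Set (MvPolynomial (Fin (ν + 1)) ℂ)) (hV : ∀ g ∈ V, ∃ e : ℕ, g.IsHomogeneous e)
    (hfin : ∀ k, 1 ≤ k → ∃ B : Finset (Fin (ν + 1) → ℂ), ∀ z : Fin (ν + 1) → ℂ, z ≠ 0 →
      (∀ n, InZ V ((ev fun i => MvPolynomial.map (algebraMap K ℂ) (F i))^[k * n] z)) →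
        ∃ b ∈ B, ∃ c : ℂ, z = c • b) :
    Sparse {n | InZ V (fun j => algebraMap K ℂ (x n j))} := by
  refine sparse_of_contact v hv hp2 F d (by omega) hF hint hgood x hx hstep hnp i n hin hct
    (Or.inl fun l h1 h2 => ?_) V hV hfin
  rw [Fintype.card_fin]
  exact hdf l h1 h2

/-- **The criterion with the adjugate.** -/
theorem sparse_of_place_adj (v : AbsoluteValue K ℝ) (hv : v ∈ nonarchAbsVal (K := K))
    (hp2 : v 2 = 1) {ν : ℕ} (F : Fin (ν + 1) → MvPolynomial (Fin (ν + 1)) K) (d : ℕ) (hd : 2 ≤ d)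
    (hF : ∀ i, (F i).IsHomogeneous d) (hint : ∀ i m, v ((F i).coeff m) ≤ 1)
    (hgood : ∀ y : Fin (ν + 1) → K, (∀ i, v (y i) ≤ 1) → (∃ i, v (y i) = 1) →
      ∃ i, v (eval y (F i)) = 1)
    (x : ℕ → Fin (ν + 1) → K) (hx : ∀ n, x n ≠ 0)
    (hstep : ∀ n, ∃ c : K, c ≠ 0 ∧ x (n + 1) = c • fun i => eval (x n) (F i))
    (hnp : ∀ n m, n ≠ m → cr (x n) (x m) ≠ 0)
    (i n : ℕ) (hin : i < n) (hct : 0 < ct v (x i) (x n))
    (c₀ : K) (hc₀ : ∀ l, v (c₀ * x i l) ≤ 1) (hc₀1 : ∃ l, v (c₀ * x i l) = 1)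
    (hadj : ∃ r t, v (((jprod F (c₀ • x i) (n - i)).adjugate ^ (ν + 1)) r t) = 1)
    (V : Set (MvPolynomial (Fin (ν + 1)) ℂ)) (hV : ∀ g ∈ V, ∃ e : ℕ, g.IsHomogeneous e)
    (hfin : ∀ k, 1 ≤ k → ∃ B : Finset (Fin (ν + 1) → ℂ), ∀ z : Fin (ν + 1) → ℂ, z ≠ 0 →
      (∀ n, InZ V ((ev fun i => MvPolynomial.map (algebraMap K ℂ) (F i))^[k * n] z)) →
        ∃ b ∈ B, ∃ c : ℂ, z = c • b) :
    Sparse {n | InZ V (fun j => algebraMap K ℂ (x n j))} := by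
  refine sparse_of_contact v hv hp2 F d (by omega) hF hint hgood x hx hstep hnp i n hin hct
    (Or.inr ⟨c₀, hc₀, hc₀1, ?_⟩) V hV hfin
  rw [Fintype.card_fin]
  exact hadj

end Pool.Agent.Helper88.TL
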