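import Pool.Agent.Helper88.TL.Defs

set_option autoImplicit false

open Finset
open Pool.Agent.Helper84.SP

namespace Pool.Agent.Helper88.TL

variable {ι G Q : Type*} [AddCommGroup G] [DecidableEq G] [AddCommGroup Q] [DecidableEq Q]

omit [DecidableEq G] in
/-- sums over the points as sums over the classes -/
theorem pair_sum_cl (π : G →+ Q) (X : Finset G) (f : Q → ℝ) :
    ∑ x ∈ X, f (π x) = ∑ c ∈ X.image π, (cl π X c).card * f c := by
  rw [← sum_fiberwise_of_maps_to (s := X) (t := X.image π) (g := π)
    (fun x hx => mem_image_of_mem _ hx)]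
  apply sum_congr rfl
  intro c _
  have h3 : X.filter (fun x => π x = c) = cl π X c := rfl
  rw [h3]
  have h4 : ∀ x ∈ cl π X c, f (π x) = f c := fun x hx => by rw [(mem_cl.1 hx).2]
  rw [sum_congr rfl h4, sum_const, nsmul_eq_mul]

theorem pair_card (π : G →+ Q) (X : Finset G) :
    ∑ c ∈ X.image π, ((cl π X c).card : ℝ) = X.card := by
  have h := pair_sum_cl π X (fun _ => 1)
  simp only [mul_one, sum_const, nsmul_eq_mul] at h
  exact h.symm

theorem pair_log (π : G →+ Q) (X : Finset G) :
    ∑ c ∈ X.image π, ((cl π X c).card : ℝ) * Real.log (cl π X c).card =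
      X.card * Real.log X.card - Ent π X := by
  have h6 : Ent π X = ∑ x ∈ X, (Real.log X.card - Real.log (cl π X (π x)).card) := by
    unfold Ent
    apply sum_congr rfl
    intro x hx
    have hXp : (0 : ℝ) < X.card := by exact_mod_cast card_pos.2 ⟨x, hx⟩
    rw [Real.log_div hXp.ne' (cl_pos hx).ne']
  rw [h6, sum_sub_distrib, sum_const, nsmul_eq_mul,
    ← pair_sum_cl π X (fun c => Real.log (cl π X c).card)]
  ring

theorem pair_I {ι G : Type*} [AddCommGroup G] [DecidableEq G] {α : ι → G} {X : Finset G}
    (hX : X.Nonempty) (D : Finset ι) : (X.card : ℝ) * I α X D = J α X D / D.card := by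
  have hXp : (0 : ℝ) < X.card := by exact_mod_cast card_pos.2 hX
  unfold I
  rw [← div_div, mul_div_assoc', mul_div_cancel₀ _ hXp.ne']

theorem pair_dd {X X' : Finset G} (hX : X.Nonempty) (hX' : X'.Nonempty) :
    (X.card : ℝ) * X'.card * dd X X' = J2 X X' + J2 X' X := by
  have hXp : (0 : ℝ) < X.card := by exact_mod_cast card_pos.2 hX
  have hXp' : (0 : ℝ) < X'.card := by exact_mod_cast card_pos.2 hX'
  unfold dd I2 I J2
  field_simp

/-- passing to pairs of classes -/
theorem pair_classes {α : ι → G} (π : G →+ Q) {X X' : Finset G} (hX : X.Nonempty)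
    (hX' : X'.Nonempty) {D : Finset ι} (hDne : D.Nonempty) {a : Q}
    (hD : ∀ y ∈ D, π (α y) = a) {u lam w v δ : ℝ} (hv : 0 ≤ v) (hPG : PG π X X' δ)
    (h : ∀ X₁ X₁' : Finset G, X₁ ⊆ X → X₁' ⊆ X' → X₁.Nonempty → X₁'.Nonempty →
      u - lam * (Real.log X₁.card + Real.log X₁'.card) ≤
        w * (I α X₁ D + I α X₁' D) + v * dd X₁ X₁') :
    u - lam * (Real.log X.card + Real.log X'.card) +
      lam * (Ent π X / X.card + Ent π X' / X'.card) + v * δ ≤
      w * (I α X D + I α X' D) + v * dd X X' := by
  classical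
  have hXp : (0 : ℝ) < X.card := by exact_mod_cast card_pos.2 hX
  have hXp' : (0 : ℝ) < X'.card := by exact_mod_cast card_pos.2 hX'
  have hDp : (0 : ℝ) < D.card := by exact_mod_cast card_pos.2 hDne
  have hne : ∀ (Y : Finset G), ∀ c ∈ Y.image π, (cl π Y c).Nonempty := by
    intro Y c hc
    obtain ⟨x, hx, rfl⟩ := mem_image.1 hc
    exact ⟨x, mem_cl.2 ⟨hx, rfl⟩⟩
  -- one pair of classes
  have h1 : ∀ c ∈ X.image π, ∀ c' ∈ X'.image π,
      ((cl π X c).card : ℝ) * (cl π X' c').card *
        (u - lam * (Real.log (cl π X c).card + Real.log (cl π X' c').card)) ≤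
      w * ((cl π X' c').card * (J α (cl π X c) D / D.card) +
        (cl π X c).card * (J α (cl π X' c') D / D.card)) +
        v * (J2 (cl π X c) (cl π X' c') + J2 (cl π X' c') (cl π X c)) := by
    intro c hc c' hc'
    have hn := hne X c hc
    have hn' := hne X' c' hc'
    have h2 := h _ _ (cl_subset π X c) (cl_subset π X' c') hn hn'
    have h3 := mul_le_mul_of_nonneg_left h2
      (show (0 : ℝ) ≤ ((cl π X c).card : ℝ) * (cl π X' c').card by positivity)
    rw [← pair_dd hn hn', ← pair_I hn D, ← pair_I hn' D]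
    refine h3.trans (le_of_eq ?_)
    ring
  have h2 := sum_le_sum (fun c hc => sum_le_sum (fun c' hc' => h1 c hc c' hc'))
  -- the left side
  have hL : ∑ c ∈ X.image π, ∑ c' ∈ X'.image π, ((cl π X c).card : ℝ) * (cl π X' c').card *
        (u - lam * (Real.log (cl π X c).card + Real.log (cl π X' c').card)) =
      X.card * X'.card * u - lam * (X'.card * (X.card * Real.log X.card - Ent π X) +
        X.card * (X'.card * Real.log X'.card - Ent π X')) := by
    rw [← pair_log π X, ← pair_log π X', ← pair_card π X, ← pair_card π X']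
    have e1 : ∀ c ∈ X.image π, ∑ c' ∈ X'.image π, ((cl π X c).card : ℝ) * (cl π X' c').card *
        (u - lam * (Real.log (cl π X c).card + Real.log (cl π X' c').card)) =
        (cl π X c).card * (u * ∑ c' ∈ X'.image π, ((cl π X' c').card : ℝ)) -
          lam * (((cl π X c).card * Real.log (cl π X c).card) *
            ∑ c' ∈ X'.image π, ((cl π X' c').card : ℝ) +
            (cl π X c).card * ∑ c' ∈ X'.image π, ((cl π X' c').card : ℝ) *
              Real.log (cl π X' c').card) := by
      intro c _
      simp only [mul_sum, ← sum_add_distrib, ← sum_sub_distrib]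
      apply sum_congr rfl
      intro c' _
      ring
    rw [sum_congr rfl e1, sum_sub_distrib, ← mul_sum, sum_add_distrib, ← sum_mul, ← sum_mul,
      ← sum_mul]
    ring
  -- the right side
  have hR : ∑ c ∈ X.image π, ∑ c' ∈ X'.image π,
      (w * ((cl π X' c').card * (J α (cl π X c) D / D.card) +
        (cl π X c).card * (J α (cl π X' c') D / D.card)) +
        v * (J2 (cl π X c) (cl π X' c') + J2 (cl π X' c') (cl π X c))) =
      w * (X'.card * (J α X D / D.card) + X.card * (J α X' D / D.card)) +
        v * (SJ π X X' + SJ π X' X) := by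
    have e2 : SJ π X' X = ∑ c ∈ X.image π, ∑ c' ∈ X'.image π, J2 (cl π X' c') (cl π X c) := by
      unfold SJ
      rw [sum_comm]
    rw [J_classes π X hD, J_classes π X' hD, ← pair_card π X, ← pair_card π X', e2]
    unfold SJ
    simp only [sum_add_distrib, ← mul_sum, sum_div]
    have e3 : (∑ c' ∈ X'.image π, ((cl π X' c').card : ℝ)) *
        ∑ c ∈ X.image π, J α (cl π X c) D / D.card =
        ∑ c ∈ X.image π, ∑ c' ∈ X'.image π, ((cl π X' c').card : ℝ) *
          (J α (cl π X c) D / D.card) := by
      rw [sum_mul_sum, sum_comm]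
    rw [e3, ← sum_mul]
  rw [hL, hR] at h2
  unfold PG at hPG
  have h3 := mul_le_mul_of_nonneg_left hPG hv
  -- divide by the cardinalities
  have h4 : (X.card : ℝ) * X'.card * (u - lam * (Real.log X.card + Real.log X'.card) +
      lam * (Ent π X / X.card + Ent π X' / X'.card) + v * δ) ≤
      X.card * X'.card * (w * (I α X D + I α X' D) + v * dd X X') := by
    have e1 : (X.card : ℝ) * X'.card * (lam * (Ent π X / X.card + Ent π X' / X'.card)) =
        lam * (X'.card * Ent π X + X.card * Ent π X') := by
      field_simp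
    have e2 : (X.card : ℝ) * X'.card * (w * (I α X D + I α X' D)) =
        w * (X'.card * (X.card * I α X D) + X.card * (X'.card * I α X' D)) := by ring
    have e3 : (X.card : ℝ) * X'.card * (v * dd X X') = v * (X.card * X'.card * dd X X') := by
      ring
    rw [mul_add _ (w * _), e2, e3, pair_I hX, pair_I hX', pair_dd hX hX', mul_add, mul_add, e1]
    linarith
  exact le_of_mul_le_mul_left h4 (by positivity)

end Pool.Agent.Helper88.TL
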