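import Pool.Agent.Helper88.TL.Defs

set_option autoImplicit false

open Finset
open Pool.Agent.Helper84.SP

namespace Pool.Agent.Helper88.TL

variable {ι G Q : Type*} [AddCommGroup G] [DecidableEq G] [AddCommGroup Q] [DecidableEq Q]

/-- a rare splitting, weighted -/
theorem rare_w [DecidableEq ι] (π : G →+ Q) {α : ι → G} {X : Finset G} {D D₁ D₀ : Finset ι}
    (hX : X.Nonempty) (hdis : Disjoint D₁ D₀) (hD : D = D₁ ∪ D₀) (h₁ : D₁.Nonempty)
    (h₀ : D₀.Nonempty) {a : Q} (ha1 : ∀ y ∈ D₁, π (α y) = a) (ha0 : ∀ y ∈ D₀, π (α y) ≠ a)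
    {g R lam w : ℝ} (hR : 1 ≤ R) (hlam : 0 < lam) (hg : lam * R = g) (hw : 6 * g ≤ w)
    (hθ : (D₀.card / D.card : ℝ) ≤ 1 / (576 * R ^ 2)) :
    (D₁.card / D.card : ℝ) * (w * I α X D₁) + (D₀.card / D.card : ℝ) * (w * I α X D₀) +
      g * hh (D₁.card / D.card) (D₀.card / D.card) ≤
      w * I α X D + lam * (D₁.card / D.card) * (Ent π X / X.card) := by
  have hgp : 0 < g := by
    rw [← hg]
    positivity
  have hwp : 0 < w := by linarith
  have h := side_rare π (α := α) (lam := lam / w) hX hdis hD h₁ h₀ ha1 ha0 hR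
    (div_pos hlam hwp) (by
      rw [div_mul_eq_mul_div, hg, div_le_iff₀ hwp]
      linarith) hθ
  have h2 := mul_le_mul_of_nonneg_left h hwp.le
  have e1 : w * (lam / w * R * hh (D₁.card / D.card) (D₀.card / D.card)) =
      g * hh (D₁.card / D.card) (D₀.card / D.card) := by
    rw [← hg]
    field_simp
  have e2 : w * (lam / w * (D₁.card / D.card) * (Ent π X / X.card)) =
      lam * (D₁.card / D.card) * (Ent π X / X.card) := by
    field_simp
  rw [mul_add, mul_add, mul_add, e1, e2] at h2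
  linarith

end Pool.Agent.Helper88.TL
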