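import Pool.Agent.Helper88.TL.Defs
import Pool.Agent.Helper24.ES.Node1

set_option autoImplicit false

open Finset
open Pool.Agent.Helper84.SP
open Pool.Agent.Helper24.ES

namespace Pool.Agent.Helper88.TL

variable {ι G Q : Type*} [AddCommGroup G] [DecidableEq G] [AddCommGroup Q] [DecidableEq Q]

omit [DecidableEq G] in
theorem Conc_off (π : G →+ Q) (X : Finset G) (c : Q) :
    ((X.filter (fun x => ¬ π x = c)).card : ℝ) = X.card - (cl π X c).card := by
  have h := card_filter_add_card_filter_not (s := X) (fun x => π x = c)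
  have h' : ((X.filter (fun x => π x = c)).card : ℝ) + (X.filter (fun x => ¬ π x = c)).card =
      X.card := by exact_mod_cast h
  unfold cl
  linarith

omit [DecidableEq G] in
theorem Conc_off' (π : G →+ Q) (X : Finset G) (z : Q) :
    (off π X {z} : ℝ) = X.card - (cl π X z).card := by
  rw [← Conc_off]
  unfold off
  simp only [mem_singleton]

theorem Conc_hits (π : G →+ Q) (α : ι → G) (X : Finset G) (D₀ : Finset ι) {a : Q}
    (ha0 : ∀ y ∈ D₀, π (α y) ≠ a) (z : Q) :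
    (hits π α X D₀ {z} a : ℝ) ≤ D₀.card * ((X.card : ℝ) - (cl π X z).card) := by
  unfold hits
  push_cast
  rw [← nsmul_eq_mul, ← sum_const]
  apply sum_le_sum
  intro y hy
  have h1 : (X.filter (fun x => π x + (π (α y) - a) ∈ ({z} : Finset Q))) =
      cl π X (z - (π (α y) - a)) := by
    unfold cl
    apply filter_congr
    intro x _
    rw [mem_singleton, eq_sub_iff_add_eq]
  rw [h1]
  have h2 : z - (π (α y) - a) ≠ z := by
    intro h
    have : π (α y) - a = 0 := by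
      have := congrArg (fun w => z - w) h
      simpa using this
    exact ha0 y hy (sub_eq_zero.1 this)
  have h3 := sum_cl_le π X {z, z - (π (α y) - a)}
  rw [sum_pair h2.symm] at h3
  linarith

/-- a concentrated `x` detects the splitting -/
theorem det_mid [DecidableEq ι] (π : G →+ Q) {α : ι → G} {X : Finset G} {D D₁ D₀ : Finset ι}
    (hX : X.Nonempty) (hdis : Disjoint D₁ D₀) (hD : D = D₁ ∪ D₀) (h₁ : D₁.Nonempty)
    (h₀ : D₀.Nonempty) {a : Q} (ha1 : ∀ y ∈ D₁, π (α y) = a) (ha0 : ∀ y ∈ D₀, π (α y) ≠ a)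
    {η θ : ℝ} (hη : η = D₁.card / D.card) (hθ : θ = D₀.card / D.card) {z : Q}
    (hz : 7 / 8 * (X.card : ℝ) ≤ (cl π X z).card) :
    η * I α X D₁ + θ * I α X D₀ + η * θ / 5 ≤ I α X D := by
  have hp1 : (0 : ℝ) < D₁.card := by exact_mod_cast card_pos.2 h₁
  have hp0 : (0 : ℝ) < D₀.card := by exact_mod_cast card_pos.2 h₀
  have hXp : (0 : ℝ) < X.card := by exact_mod_cast card_pos.2 hX
  have hsum : (D.card : ℝ) = D₁.card + D₀.card := by
    rw [hD, card_union_of_disjoint hdis]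
    push_cast
    ring
  have hpD : (0 : ℝ) < D.card := by linarith
  have hη0 : 0 < η := by rw [hη]; positivity
  have hθ0 : 0 < θ := by rw [hθ]; positivity
  have hηθ : η + θ = 1 := by
    rw [hη, hθ, ← add_div, ← hsum, div_self hpD.ne']
  have hηθp : 0 < η * θ := mul_pos hη0 hθ0
  obtain ⟨ρ, hρ⟩ : ∃ ρ : ℝ, ρ = off π X {z} / X.card := ⟨_, rfl⟩
  obtain ⟨τ, hτ⟩ : ∃ τ : ℝ, τ = hits π α X D₀ {z} a / (X.card * D₀.card) := ⟨_, rfl⟩
  have hρ0 : 0 ≤ ρ := by rw [hρ]; positivity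
  have hτ0 : 0 ≤ τ := by rw [hτ]; positivity
  have hρ1 : ρ ≤ 1 / 8 := by
    rw [hρ, div_le_iff₀ hXp, Conc_off']
    linarith
  have hτ1 : τ ≤ 1 / 8 := by
    rw [hτ, div_le_iff₀ (mul_pos hXp hp0)]
    have h := Conc_hits π α X D₀ ha0 z
    have h' : (D₀.card : ℝ) * ((X.card : ℝ) - (cl π X z).card) ≤ D₀.card * (1 / 8 * X.card) :=
      mul_le_mul_of_nonneg_left (by linarith) hp0.le
    linarith
  have hI := I_ind π (α := α) hX hdis hD h₁ h₀ ha1 {z} (q := η * (1 + θ / 4))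
    (r := η * (1 - θ / 4)) (by nlinarith) (by nlinarith) (by nlinarith) (by nlinarith)
    hη hθ hρ hτ
  have e1 : η * (1 + θ / 4) / η = 1 + θ / 4 := by field_simp
  have e2 : η * (1 - θ / 4) / η = 1 - θ / 4 := by field_simp
  have e3 : (1 - η * (1 + θ / 4)) / θ = 1 - η / 4 := by
    have : 1 - η * (1 + θ / 4) = θ * (1 - η / 4) := by
      linear_combination (-1 : ℝ) * hηθ
    rw [this, mul_div_cancel_left₀ _ hθ0.ne']
  have e4 : (1 - η * (1 - θ / 4)) / θ = 1 + η / 4 := by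
    have : 1 - η * (1 - θ / 4) = θ * (1 + η / 4) := by
      linear_combination (-1 : ℝ) * hηθ
    rw [this, mul_div_cancel_left₀ _ hθ0.ne']
  rw [e1, e2, e3, e4] at hI
  have l1 := log_one_add_ge (show 0 ≤ θ / 4 by linarith)
  have l2 := log_one_sub_ge (show θ / 4 ≤ 1 / 2 by linarith)
  have l3 := log_one_sub_ge (show η / 4 ≤ 1 / 2 by linarith)
  have l4 := log_one_add_ge (show 0 ≤ η / 4 by linarith)
  have m1 : (1 - ρ) * (θ / 4 - (θ / 4) ^ 2) + ρ * (-(θ / 4) - 2 * (θ / 4) ^ 2) ≤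
      (1 - ρ) * Real.log (1 + θ / 4) + ρ * Real.log (1 - θ / 4) :=
    add_le_add (mul_le_mul_of_nonneg_left l1 (by linarith)) (mul_le_mul_of_nonneg_left l2 hρ0)
  have m2 : τ * (-(η / 4) - 2 * (η / 4) ^ 2) + (1 - τ) * (η / 4 - (η / 4) ^ 2) ≤
      τ * Real.log (1 - η / 4) + (1 - τ) * Real.log (1 + η / 4) :=
    add_le_add (mul_le_mul_of_nonneg_left l3 hτ0) (mul_le_mul_of_nonneg_left l4 (by linarith))
  have n1 : θ * (3 / 16 - 9 / 128 * θ) ≤
      (1 - ρ) * (θ / 4 - (θ / 4) ^ 2) + ρ * (-(θ / 4) - 2 * (θ / 4) ^ 2) := by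
    have : (1 - ρ) * (θ / 4 - (θ / 4) ^ 2) + ρ * (-(θ / 4) - 2 * (θ / 4) ^ 2) -
      θ * (3 / 16 - 9 / 128 * θ) = θ * (1 / 8 - ρ) * (1 / 2 + θ / 16) := by ring
    have h2 : 0 ≤ θ * (1 / 8 - ρ) * (1 / 2 + θ / 16) :=
      mul_nonneg (mul_nonneg hθ0.le (by linarith)) (by linarith)
    linarith
  have n2 : η * (3 / 16 - 9 / 128 * η) ≤
      τ * (-(η / 4) - 2 * (η / 4) ^ 2) + (1 - τ) * (η / 4 - (η / 4) ^ 2) := by
    have : τ * (-(η / 4) - 2 * (η / 4) ^ 2) + (1 - τ) * (η / 4 - (η / 4) ^ 2) -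
      η * (3 / 16 - 9 / 128 * η) = η * (1 / 8 - τ) * (1 / 2 + η / 16) := by ring
    have h2 : 0 ≤ η * (1 / 8 - τ) * (1 / 2 + η / 16) :=
      mul_nonneg (mul_nonneg hη0.le (by linarith)) (by linarith)
    linarith
  have k1 := mul_le_mul_of_nonneg_left (n1.trans m1) hη0.le
  have k2 := mul_le_mul_of_nonneg_left (n2.trans m2) hθ0.le
  have k3 : η * θ / 5 ≤ η * (θ * (3 / 16 - 9 / 128 * θ)) + θ * (η * (3 / 16 - 9 / 128 * η)) := by
    have : η * (θ * (3 / 16 - 9 / 128 * θ)) + θ * (η * (3 / 16 - 9 / 128 * η)) =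
        η * θ * (3 / 8 - 9 / 128 * (η + θ)) := by ring
    rw [this, hηθ]
    nlinarith
  linarith

/-- a concentrated `x` detects a rare part `D₀` -/
theorem det_rare [DecidableEq ι] (π : G →+ Q) {α : ι → G} {X : Finset G} {D D₁ D₀ : Finset ι}
    (hX : X.Nonempty) (hdis : Disjoint D₁ D₀) (hD : D = D₁ ∪ D₀) (h₁ : D₁.Nonempty)
    (h₀ : D₀.Nonempty) {a : Q} (ha1 : ∀ y ∈ D₁, π (α y) = a) (ha0 : ∀ y ∈ D₀, π (α y) ≠ a)
    {η θ ρ : ℝ} (hη : η = D₁.card / D.card) (hθ : θ = D₀.card / D.card) {z : Q}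
    (hρ0 : 0 ≤ ρ) (hρ1 : ρ ≤ 1) (hz : (1 - ρ) * (X.card : ℝ) ≤ (cl π X z).card)
    (hθ2 : θ ≤ 1 / 2) :
    η * I α X D₁ + θ * I α X D₀ +
      (θ * ((1 - ρ) * (-Real.log θ - Real.log 2)) - ρ * Real.log 2) ≤ I α X D := by
  have hp1 : (0 : ℝ) < D₁.card := by exact_mod_cast card_pos.2 h₁
  have hp0 : (0 : ℝ) < D₀.card := by exact_mod_cast card_pos.2 h₀
  have hXp : (0 : ℝ) < X.card := by exact_mod_cast card_pos.2 hX
  have hsum : (D.card : ℝ) = D₁.card + D₀.card := by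
    rw [hD, card_union_of_disjoint hdis]
    push_cast
    ring
  have hpD : (0 : ℝ) < D.card := by linarith
  have hη0 : 0 < η := by rw [hη]; positivity
  have hθ0 : 0 < θ := by rw [hθ]; positivity
  have hηθ : η + θ = 1 := by
    rw [hη, hθ, ← add_div, ← hsum, div_self hpD.ne']
  have hη1 : η < 1 := by linarith
  obtain ⟨ρ', hρ'⟩ : ∃ ρ' : ℝ, ρ' = off π X {z} / X.card := ⟨_, rfl⟩
  obtain ⟨τ, hτ⟩ : ∃ τ : ℝ, τ = hits π α X D₀ {z} a / (X.card * D₀.card) := ⟨_, rfl⟩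
  have hρ'0 : 0 ≤ ρ' := by rw [hρ']; positivity
  have hρ'1 : ρ' ≤ ρ := by
    rw [hρ', div_le_iff₀ hXp, Conc_off']
    linarith
  have hτ1 : τ ≤ ρ := by
    rw [hτ, div_le_iff₀ (mul_pos hXp hp0)]
    have h := Conc_hits π α X D₀ ha0 z
    have h' : (D₀.card : ℝ) * ((X.card : ℝ) - (cl π X z).card) ≤ D₀.card * (ρ * X.card) :=
      mul_le_mul_of_nonneg_left (by linarith) hp0.le
    linarith
  have hI := I_ind π (α := α) hX hdis hD h₁ h₀ ha1 {z} (q := η)
    (r := 1 / 2) hη0 hη1 (by norm_num) (by norm_num) hη hθ hρ' hτ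
  have e1 : (1 - η) / θ = 1 := by
    have : 1 - η = θ := by linarith
    rw [this, div_self hθ0.ne']
  have e2 : Real.log (1 / 2 / η) = -Real.log 2 - Real.log η := by
    rw [Real.log_div (by norm_num) hη0.ne', Real.log_div (by norm_num) (by norm_num),
      Real.log_one]
    ring
  have e3 : Real.log ((1 - 1 / 2) / θ) = -Real.log θ - Real.log 2 := by
    rw [Real.log_div (by norm_num) hθ0.ne',
      show (1 - 1 / 2 : ℝ) = 1 / 2 by norm_num, Real.log_div (by norm_num) (by norm_num),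
      Real.log_one]
    ring
  rw [div_self hη0.ne', e1, e2, e3, Real.log_one, mul_zero, mul_zero, zero_add, zero_add] at hI
  have l2 : 0 < Real.log 2 := Real.log_pos (by norm_num)
  have lη : Real.log η ≤ 0 := Real.log_nonpos hη0.le hη1.le
  have lθ : 0 ≤ -Real.log θ - Real.log 2 := by
    have h := Real.log_le_log hθ0 hθ2
    rw [Real.log_div (by norm_num) (by norm_num), Real.log_one] at h
    linarith
  have k1 : -(ρ * Real.log 2) ≤ η * (ρ' * (-Real.log 2 - Real.log η)) := by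
    have a1 : 0 ≤ η * (ρ' * (-Real.log η)) :=
      mul_nonneg hη0.le (mul_nonneg hρ'0 (by linarith))
    have a2 : η * (ρ' * Real.log 2) ≤ 1 * (ρ * Real.log 2) :=
      mul_le_mul hη1.le (mul_le_mul_of_nonneg_right hρ'1 l2.le)
        (mul_nonneg hρ'0 l2.le) (by norm_num)
    nlinarith
  have k2 : θ * ((1 - ρ) * (-Real.log θ - Real.log 2)) ≤
      θ * ((1 - τ) * (-Real.log θ - Real.log 2)) :=
    mul_le_mul_of_nonneg_left (mul_le_mul_of_nonneg_right (by linarith) lθ) hθ0.le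
  linarith

end Pool.Agent.Helper88.TL
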