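import Pool.Agent.Helper88.TL.Field
import Pool.Agent.Helper88.TL.Conc
import Pool.Agent.Helper88.TL.ConcPair

set_option autoImplicit false

open Finset
open Pool.Agent.Helper84.SP

namespace Pool.Agent.Helper88.TL

/-- upper bound for the binary entropy -/
theorem hh_le_small {η θ : ℝ} (hη : 0 < η) (hθ : 0 < θ) (h : η + θ = 1) :
    hh η θ ≤ η * (-Real.log η + 1) := by
  have h1 := Real.one_sub_inv_le_log_of_pos hθ
  have h2 : θ * (1 - θ⁻¹) ≤ θ * Real.log θ := mul_le_mul_of_nonneg_left h1 hθ.le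
  have h3 : θ * (1 - θ⁻¹) = θ - 1 := by field_simp
  unfold hh
  linarith

/-- both sets are concentrated, and the second one is not more concentrated than the first -/
theorem Side_conc {ι G Q : Type*} [AddCommGroup G] [DecidableEq G] [AddCommGroup Q]
    [DecidableEq Q] [DecidableEq ι] (π : G →+ Q) {α : ι → G} {X X' : Finset G}
    (hX : X.Nonempty) (hX' : X'.Nonempty) {D D₁ D₀ : Finset ι}
    (hdis : Disjoint D₁ D₀) (hD : D = D₁ ∪ D₀) (h₁ : D₁.Nonempty) (h₀ : D₀.Nonempty)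
    {a : Q} (ha1 : ∀ y ∈ D₁, π (α y) = a) (ha0 : ∀ y ∈ D₀, π (α y) ≠ a)
    {η θ Lam w N : ℝ} (hη : η = D₁.card / D.card) (hθ : θ = D₀.card / D.card)
    (hη0 : 0 < η) (hθ0 : 0 < θ) (hηθ : η + θ = 1)
    (hLam : 50 ≤ Lam) (hw : 160000 * Lam ≤ w) (hN1 : η ≤ 1 / 2 → N ≤ η * Lam)
    (hN0 : θ ≤ 1 / 2 → N ≤ hh η θ) {z z' : Q}
    (hz : 7 / 8 * (X.card : ℝ) ≤ (cl π X z).card)
    (hz' : 7 / 8 * (X'.card : ℝ) ≤ (cl π X' z').card)
    (hle : ((cl π X' z').card : ℝ) * X.card ≤ (cl π X z).card * X'.card) :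
    ∃ δ : ℝ, PG π X X' δ ∧
      η * (w * I α X D₁) + θ * (w * I α X D₀) + N ≤ w * I α X D + w * η * δ := by
  have hXp : (0 : ℝ) < X.card := by exact_mod_cast card_pos.2 hX
  have hXp' : (0 : ℝ) < X'.card := by exact_mod_cast card_pos.2 hX'
  have hw0 : 8000000 ≤ w := by linarith
  have hwp : 0 < w := by linarith
  have mid := det_mid π (α := α) hX hdis hD h₁ h₀ ha1 ha0 hη hθ hz
  have hmid : η * (w * I α X D₁) + θ * (w * I α X D₀) + w * (η * θ / 5) ≤ w * I α X D := by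
    have := mul_le_mul_of_nonneg_left mid hwp.le
    linarith
  rcases le_or_gt η (1 / 2) with hη2 | hη2
  · refine ⟨0, PG_zero π X X', ?_⟩
    have h1 := hN1 hη2
    have h2 : η * Lam ≤ w * (η * θ / 5) := by
      have h3 : 1 / 2 ≤ θ := by linarith
      have h4 : η * (1 / 2) ≤ η * θ := mul_le_mul_of_nonneg_left h3 hη0.le
      have h5 : w * (η * (1 / 2) / 5) ≤ w * (η * θ / 5) :=
        mul_le_mul_of_nonneg_left (by linarith) hwp.le
      have h6 : η * Lam ≤ η * (w / 10) := mul_le_mul_of_nonneg_left (by linarith) hη0.le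
      linarith
    linarith
  have hθ2 : θ ≤ 1 / 2 := by linarith
  obtain ⟨u, hu⟩ : ∃ u : ℝ, u = -Real.log θ := ⟨_, rfl⟩
  have hNu : N ≤ θ * (u + 1) := by
    have h1 := hN0 hθ2
    have h2 := hh_le_small hθ0 hη0 (by linarith)
    rw [hh_symm] at h2
    rw [hu]
    linarith
  have hη12 : 1 / 2 ≤ η := hη2.le
  rcases le_or_gt u 3 with hu3 | hu3
  · refine ⟨0, PG_zero π X X', ?_⟩
    have h2 : θ * (u + 1) ≤ w * (η * θ / 5) := by
      have h4 : 1 / 2 * θ ≤ η * θ := mul_le_mul_of_nonneg_right hη12 hθ0.le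
      have h5 : w * (1 / 2 * θ / 5) ≤ w * (η * θ / 5) :=
        mul_le_mul_of_nonneg_left (by linarith) hwp.le
      have h6 : θ * (u + 1) ≤ θ * (w / 10) := mul_le_mul_of_nonneg_left (by linarith) hθ0.le
      linarith
    linarith
  obtain ⟨ρ, hρ⟩ : ∃ ρ : ℝ, ρ = 1 - (cl π X z).card / X.card := ⟨_, rfl⟩
  have hcard : ((cl π X z).card : ℝ) = (1 - ρ) * X.card := by
    rw [hρ]; field_simp; ring
  have hρ0 : 0 ≤ ρ := by
    have h1 : ((cl π X z).card : ℝ) ≤ X.card := by exact_mod_cast card_le_card (cl_subset π X z)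
    rw [hρ, sub_nonneg, div_le_one hXp]
    exact h1
  have hρ8 : ρ ≤ 1 / 8 := by
    rw [hcard] at hz
    have := le_of_mul_le_mul_right hz hXp
    linarith
  have hcard' : ((cl π X' z').card : ℝ) ≤ (1 - ρ) * X'.card := by
    rw [hcard] at hle
    have h1 : ((cl π X' z').card : ℝ) * X.card ≤ (1 - ρ) * X'.card * X.card := by linarith
    exact le_of_mul_le_mul_right h1 hXp
  rcases le_or_gt ρ (θ * u / 8) with hρu | hρu
  · refine ⟨0, PG_zero π X X', ?_⟩
    have rare := det_rare π (α := α) hX hdis hD h₁ h₀ ha1 ha0 hη hθ hρ0 (by linarith)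
      hcard.ge hθ2
    have hl2 := Real.log_two_lt_d9
    have hl2' := Real.log_two_gt_d9
    have h1 : θ * (u + 1) / 4 ≤
        θ * ((1 - ρ) * (-Real.log θ - Real.log 2)) - ρ * Real.log 2 := by
      rw [← hu]
      have h2 : 7 / 8 * (u - 7 / 10) ≤ (1 - ρ) * (u - Real.log 2) :=
        mul_le_mul (by linarith) (by linarith) (by linarith) (by linarith)
      have h3 := mul_le_mul_of_nonneg_left h2 hθ0.le
      have h4 : ρ * Real.log 2 ≤ θ * u / 8 * (7 / 10) :=
        mul_le_mul hρu (by linarith) (by linarith) (by positivity)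
      have h5 : θ * 3 ≤ θ * u := mul_le_mul_of_nonneg_left hu3.le hθ0.le
      linarith
    have h2 : θ * (u + 1) / 4 * 4 ≤ θ * (u + 1) / 4 * w :=
      mul_le_mul_of_nonneg_left (by linarith) (by positivity)
    have h3 := mul_le_mul_of_nonneg_left rare hwp.le
    have h4 := mul_le_mul_of_nonneg_left h1 hwp.le
    linarith
  · refine ⟨ρ / 8, conc_pair π hX hX' hz hz' hρ0 hcard', ?_⟩
    have sup := I_super (α := α) (X := X) hX hdis hD h₁ h₀
    rw [← hη, ← hθ] at sup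
    have h3 := mul_le_mul_of_nonneg_left sup hwp.le
    have h1 : θ * (u + 1) ≤ w * η * (ρ / 8) := by
      have h4 : 1 / 2 * (θ * u / 8) ≤ η * ρ := mul_le_mul hη12 hρu.le (by positivity) hη0.le
      have h5 : 8000000 * (1 / 2 * (θ * u / 8)) ≤ w * (η * ρ) :=
        mul_le_mul hw0 h4 (by positivity) hwp.le
      have h6 : θ * 3 ≤ θ * u := mul_le_mul_of_nonneg_left hu3.le hθ0.le
      linarith
    linarith

/-- the node lemma, for a homomorphism with a gain for spread pairs -/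
theorem side_gen {ι G Q : Type*} [AddCommGroup G] [DecidableEq G] [AddCommGroup Q]
    [DecidableEq Q] [DecidableEq ι] (π : G →+ Q) {α : ι → G} {X X' : Finset G}
    (hX : X.Nonempty) (hX' : X'.Nonempty) {D D₁ D₀ : Finset ι}
    (hdis : Disjoint D₁ D₀) (hD : D = D₁ ∪ D₀) (h₁ : D₁.Nonempty) (h₀ : D₀.Nonempty)
    {a : Q} (ha1 : ∀ y ∈ D₁, π (α y) = a) (ha0 : ∀ y ∈ D₀, π (α y) ≠ a)
    {η θ lam B Lam w N : ℝ} (hη : η = D₁.card / D.card) (hθ : θ = D₀.card / D.card)
    (hlam : 0 < lam) (hLam : 50 ≤ Lam) (hlB : 2 * Lam ≤ lam * B)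
    (hw : 160000 * Lam ≤ w)
    (hG : Ent π X / X.card ≤ B → (∀ c, ((cl π X' c).card : ℝ) < 7 / 8 * X'.card) →
      PG π X X' (1 / 73728))
    (hG' : Ent π X' / X'.card ≤ B → (∀ c, ((cl π X c).card : ℝ) < 7 / 8 * X.card) →
      PG π X X' (1 / 73728))
    (hN1 : η ≤ 1 / 2 → N ≤ η * Lam) (hN0 : θ ≤ 1 / 2 → N ≤ hh η θ) :
    ∃ δ : ℝ, PG π X X' δ ∧
      η * (w * (I α X D₁ + I α X' D₁)) + θ * (w * (I α X D₀ + I α X' D₀)) + N ≤
        w * (I α X D + I α X' D) +
          lam * η * (Ent π X / X.card + Ent π X' / X'.card) + w * η * δ := by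
  have hXp : (0 : ℝ) < X.card := by exact_mod_cast card_pos.2 hX
  have hXp' : (0 : ℝ) < X'.card := by exact_mod_cast card_pos.2 hX'
  have hp1 : (0 : ℝ) < D₁.card := by exact_mod_cast card_pos.2 h₁
  have hp0 : (0 : ℝ) < D₀.card := by exact_mod_cast card_pos.2 h₀
  have hsum : (D.card : ℝ) = D₁.card + D₀.card := by
    rw [hD, card_union_of_disjoint hdis]
    push_cast
    ring
  have hpD : (0 : ℝ) < D.card := by linarith
  have hη0 : 0 < η := by rw [hη]; positivity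
  have hθ0 : 0 < θ := by rw [hθ]; positivity
  have hηθ : η + θ = 1 := by
    rw [hη, hθ, ← add_div, ← hsum, div_self hpD.ne']
  have hwp : 0 < w := by linarith
  have sup := I_super (α := α) (X := X) hX hdis hD h₁ h₀
  have sup' := I_super (α := α) (X := X') hX' hdis hD h₁ h₀
  rw [← hη, ← hθ] at sup sup'
  have hs := mul_le_mul_of_nonneg_left sup hwp.le
  have hs' := mul_le_mul_of_nonneg_left sup' hwp.le
  have hE : 0 ≤ Ent π X / X.card := div_nonneg (Ent_nonneg _ _) hXp.le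
  have hE' : 0 ≤ Ent π X' / X'.card := div_nonneg (Ent_nonneg _ _) hXp'.le
  have hlη : 0 ≤ lam * η := by positivity
  have hlE := mul_nonneg hlη hE
  have hlE' := mul_nonneg hlη hE'
  -- the needed amount is at most `2 Lam η`
  have hN : N ≤ 2 * Lam * η := by
    rcases le_or_gt η (1 / 2) with hη2 | hη2
    · have h1 := hN1 hη2
      have h2 : 0 ≤ η * Lam := by
        have : 0 < Lam := by linarith
        positivity
      linarith
    · have h1 := hN0 (by linarith)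
      have h2 := hh_le hηθ
      have h3 := Real.log_two_lt_d9
      have h4 : 100 * (1 / 2) ≤ 2 * Lam * η :=
        mul_le_mul (by linarith) hη2.le (by norm_num) (by linarith)
      linarith
  -- (A) one of the entropies is large
  by_cases hA : B ≤ Ent π X / X.card ∨ B ≤ Ent π X' / X'.card
  · refine ⟨0, PG_zero _ X X', ?_⟩
    have h1 : lam * η * B ≤
        lam * η * (Ent π X / X.card + Ent π X' / X'.card) := by
      apply mul_le_mul_of_nonneg_left _ hlη
      rcases hA with h | h <;> linarith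
    have h2 : η * (2 * Lam) ≤ η * (lam * B) := mul_le_mul_of_nonneg_left hlB hη0.le
    linarith
  push Not at hA
  -- (B) one of the sets is spread
  by_cases hB1 : ∀ c, ((cl π X' c).card : ℝ) < 7 / 8 * X'.card
  · refine ⟨1 / 73728, hG hA.1.le hB1, ?_⟩
    have h2 : η * (160000 * Lam) ≤ η * w := mul_le_mul_of_nonneg_left hw hη0.le
    have h3 : 0 ≤ η * Lam := by
      have : 0 < Lam := by linarith
      positivity
    linarith
  by_cases hB2 : ∀ c, ((cl π X c).card : ℝ) < 7 / 8 * X.card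
  · refine ⟨1 / 73728, hG' hA.2.le hB2, ?_⟩
    have h2 : η * (160000 * Lam) ≤ η * w := mul_le_mul_of_nonneg_left hw hη0.le
    have h3 : 0 ≤ η * Lam := by
      have : 0 < Lam := by linarith
      positivity
    linarith
  push Not at hB1 hB2
  -- (C) both are concentrated
  obtain ⟨z', hz'⟩ := hB1
  obtain ⟨z, hz⟩ := hB2
  rcases le_total (((cl π X' z').card : ℝ) * X.card)
    ((cl π X z).card * X'.card) with hle | hle
  · obtain ⟨δ, hδ, h⟩ := Side_conc π (α := α) hX hX' hdis hD h₁ h₀ ha1 ha0 hη hθ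
      hη0 hθ0 hηθ hLam hw hN1 hN0 hz hz' hle
    refine ⟨δ, hδ, ?_⟩
    linarith
  · obtain ⟨δ, hδ, h⟩ := Side_conc π (α := α) hX' hX hdis hD h₁ h₀ ha1 ha0 hη hθ
      hη0 hθ0 hηθ hLam hw hN1 hN0 hz' hz hle
    refine ⟨δ, PG_symm hδ, ?_⟩
    linarith

/-- the sum side at a large prime -/
theorem side_big {q l : ℕ} (hq : q.Prime) {X X' : Finset ℤ} (hX : X.Nonempty)
    (hX' : X'.Nonempty) {D D₁ D₀ : Finset ℕ}
    (hdis : Disjoint D₁ D₀) (hD : D = D₁ ∪ D₀) (h₁ : D₁.Nonempty) (h₀ : D₀.Nonempty)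
    (ha1 : ∀ y ∈ D₁, piA q l (al y) = 0) (ha0 : ∀ y ∈ D₀, piA q l (al y) ≠ 0)
    {η θ lam B Lam w N : ℝ} (hη : η = D₁.card / D.card) (hθ : θ = D₀.card / D.card)
    (hlam : 0 < lam) (hLam : 50 ≤ Lam) (hB : 0 < B) (hlB : 2 * Lam ≤ lam * B)
    (hw : 160000 * Lam ≤ w) (hqB : Q0 B ≤ q) (hN1 : η ≤ 1 / 2 → N ≤ η * Lam)
    (hN0 : θ ≤ 1 / 2 → N ≤ hh η θ) :
    ∃ δ : ℝ, PG (piA q l) X X' δ ∧
      η * (w * (I al X D₁ + I al X' D₁)) + θ * (w * (I al X D₀ + I al X' D₀)) + N ≤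
        w * (I al X D + I al X' D) +
          lam * η * (Ent (piA q l) X / X.card + Ent (piA q l) X' / X'.card) + w * η * δ := by
  exact side_gen (piA q l) hX hX' hdis hD h₁ h₀ ha1 ha0 hη hθ hlam hLam hlB hw
    (fun hE hm => field_gain hq hX hX' hB hE hm hqB)
    (fun hE hm => PG_symm (field_gain hq hX' hX hB hE hm hqB)) hN1 hN0

end Pool.Agent.Helper88.TL
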