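import Pool.Agent.Helper88.TL.Rk

/-!
# Periodic orbits up to a small error, and the rank condition at limit points
-/

set_option autoImplicit false

namespace Pool.Agent.Helper88.TL

open Pool.Agent.Helper33.SS MvPolynomial Filter Topology

/-- Vectors which are proportional, up to an error. -/
def Sim {R : Type} [NormedCommRing R] {σ : Type} (e : ℝ) (x y : σ → R) : Prop :=
  ∃ u : R, ‖u‖ = 1 ∧ ∀ j, ‖x j - u * y j‖ ≤ e

section
variable {p : ℕ} [Fact p.Prime] {R : Type} [NormedCommRing R] {ι : R →+* ℂ_[p]} {σ : Type}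

theorem Sim.refl (hR : Loc p R ι) {e : ℝ} (he : 0 ≤ e) (x : σ → R) : Sim e x x :=
  ⟨1, hR.norm_one, fun j => by rw [one_mul, sub_self, norm_zero]; exact he⟩

theorem Sim.trans (hR : Loc p R ι) {e : ℝ} {x y z : σ → R} (h1 : Sim e x y) (h2 : Sim e y z) :
    Sim e x z := by
  obtain ⟨u, hu, h1⟩ := h1
  obtain ⟨v, hv, h2⟩ := h2
  refine ⟨u * v, by rw [hR.norm_mul, hu, hv, one_mul], fun j => ?_⟩
  have h3 : x j - u * v * z j = (x j - u * y j) + u * (y j - v * z j) := by ring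
  rw [h3]
  refine hR.add_le_of (h1 j) ?_
  rw [hR.norm_mul, hu, one_mul]
  exact h2 j

theorem Sim.ev_iter (hR : Loc p R ι) {e : ℝ} (he : 0 ≤ e) {F : σ → MvPolynomial σ R} {d : ℕ}
    (hF : ∀ i, (F i).IsHomogeneous d) {x y : σ → R} (h : Sim e x y) (n : ℕ) :
    Sim e ((ev F)^[n] x) ((ev F)^[n] y) := by
  obtain ⟨u, hu, h⟩ := h
  refine ⟨u ^ (d ^ n), by rw [hR.norm_pow, hu, one_pow], fun j => ?_⟩
  have h1 := hR.ev_iterate_congr F he (x := x) (y := u • y) h n j
  rwa [ev_iter_smul F hF, Pi.smul_apply, smul_eq_mul] at h1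

theorem Sim.periodic (hR : Loc p R ι) {e : ℝ} (he : 0 ≤ e) {F : σ → MvPolynomial σ R} {d : ℕ}
    (hF : ∀ i, (F i).IsHomogeneous d) {a : σ → R} {i N : ℕ} (hN : 1 ≤ N)
    (h : Sim e ((ev F)^[i + N] a) ((ev F)^[i] a)) (m : ℕ) (hm : i ≤ m) :
    ∃ l, i ≤ l ∧ l < i + N ∧ Sim e ((ev F)^[m] a) ((ev F)^[l] a) := by
  induction m using Nat.strong_induction_on with
  | _ m ih =>
    by_cases hlt : m < i + N
    · exact ⟨m, hm, hlt, Sim.refl hR he _⟩
    · push Not at hlt
      obtain ⟨l, h1, h2, h3⟩ := ih (m - N) (by omega) (by omega)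
      refine ⟨l, h1, h2, Sim.trans hR ?_ h3⟩
      have h4 := h.ev_iter hR he hF (m - (i + N))
      rw [← Function.iterate_add_apply, ← Function.iterate_add_apply] at h4
      have e1 : m - (i + N) + (i + N) = m := by omega
      have e2 : m - (i + N) + i = m - N := by omega
      rwa [e1, e2] at h4

variable [Fintype σ] [DecidableEq σ]

theorem Sim.norm_det (hR : Loc p R ι) {e : ℝ} (he : 0 ≤ e) {F : σ → MvPolynomial σ R} {d : ℕ}
    (hF : ∀ i, (F i).IsHomogeneous d) {x y : σ → R} (h : Sim e x y)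
    (hy : e < ‖(jac F y).det‖) : ‖(jac F x).det‖ = ‖(jac F y).det‖ := by
  obtain ⟨u, hu, h⟩ := h
  have hQ : ∀ z : σ → R, eval z (Matrix.of fun i j => pderiv j (F i)).det = (jac F z).det := by
    intro z
    rw [RingHom.map_det]
    rfl
  have h1 := hR.norm_eval_sub_le (Matrix.of fun i j => pderiv j (F i)).det he
    (x := x) (y := u • y) h
  rw [hQ, hQ, jac_smul F hF, Matrix.det_smul] at h1
  have h2 : ‖(u ^ (d - 1)) ^ Fintype.card σ * (jac F y).det‖ = ‖(jac F y).det‖ := by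
    rw [hR.norm_mul, hR.norm_pow, hR.norm_pow, hu, one_pow, one_pow, one_mul]
  have h3 : (jac F x).det = ((jac F x).det - (u ^ (d - 1)) ^ Fintype.card σ * (jac F y).det)
      + (u ^ (d - 1)) ^ Fintype.card σ * (jac F y).det := by ring
  have h4 := h1.trans_lt hy
  rw [h3, hR.add_eq_max (by rw [h2]; exact h4.ne), h2]
  exact max_eq_right h4.le

/-- The Jacobian is bounded from below along the orbit. -/
theorem det_bound (hR : Loc p R ι) {e : ℝ} (he : 0 ≤ e) {F : σ → MvPolynomial σ R} {d : ℕ}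
    (hF : ∀ i, (F i).IsHomogeneous d) {a : σ → R} {i N : ℕ} (hN : 1 ≤ N)
    (h : Sim e ((ev F)^[i + N] a) ((ev F)^[i] a))
    (hdet : ∀ l, i ≤ l → l < i + N → e < ‖(jac F ((ev F)^[l] a)).det‖) (m : ℕ) (hm : i ≤ m) :
    e < ‖(jac F ((ev F)^[m] a)).det‖ := by
  obtain ⟨l, h1, h2, h3⟩ := h.periodic hR he hF hN m hm
  rw [h3.norm_det hR he hF (hdet l h1 h2)]
  exact hdet l h1 h2

/-- The rank condition from the Jacobians. -/
theorem hrank_of_det (hR : Loc p R ι) {e : ℝ} (he : 0 < e) {F : σ → MvPolynomial σ R} {d : ℕ}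
    (hF : ∀ i, (F i).IsHomogeneous d) {a : σ → R} {i N : ℕ} (hN : 1 ≤ N)
    (h : Sim e ((ev F)^[i + N] a) ((ev F)^[i] a))
    (hdet : ∀ l, i ≤ l → l < i + N → e < ‖(jac F ((ev F)^[l] a)).det‖)
    (z : σ → R) (t : ℕ → ℕ) (ht : Tendsto t atTop atTop)
    (hz : Tendsto (fun j => (ev F)^[t j] a) atTop (𝓝 z)) (k : ℕ) :
    Fintype.card σ ≤ (((jprod F z k).map ι) ^ 2).rank + 1 :=
  (NJ.of_limit he (fun n hn => (det_bound hR he.le hF hN h hdet n hn).le) ht hz).rank hR k

end

section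
variable {k : Type*} [Field k] {σ : Type} [Fintype σ] [DecidableEq σ]

theorem adj_smul_eq_zero {u : k} (hu : u ≠ 0) {A : Matrix σ σ k} (h : (u • A).adjugate = 0) :
    A.adjugate = 0 := by
  rw [Matrix.adjugate_smul] at h
  exact (smul_eq_zero.1 h).resolve_left (pow_ne_zero _ hu)

theorem field_adj {F : σ → MvPolynomial σ k} {d : ℕ} (hF : ∀ i, (F i).IsHomogeneous d)
    {a : σ → k} {i N : ℕ} (hN : 1 ≤ N) {u : k} (hu : u ≠ 0)
    (hper : (ev F)^[i + N] a = u • (ev F)^[i] a)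
    (hadj : ¬ IsNilpotent (jprod F ((ev F)^[i] a) N).adjugate)
    {z : σ → k} {m : ℕ} (hm : i ≤ m) {w : k} (hw : w ≠ 0) (hz : z = w • (ev F)^[m] a)
    {q : ℕ} {c : k} (hq : (ev F)^[q] z = c • z) :
    ¬ IsNilpotent (jprod F z q).adjugate := by
  rintro ⟨r, hr⟩
  apply hadj
  set x := (ev F)^[i] a with hx
  have hxN : (ev F)^[N] x = u • x := by
    rw [hx, ← Function.iterate_add_apply, add_comm N i, hper]
  have hxm : (ev F)^[m - i] x = (ev F)^[m] a := by
    rw [hx, ← Function.iterate_add_apply]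
    congr 2
    omega
  -- the adjugate of a long product vanishes
  have h1 : (jprod F z (q * r)).adjugate = 0 := by
    obtain ⟨e, he⟩ := jprod_mul hF hq r
    rw [he, Matrix.adjugate_smul, Matrix.adjugate_pow, hr, smul_zero]
  have h2 : (jprod F ((ev F)^[m] a) (q * r)).adjugate = 0 := by
    obtain ⟨e, he⟩ := jprod_smul hF w ((ev F)^[m] a) (q * r)
    rw [hz, he] at h1
    exact adj_smul_eq_zero (pow_ne_zero _ hw) h1
  set r' := (m - i) + q * r with hr'
  have hle : r' ≤ N * r' := Nat.le_mul_of_pos_left _ hN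
  have h3 : (jprod F x (N * r')).adjugate = 0 := by
    have e1 : N * r' = ((m - i) + q * r) + (N * r' - r') := by omega
    rw [e1, jprod_add F x ((m - i) + q * r), jprod_add F x (m - i), hxm,
      Matrix.adjugate_mul_distrib, Matrix.adjugate_mul_distrib, h2, mul_zero, zero_mul]
  obtain ⟨e, he⟩ := jprod_mul hF hxN r'
  rw [he] at h3
  have h4 := adj_smul_eq_zero (pow_ne_zero _ hu) h3
  rw [Matrix.adjugate_pow] at h4
  exact ⟨r', h4⟩

end

section
variable {p : ℕ} [Fact p.Prime] {R : Type} [NormedCommRing R] {ι : R →+* ℂ_[p]}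

/-- The maximal ideal. -/
def mx (hR : Loc p R ι) : Ideal R where
  carrier := {x | ‖x‖ < 1}
  add_mem' := fun {a b} ha hb => (hR.add_le a b).trans_lt (max_lt ha hb)
  zero_mem' := by
    show ‖(0 : R)‖ < 1
    rw [norm_zero]
    exact one_pos
  smul_mem' := fun c x hx => by
    show ‖c * x‖ < 1
    rw [hR.norm_mul]
    calc ‖c‖ * ‖x‖ ≤ 1 * ‖x‖ := mul_le_mul_of_nonneg_right (hR.le_one c) (norm_nonneg x)
      _ < 1 := by rw [one_mul]; exact hx

theorem mem_mx (hR : Loc p R ι) {x : R} : x ∈ mx hR ↔ ‖x‖ < 1 := Iff.rfl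

theorem mx_maximal (hR : Loc p R ι) : (mx hR).IsMaximal := by
  rw [Ideal.isMaximal_iff]
  refine ⟨fun h => ?_, fun J x _ hx hxJ => ?_⟩
  · rw [mem_mx, hR.norm_one] at h
    exact lt_irrefl _ h
  · rw [mem_mx, not_lt] at hx
    have h1 := hR.unit x (le_antisymm (hR.le_one x) hx)
    rw [← Ideal.eq_top_iff_one]
    exact Ideal.eq_top_of_isUnit_mem J hxJ h1

/-- The rank condition from the adjugate modulo the maximal ideal. -/
theorem hrank_of_adj (hR : Loc p R ι) {σ : Type} [Fintype σ] [DecidableEq σ] {e : ℝ} (he : e < 1)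
    {F : σ → MvPolynomial σ R} {d : ℕ}
    (hF : ∀ i, (F i).IsHomogeneous d) {a : σ → R} {i N : ℕ} (hN : 1 ≤ N)
    (h : Sim e ((ev F)^[i + N] a) ((ev F)^[i] a))
    (hadj : ∃ r s, ‖((jprod F ((ev F)^[i] a) N).adjugate ^ Fintype.card σ) r s‖ = 1)
    (z : σ → R) (t : ℕ → ℕ) (ht : Tendsto t atTop atTop)
    (hz : Tendsto (fun j => (ev F)^[t j] a) atTop (𝓝 z)) (q : ℕ) (c : R)
    (hfix : (ev F)^[q] z = c • z) :
    Fintype.card σ ≤ (((jprod F z q).map ι) ^ 2).rank + 1 := by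
  classical
  have hmax := mx_maximal hR
  let _ : Field (R ⧸ mx hR) := Ideal.Quotient.field (mx hR)
  set π : R →+* R ⧸ mx hR := Ideal.Quotient.mk (mx hR) with hπ
  have hπ0 : ∀ x : R, π x = 0 ↔ ‖x‖ < 1 := fun x => Ideal.Quotient.eq_zero_iff_mem
  set F' : σ → MvPolynomial σ (R ⧸ mx hR) := fun i => MvPolynomial.map π (F i) with hF'
  set a' : σ → R ⧸ mx hR := fun j => π (a j) with ha'
  have horb : ∀ n, (ev F')^[n] a' = fun j => π ((ev F)^[n] a j) := fun n => ev_iterate_map π F n a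
  have hF'h : ∀ i, (F' i).IsHomogeneous d := fun i => (hF i).map _
  obtain ⟨u, hu, huj⟩ := h
  have hu' : π u ≠ 0 := by
    rw [Ne, hπ0, hu]
    exact lt_irrefl _
  have hper : (ev F')^[i + N] a' = π u • (ev F')^[i] a' := by
    rw [horb, horb]
    funext j
    rw [Pi.smul_apply, smul_eq_mul, ← map_mul, ← sub_eq_zero, ← map_sub, hπ0]
    exact (huj j).trans_lt he
  have hadj' : ¬ IsNilpotent (jprod F' ((ev F')^[i] a') N).adjugate := by
    intro hnil
    obtain ⟨r, s, hrs⟩ := hadj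
    have h1 := pow_card_eq_zero hnil
    have h2 : jprod F' ((ev F')^[i] a') N = (jprod F ((ev F)^[i] a) N).map π := by
      rw [horb]
      exact jprod_map π F _ N
    have h3 : ((jprod F ((ev F)^[i] a) N).map π).adjugate
        = ((jprod F ((ev F)^[i] a) N).adjugate).map π :=
      (RingHom.map_adjugate π _).symm
    have h4 : (((jprod F ((ev F)^[i] a) N).adjugate).map π) ^ Fintype.card σ
        = (((jprod F ((ev F)^[i] a) N).adjugate) ^ Fintype.card σ).map π :=
      (map_pow π.mapMatrix _ _).symm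
    rw [h2, h3, h4] at h1
    have h5 := congrFun (congrFun h1 r) s
    rw [Matrix.map_apply, Matrix.zero_apply, hπ0, hrs] at h5
    exact lt_irrefl _ h5
  -- the limit point modulo the maximal ideal
  set z' : σ → R ⧸ mx hR := fun j => π (z j) with hz'
  obtain ⟨m, hm, hzm⟩ : ∃ m, i ≤ m ∧ z' = (1 : R ⧸ mx hR) • (ev F')^[m] a' := by
    have h1 := (Metric.tendsto_atTop.1 hz) 1 one_pos
    obtain ⟨n₁, hn₁⟩ := h1
    obtain ⟨n₂, hn₂⟩ := (tendsto_atTop_atTop.1 ht) i
    refine ⟨t (max n₁ n₂), hn₂ _ (le_max_right _ _), ?_⟩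
    have h2 := hn₁ (max n₁ n₂) (le_max_left _ _)
    rw [one_smul, horb]
    funext j
    rw [hz', ← sub_eq_zero, ← map_sub, hπ0, ← dist_eq_norm, dist_comm]
    exact (dist_le_pi_dist _ _ j).trans_lt h2
  have hq : (ev F')^[q] z' = π c • z' := by
    have h1 : (ev F')^[q] z' = fun j => π ((ev F)^[q] z j) := ev_iterate_map π F q z
    rw [h1, hfix]
    funext j
    rw [Pi.smul_apply, Pi.smul_apply, smul_eq_mul, smul_eq_mul, map_mul]
  have h6 := field_adj hF'h hN hu' hper hadj' hm one_ne_zero hzm hq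
  apply rank_of_adjugate_ne
  intro h7
  apply h6
  have h8 : jprod F' z' q = (jprod F z q).map π := jprod_map π F z q
  have h9 : (((jprod F z q).map ι) ^ 2).adjugate = (((jprod F z q) ^ 2).adjugate).map ι := by
    have e1 : ((jprod F z q).map ι) ^ 2 = ((jprod F z q) ^ 2).map ι :=
      (map_pow ι.mapMatrix _ _).symm
    rw [e1]
    exact (RingHom.map_adjugate ι _).symm
  have h10 : ((jprod F z q) ^ 2).adjugate = 0 := by
    ext r s
    rw [h9] at h7
    have := congrFun (congrFun h7 r) s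
    rw [Matrix.map_apply, Matrix.zero_apply] at this
    exact (map_eq_zero_iff _ hR.injective).1 this
  refine ⟨2, ?_⟩
  have h11 : ((jprod F z q).map π).adjugate = ((jprod F z q).adjugate).map π :=
    (RingHom.map_adjugate π _).symm
  have h12 : (((jprod F z q).adjugate).map π) ^ 2 = (((jprod F z q).adjugate) ^ 2).map π :=
    (map_pow π.mapMatrix _ _).symm
  rw [h8, h11, h12, ← Matrix.adjugate_pow, h10]
  ext r s
  rw [Matrix.map_apply, Matrix.zero_apply, Matrix.zero_apply, map_zero]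

end

end Pool.Agent.Helper88.TL
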