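import Pool.Agent.Helper88.TL.Core
import Pool.Agent.Helper88.TL.Sim
import Pool.Agent.Helper29.TG.Contact

/-!
# Sparse return sets from a place with a large contact

`x` is the orbit of a point over a number field, `v` a place of good reduction at which two points
of the orbit have a positive contact. Either the Jacobians between them are large compared to the
contact, or the adjugate of their product is not nilpotent modulo the place.
-/

set_option autoImplicit false

namespace Pool.Agent.Helper88.TL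

open Pool.Agent.Helper33.SS MvPolynomial Filter Topology Height AdmissibleAbsValues
open Pool.Agent.Helper29.TG (nm cr ct df nm_pos nm_smul le_nm nm_le exists_nm_eq)

section
variable {K : Type} [Field K] {σ : Type}

theorem cr_smul' (c c' : K) (x y : σ → K) : cr (c • x) (c' • y) = (c * c') • cr x y := by
  funext q
  simp only [cr, Pi.smul_apply, smul_eq_mul]
  ring

theorem cr_smul_ne {c c' : K} (hc : c ≠ 0) (hc' : c' ≠ 0) {x y : σ → K} (h : cr x y ≠ 0) :
    cr (c • x) (c' • y) ≠ 0 := by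
  rw [cr_smul']
  exact smul_ne_zero (mul_ne_zero hc hc') h

theorem ct_smul' [Finite σ] (v : AbsoluteValue K ℝ) {c c' : K} (hc : c ≠ 0) (hc' : c' ≠ 0)
    {x y : σ → K} (h : cr x y ≠ 0) : ct v (c • x) (c' • y) = ct v x y := by
  have hx := Pool.Agent.Helper29.TG.left_ne_zero h
  have hy := Pool.Agent.Helper29.TG.right_ne_zero h
  rw [ct, ct, cr_smul', nm_smul, nm_smul, nm_smul, map_mul,
    Real.log_mul (v.pos hc).ne' (nm_pos v hx).ne', Real.log_mul (v.pos hc').ne' (nm_pos v hy).ne',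
    Real.log_mul (mul_pos (v.pos hc) (v.pos hc')).ne' (nm_pos v h).ne',
    Real.log_mul (v.pos hc).ne' (v.pos hc').ne']
  ring

theorem nm_eq_one [Finite σ] {v : AbsoluteValue K ℝ} {x : σ → K} (h1 : ∀ i, v (x i) ≤ 1)
    (h2 : ∃ i, v (x i) = 1) : nm v x = 1 := by
  obtain ⟨i, hi⟩ := h2
  exact le_antisymm (nm_le zero_le_one h1) (by rw [← hi]; exact le_nm v x i)

/-- A primitive orbit. -/
theorem exists_prim_orbit [Finite σ] (v : AbsoluteValue K ℝ) {F : σ → MvPolynomial σ K} {d : ℕ}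
    (hF : ∀ i, (F i).IsHomogeneous d) {x : ℕ → σ → K} (hx : ∀ n, x n ≠ 0)
    (hstep : ∀ n, ∃ c : K, c ≠ 0 ∧ x (n + 1) = c • fun i => eval (x n) (F i)) :
    ∃ (a : σ → K) (b : ℕ → K), (∀ n, b n ≠ 0) ∧ (∀ n, (ev F)^[n] a = b n • x n) ∧
      (∀ i, v (a i) ≤ 1) ∧ ∃ i, v (a i) = 1 := by
  obtain ⟨i₀, hi₀, hnm⟩ := exists_nm_eq v (hx 0)
  set a : σ → K := (x 0 i₀)⁻¹ • x 0 with ha
  have key : ∀ n, ∃ b : K, b ≠ 0 ∧ (ev F)^[n] a = b • x n := by
    intro n
    induction n with
    | zero => exact ⟨(x 0 i₀)⁻¹, inv_ne_zero hi₀, rfl⟩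
    | succ n ih =>
      obtain ⟨b, hb, h⟩ := ih
      obtain ⟨c, hc, hxc⟩ := hstep n
      refine ⟨b ^ d * c⁻¹, mul_ne_zero (pow_ne_zero _ hb) (inv_ne_zero hc), ?_⟩
      rw [Function.iterate_succ_apply', h, hxc, smul_smul, mul_assoc, inv_mul_cancel₀ hc, mul_one]
      funext i
      simp only [ev, Pi.smul_apply, smul_eq_mul]
      exact eval_smul_form (hF i) b (x n)
  choose b hb h using key
  refine ⟨a, b, hb, h, fun i => ?_, i₀, ?_⟩
  · rw [ha, Pi.smul_apply, smul_eq_mul, map_mul, map_inv₀, inv_mul_le_iff₀ (v.pos hi₀), mul_one,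
      ← hnm]
    exact le_nm v (x 0) i
  · rw [ha, Pi.smul_apply, smul_eq_mul, inv_mul_cancel₀ hi₀, map_one]

theorem exists_root {ε : ℝ} (h0 : 0 < ε) (h1 : ε < 1) {n : ℕ} (hn : n ≠ 0) :
    ∃ e : ℝ, 0 < e ∧ e < 1 ∧ e ^ n = ε := by
  refine ⟨ε ^ ((n : ℝ)⁻¹), Real.rpow_pos_of_pos h0 _, ?_, Real.rpow_inv_natCast_pow h0.le hn⟩
  exact Real.rpow_lt_one h0.le h1 (inv_pos.2 (by exact_mod_cast Nat.pos_of_ne_zero hn))

variable [Algebra K ℂ] {v : AbsoluteValue K ℝ} {p : ℕ} [Fact p.Prime]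
  {R : Type} [NormedCommRing R] {ι : R →+* ℂ_[p]} {j : K →+* ℂ_[p]} {n : ℕ} {s : ℂ ≃+* ℂ_[p]}

/-- Contact gives proportionality up to an error. -/
theorem PlaceData.sim (h : PlaceData K v p R ι j n s) {x y : σ → K} {x' y' : σ → R}
    (hx' : ∀ i, ι (x' i) = j (x i)) (hy' : ∀ i, ι (y' i) = j (y i)) (hxp : ∃ i, v (x i) = 1)
    (hyp : ∃ i, v (y i) = 1) {e : ℝ} (he0 : 0 ≤ e) (he1 : e < 1)
    (hcr : ∀ q, v (cr x y q) ≤ e ^ n) : Sim e y' x' := by
  have hR := h.hR
  obtain ⟨i₀, hi₀⟩ := hxp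
  obtain ⟨l₀, hl₀⟩ := hyp
  have h1 : ‖x' i₀‖ = 1 := (h.eq_one_iff' (hx' i₀)).1 hi₀
  have h2 : ‖y' l₀‖ = 1 := (h.eq_one_iff' (hy' l₀)).1 hl₀
  obtain ⟨w, hw⟩ := hR.unit _ h1
  have hw1 : ((w⁻¹ : Rˣ) : R) * x' i₀ = 1 := by rw [← hw, Units.inv_mul]
  have hwn : ‖((w⁻¹ : Rˣ) : R)‖ = 1 := by
    have := congrArg norm hw1
    rwa [hR.norm_mul, h1, mul_one, hR.norm_one] at this
  have hsmall : ∀ l, ‖y' l - (y' i₀ * ((w⁻¹ : Rˣ) : R)) * x' l‖ ≤ e := by
    intro l
    have h3 : y' l - (y' i₀ * ((w⁻¹ : Rˣ) : R)) * x' l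
        = ((w⁻¹ : Rˣ) : R) * (x' i₀ * y' l - x' l * y' i₀) := by
      linear_combination (-(y' l)) * hw1
    rw [h3, hR.norm_mul, hwn, one_mul, ← hR.norm_map, map_sub, map_mul, map_mul, hx', hy', hx', hy',
      ← map_mul, ← map_mul, ← map_sub]
    have h4 := hcr (i₀, l)
    rw [h.hvj] at h4
    exact (pow_le_pow_iff_left₀ (norm_nonneg _) he0 h.hn).1 h4
  refine ⟨y' i₀ * ((w⁻¹ : Rˣ) : R), ?_, hsmall⟩
  have h5 := hsmall l₀
  set u := y' i₀ * ((w⁻¹ : Rˣ) : R) with hu
  have h6 : ‖u * x' l₀‖ = 1 := by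
    have h7 : u * x' l₀ = y' l₀ + -(y' l₀ - u * x' l₀) := by ring
    have h8 : ‖-(y' l₀ - u * x' l₀)‖ < 1 := by
      rw [norm_neg]
      exact h5.trans_lt he1
    rw [h7, hR.add_eq_max (by rw [h2]; exact h8.ne'), h2]
    exact max_eq_left h8.le
  rw [hR.norm_mul] at h6
  have h9 := hR.le_one u
  have h10 := hR.le_one (x' l₀)
  have h11 := norm_nonneg u
  have h12 := norm_nonneg (x' l₀)
  apply le_antisymm h9
  nlinarith

theorem PlaceData.jprod_eq [Fintype σ] [DecidableEq σ] {F : σ → MvPolynomial σ K}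
    {F' : σ → MvPolynomial σ R} (hF' : ∀ i, MvPolynomial.map ι (F' i) = MvPolynomial.map j (F i))
    {x : σ → K} {x' : σ → R} (hx' : ∀ i, ι (x' i) = j (x i)) (N : ℕ) :
    (jprod F' x' N).map ι = (jprod F x N).map j := by
  rw [← jprod_map ι F' x' N, ← jprod_map j F x N]
  have h3 : (fun i => MvPolynomial.map ι (F' i)) = fun i => MvPolynomial.map j (F i) := by
    funext i
    exact hF' i
  have h4 : (fun i => ι (x' i)) = fun i => j (x i) := by
    funext i
    exact hx' i
  rw [h3, h4]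

theorem PlaceData.det_eq [Fintype σ] [DecidableEq σ] {F : σ → MvPolynomial σ K}
    {F' : σ → MvPolynomial σ R} (hF' : ∀ i, MvPolynomial.map ι (F' i) = MvPolynomial.map j (F i))
    {x : σ → K} {x' : σ → R} (hx' : ∀ i, ι (x' i) = j (x i)) :
    ι (jac F' x').det = j (jac F x).det := by
  have h1 := PlaceData.jprod_eq hF' hx' 1
  have h2 : ∀ {A : Type} [CommRing A] (G : σ → MvPolynomial σ A) (z : σ → A),
      jprod G z 1 = jac G z := by
    intro A _ G z
    rw [jprod, jprod, mul_one]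
    rfl
  rw [h2, h2] at h1
  have h3 := congrArg Matrix.det h1
  have h4 : ((jac F' x').map ι).det = ι (jac F' x').det := (RingHom.map_det ι _).symm
  have h5 : ((jac F x).map j).det = j (jac F x).det := (RingHom.map_det j _).symm
  rw [← h4, h3, h5]

end

section
variable {K : Type} [Field K] [NumberField K] [Algebra K ℂ] {σ : Type} [Fintype σ] [DecidableEq σ]

/-- The common part of the two theorems. -/
theorem sparse_of_contact (v : AbsoluteValue K ℝ) (hv : v ∈ nonarchAbsVal (K := K))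
    (hp2 : v 2 = 1) (F : σ → MvPolynomial σ K) (d : ℕ) (hd : 0 < d)
    (hF : ∀ i, (F i).IsHomogeneous d) (hint : ∀ i m, v ((F i).coeff m) ≤ 1)
    (hgood : ∀ y : σ → K, (∀ i, v (y i) ≤ 1) → (∃ i, v (y i) = 1) → ∃ i, v (eval y (F i)) = 1)
    (x : ℕ → σ → K) (hx : ∀ n, x n ≠ 0)
    (hstep : ∀ n, ∃ c : K, c ≠ 0 ∧ x (n + 1) = c • fun i => eval (x n) (F i))
    (hnp : ∀ n m, n ≠ m → cr (x n) (x m) ≠ 0)
    (i n : ℕ) (hin : i < n) (hct : 0 < ct v (x i) (x n))
    (hloc : (∀ l, i ≤ l → l < n → eval (x l) (Matrix.of fun i j => pderiv j (F i)).det ≠ 0 ∧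
        df v (Matrix.of fun i j => pderiv j (F i)).det (Fintype.card σ * (d - 1)) (x l)
          < ct v (x i) (x n)) ∨
      ∃ c : K, (∀ l, v (c * x i l) ≤ 1) ∧ (∃ l, v (c * x i l) = 1) ∧
        ∃ r t, v (((jprod F (c • x i) (n - i)).adjugate ^ Fintype.card σ) r t) = 1)
    (V : Set (MvPolynomial σ ℂ)) (hV : ∀ g ∈ V, ∃ e : ℕ, g.IsHomogeneous e)
    (hfin : ∀ k, 1 ≤ k → ∃ B : Finset (σ → ℂ), ∀ z : σ → ℂ, z ≠ 0 →
      (∀ n, InZ V ((ev fun i => MvPolynomial.map (algebraMap K ℂ) (F i))^[k * n] z)) →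
        ∃ b ∈ B, ∃ c : ℂ, z = c • b) :
    Sparse {n | InZ V (fun j => algebraMap K ℂ (x n j))} := by
  classical
  obtain ⟨p, hpf, R, hRn, ι, j, n₀, s, hp3, h⟩ := exists_place hv hp2
  have hR := h.hR
  obtain ⟨a, b, hb, hab, ha1, ha2⟩ := exists_prim_orbit v hF hx hstep
  choose F' hF' using fun i => h.exists_lift (F i) (hint i)
  choose a' ha' using fun i => h.hint (a i) (ha1 i)
  have horb := fun m => PlaceData.orbit hF' ha' m
  have hprim := fun m => h.orbit_prim hF' hgood ha' ha2 m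
  have hnm : ∀ m, nm v ((ev F)^[m] a) = 1 := fun m => nm_eq_one (hprim m).1 (hprim m).2
  have hF'h : ∀ i, (F' i).IsHomogeneous d := by
    intro i
    apply homogeneous_of_map ι hR.injective
    rw [hF' i]
    exact (hF i).map _
  have hcr : cr ((ev F)^[i] a) ((ev F)^[n] a) ≠ 0 := by
    rw [hab, hab]
    exact cr_smul_ne (hb i) (hb n) (hnp i n hin.ne)
  have hct' : ct v (x i) (x n) = -Real.log (nm v (cr ((ev F)^[i] a) ((ev F)^[n] a))) := by
    rw [← ct_smul' v (hb i) (hb n) (hnp i n hin.ne), ← hab, ← hab, ct, hnm, hnm, Real.log_one]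
    ring
  set ε := nm v (cr ((ev F)^[i] a) ((ev F)^[n] a)) with hε
  have hε0 : 0 < ε := nm_pos v hcr
  have hε1 : ε < 1 := by
    rw [hct'] at hct
    have h1 : Real.log ε < 0 := by linarith
    exact (Real.log_neg_iff hε0).1 h1
  obtain ⟨e, he0, he1, hen⟩ := exists_root hε0 hε1 h.hn
  have hsim : Sim e ((ev F')^[n] a') ((ev F')^[i] a') :=
    h.sim (horb i) (horb n) (hprim i).2 (hprim n).2 he0.le he1 fun q => by
      rw [hen]
      exact le_nm v _ q
  have hN : 1 ≤ n - i := by omega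
  have hiN : i + (n - i) = n := by omega
  have hmain := h.main hp3 F d hd hF hgood F' hF' a ha2 a' ha' (fun m k hk c hcon => by
      apply hnp m (m + k) (by omega)
      have h1 : x (m + k) = ((b (m + k))⁻¹ * (c * b m)) • x m := by
        have h2 : b (m + k) • x (m + k) = (c * b m) • x m := by
          rw [← hab, hcon, hab, smul_smul]
        rw [← smul_smul, ← h2, smul_smul, inv_mul_cancel₀ (hb _), one_smul]
      rw [h1]
      funext q
      simp only [cr, Pi.smul_apply, smul_eq_mul, Pi.zero_apply]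
      ring) V hV hfin ?_
  · -- back to `x`
    refine hmain.mono fun m hm => ?_
    show InZ V _
    have h1 : (fun l => algebraMap K ℂ ((ev F)^[m] a l))
        = algebraMap K ℂ (b m) • fun l => algebraMap K ℂ (x m l) := by
      funext l
      rw [hab, Pi.smul_apply, Pi.smul_apply, smul_eq_mul, smul_eq_mul, map_mul]
    rw [h1]
    intro g hg
    obtain ⟨e', he'⟩ := hV g hg
    rw [eval_smul_form he', hm g hg, mul_zero]
  · -- the rank condition
    intro z t ht hz k _ c _ hfix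
    rcases hloc with hdet | ⟨c₀, hc₀, hc₀1, r, r', hrr'⟩
    · refine hrank_of_det hR he0 hF'h hN (by rw [hiN]; exact hsim) ?_ z t ht hz k
      intro l hl1 hl2
      obtain ⟨hne, hlt⟩ := hdet l hl1 (by omega)
      by_contra hcon
      rw [not_lt] at hcon
      have h1 := PlaceData.det_eq hF' (horb l)
      have hQ : ∀ z : σ → K, eval z (Matrix.of fun i j => pderiv j (F i)).det
          = (jac F z).det := by
        intro z
        rw [RingHom.map_det]
        rfl
      have h2 : v (jac F ((ev F)^[l] a)).det ≤ ε := by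
        rw [h.hvj, ← h1, hR.norm_map, ← hen]
        exact pow_le_pow_left₀ (norm_nonneg _) hcon _
      have hb' := v.pos (hb l)
      have h3 : (jac F ((ev F)^[l] a)).det
          = (b l ^ (d - 1)) ^ Fintype.card σ * (jac F (x l)).det := by
        rw [hab, jac_smul F hF, Matrix.det_smul]
      have h4 : (1 : ℝ) = v (b l) * nm v (x l) := by rw [← hnm l, hab, nm_smul]
      have hnx := nm_pos v (hx l)
      rw [hQ] at hne
      have h5 : Real.log (v (b l)) + Real.log (nm v (x l)) = 0 := by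
        rw [← Real.log_mul hb'.ne' hnx.ne', ← h4, Real.log_one]
      have h6 : Real.log (v (jac F ((ev F)^[l] a)).det)
          = (Fintype.card σ * (d - 1) : ℕ) * Real.log (v (b l))
            + Real.log (v (jac F (x l)).det) := by
        rw [h3, map_mul, map_pow, map_pow, Real.log_mul
          (pow_pos (pow_pos hb' _) _).ne' (v.pos hne).ne', Real.log_pow, Real.log_pow]
        push_cast
        ring
      rw [df, hQ, hct'] at hlt
      have h7 : 0 < v (jac F ((ev F)^[l] a)).det := by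
        apply v.pos
        rw [h3]
        exact mul_ne_zero (pow_ne_zero _ (pow_ne_zero _ (hb l))) hne
      have h8 := Real.log_le_log h7 h2
      have h9 : Real.log (nm v (x l)) = -Real.log (v (b l)) := by linarith
      rw [h9] at hlt
      rw [h6] at h8
      linarith
    · refine hrank_of_adj hR he1 hF'h hN (by rw [hiN]; exact hsim) ⟨r, r', ?_⟩ z t ht hz k c hfix
      -- the two normalisations of `x i`
      have hc₀0 : c₀ ≠ 0 := by
        rintro rfl
        obtain ⟨l, hl⟩ := hc₀1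
        rw [zero_mul, map_zero] at hl
        exact zero_ne_one hl
      have h1 : nm v (c₀ • x i) = 1 := nm_eq_one hc₀ hc₀1
      have h2 : (ev F)^[i] a = (b i * c₀⁻¹) • (c₀ • x i) := by
        rw [hab, smul_smul, mul_assoc, inv_mul_cancel₀ hc₀0, mul_one]
      have h3 : v (b i * c₀⁻¹) = 1 := by
        have := hnm i
        rwa [h2, nm_smul, h1, mul_one] at this
      obtain ⟨e', he'⟩ := jprod_smul hF (b i * c₀⁻¹) (c₀ • x i) (n - i)
      have h4 : v (((jprod F ((ev F)^[i] a) (n - i)).adjugate ^ Fintype.card σ) r r') = 1 := by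
        rw [h2, he', Matrix.adjugate_smul, smul_pow, Matrix.smul_apply, smul_eq_mul, map_mul,
          hrr', mul_one, map_pow, map_pow, map_pow, h3, one_pow, one_pow, one_pow]
      have h5 := PlaceData.jprod_eq hF' (horb i) (n - i)
      have h6 : ∀ {A : Type} [CommRing A] (f : A →+* ℂ_[p]) (M : Matrix σ σ A),
          (M.adjugate ^ Fintype.card σ).map f = (M.map f).adjugate ^ Fintype.card σ := by
        intro A _ f M
        have e1 : (M.adjugate ^ Fintype.card σ).map f = (M.adjugate.map f) ^ Fintype.card σ :=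
          map_pow f.mapMatrix _ _
        have e2 : M.adjugate.map f = (M.map f).adjugate := RingHom.map_adjugate f M
        rw [e1, e2]
      have h7 : ι (((jprod F' ((ev F')^[i] a') (n - i)).adjugate ^ Fintype.card σ) r r')
          = j (((jprod F ((ev F)^[i] a) (n - i)).adjugate ^ Fintype.card σ) r r') := by
        have e1 := congrFun (congrFun (h6 ι (jprod F' ((ev F')^[i] a') (n - i))) r) r'
        have e2 := congrFun (congrFun (h6 j (jprod F ((ev F)^[i] a) (n - i))) r) r'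
        rw [h5] at e1
        rw [Matrix.map_apply] at e1 e2
        rw [e1, e2]
      rw [← h.eq_one_iff' h7]
      exact h4

end

end Pool.Agent.Helper88.TL
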