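import Pool.Agent.Helper33.SS.Defs

/-!
# Components over a subfield of a set of complex forms
-/

set_option autoImplicit false

namespace Pool.Agent.Helper88.TL

open Pool.Agent.Helper33.SS MvPolynomial

section
variable {K : Type} [Field K] [Algebra K ℂ] {σ : Type}

/-- Apply a linear functional to the coefficients. -/
noncomputable def compo (l : ℂ →ₗ[K] K) (g : MvPolynomial σ ℂ) : MvPolynomial σ K :=
  ∑ m ∈ g.support, monomial m (l (g.coeff m))

theorem coeff_compo (l : ℂ →ₗ[K] K) (g : MvPolynomial σ ℂ) (m : σ →₀ ℕ) :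
    (compo l g).coeff m = l (g.coeff m) := by
  classical
  rw [compo, coeff_sum]
  simp only [coeff_monomial]
  rw [Finset.sum_ite_eq' g.support m]
  split_ifs with h
  · rfl
  · rw [notMem_support_iff.1 h, map_zero]

theorem compo_homogeneous (l : ℂ →ₗ[K] K) {g : MvPolynomial σ ℂ} {e : ℕ} (hg : g.IsHomogeneous e) :
    (compo l g).IsHomogeneous e := by
  intro m hm
  apply hg
  intro h0
  rw [coeff_compo, h0, map_zero] at hm
  exact hm rfl

theorem support_compo_subset (l : ℂ →ₗ[K] K) (g : MvPolynomial σ ℂ) :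
    (compo l g).support ⊆ g.support := by
  intro m hm
  rw [mem_support_iff] at hm ⊢
  intro h0
  rw [coeff_compo, h0, map_zero] at hm
  exact hm rfl

theorem eval_compo (l : ℂ →ₗ[K] K) (g : MvPolynomial σ ℂ) (x : σ → K) :
    eval x (compo l g) = l (eval (fun i => algebraMap K ℂ (x i)) g) := by
  rw [compo, map_sum, eval_eq, map_sum]
  refine Finset.sum_congr rfl fun m _ => ?_
  rw [eval_monomial]
  have h1 : g.coeff m * ∏ i ∈ m.support, (algebraMap K ℂ (x i)) ^ m i
      = (∏ i ∈ m.support, x i ^ m i) • g.coeff m := by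
    rw [Algebra.smul_def, map_prod, mul_comm]
    simp only [map_pow]
  rw [h1, map_smul, smul_eq_mul, mul_comm]
  rfl

/-- A point where all components vanish is a zero. -/
theorem eval_eq_zero_of_compo {g : MvPolynomial σ ℂ} {z : σ → ℂ}
    (h : ∀ l : ℂ →ₗ[K] K, eval z (MvPolynomial.map (algebraMap K ℂ) (compo l g)) = 0) :
    eval z g = 0 := by
  classical
  set B := Module.Basis.ofVectorSpace K ℂ with hB
  set J := g.support.biUnion fun m => (B.repr (g.coeff m)).support with hJ
  have h1 : ∀ m ∈ g.support, g.coeff m = ∑ b ∈ J, algebraMap K ℂ (B.coord b (g.coeff m)) * B b := by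
    intro m hm
    have h2 := B.linearCombination_repr (g.coeff m)
    rw [Finsupp.linearCombination_apply, Finsupp.sum] at h2
    conv_lhs => rw [← h2]
    have h3 : (B.repr (g.coeff m)).support ⊆ J := Finset.subset_biUnion_of_mem
      (fun m => (B.repr (g.coeff m)).support) hm
    rw [Finset.sum_subset h3]
    · refine Finset.sum_congr rfl fun b _ => ?_
      rw [Algebra.smul_def]
      rfl
    · intro b _ hb
      rw [Finsupp.notMem_support_iff.1 hb, zero_smul]
  rw [eval_eq]
  have h4 : ∑ m ∈ g.support, g.coeff m * ∏ i ∈ m.support, z i ^ m i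
      = ∑ b ∈ J, B b * ∑ m ∈ g.support, algebraMap K ℂ (B.coord b (g.coeff m))
        * ∏ i ∈ m.support, z i ^ m i := by
    simp only [Finset.mul_sum]
    rw [Finset.sum_comm]
    refine Finset.sum_congr rfl fun m hm => ?_
    conv_lhs => rw [h1 m hm, Finset.sum_mul]
    refine Finset.sum_congr rfl fun b _ => ?_
    ring
  rw [h4]
  refine Finset.sum_eq_zero fun b _ => ?_
  have h5 := h (B.coord b)
  rw [eval_eq] at h5
  have h6 : ∑ m ∈ g.support, algebraMap K ℂ (B.coord b (g.coeff m)) * ∏ i ∈ m.support, z i ^ m i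
      = ∑ m ∈ (MvPolynomial.map (algebraMap K ℂ) (compo (B.coord b) g)).support,
        (MvPolynomial.map (algebraMap K ℂ) (compo (B.coord b) g)).coeff m
          * ∏ i ∈ m.support, z i ^ m i := by
    symm
    refine Finset.sum_subset_zero_on_sdiff ?_ ?_ ?_
    · exact (support_map_subset _ _).trans (support_compo_subset _ _)
    · intro m hm
      rw [Finset.mem_sdiff, notMem_support_iff] at hm
      have h7 := hm.2
      rw [coeff_map, coeff_compo] at h7
      rw [h7, zero_mul]
    · intro m _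
      rw [coeff_map, coeff_compo]
  rw [h6, h5, mul_zero]

/-- Integral forms over the subfield with the same zeros. -/
theorem exists_components (v : AbsoluteValue K ℝ) (V : Set (MvPolynomial σ ℂ))
    (hV : ∀ g ∈ V, ∃ e : ℕ, g.IsHomogeneous e) :
    ∃ W : Set (MvPolynomial σ K), (∀ g ∈ W, ∃ e : ℕ, g.IsHomogeneous e) ∧
      (∀ g ∈ W, ∀ m, v (g.coeff m) ≤ 1) ∧
      (∀ x : σ → K, InZ V (fun i => algebraMap K ℂ (x i)) → InZ W x) ∧
      ∀ z : σ → ℂ, (∀ g ∈ W, eval z (MvPolynomial.map (algebraMap K ℂ) g) = 0) → InZ V z := by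
  classical
  refine ⟨{g | ∃ g₀ ∈ V, ∃ l : ℂ →ₗ[K] K, ∃ c : K, c ≠ 0 ∧ g = C c * compo l g₀ ∧
    ∀ m, v (g.coeff m) ≤ 1}, ?_, ?_, ?_, ?_⟩
  · rintro g ⟨g₀, hg₀, l, c, hc, rfl, -⟩
    obtain ⟨e, he⟩ := hV g₀ hg₀
    refine ⟨0 + e, (isHomogeneous_C σ c).mul (compo_homogeneous l he)⟩
  · rintro g ⟨g₀, hg₀, l, c, hc, rfl, h⟩
    exact h
  · rintro x hx g ⟨g₀, hg₀, l, c, hc, rfl, -⟩
    rw [map_mul, eval_compo, hx g₀ hg₀, map_zero, mul_zero]
  · intro z hz g₀ hg₀
    refine eval_eq_zero_of_compo (K := K) fun l => ?_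
    -- scale the component
    obtain ⟨c, hc, hcm⟩ : ∃ c : K, c ≠ 0 ∧ ∀ m, v ((C c * compo l g₀).coeff m) ≤ 1 := by
      by_cases h0 : (compo l g₀).support = ∅
      · refine ⟨1, one_ne_zero, fun m => ?_⟩
        rw [support_eq_empty] at h0
        rw [h0, mul_zero, coeff_zero, map_zero]
        exact zero_le_one
      · obtain ⟨m₀, hm₀, hmax⟩ := Finset.exists_max_image (compo l g₀).support
          (fun m => v ((compo l g₀).coeff m)) (Finset.nonempty_iff_ne_empty.2 h0)
        have hne : (compo l g₀).coeff m₀ ≠ 0 := mem_support_iff.1 hm₀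
        refine ⟨((compo l g₀).coeff m₀)⁻¹, inv_ne_zero hne, fun m => ?_⟩
        rw [coeff_C_mul, map_mul, map_inv₀]
        by_cases hm : m ∈ (compo l g₀).support
        · rw [inv_mul_le_iff₀ (v.pos hne), mul_one]
          exact hmax m hm
        · rw [notMem_support_iff.1 hm, map_zero, mul_zero]
          exact zero_le_one
    have h1 := hz _ ⟨g₀, hg₀, l, c, hc, rfl, hcm⟩
    rw [map_mul, map_C, map_mul, eval_C] at h1
    exact (mul_eq_zero.1 h1).resolve_left ((map_ne_zero (algebraMap K ℂ)).2 hc)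

end

end Pool.Agent.Helper88.TL
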