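import Pool.Agent.Helper88.TL.Loc
import Pool.Agent.Helper85.SubLOCM

/-!
# The unit ball of a finite extension of the `p`-adic numbers
-/

set_option autoImplicit false

namespace Pool.Agent.Helper88.TL

open Pool.Agent.Helper33.SS Pool.Agent.Helper85.Sub Polynomial Filter Topology

section
variable (K : Type) [Field K] [NumberField K] (p : ℕ) [Fact p.Prime]

theorem ff_add_le (x y : FF K p) : ‖x + y‖ ≤ max ‖x‖ ‖y‖ :=
  PadicAlgCl.isNonarchimedean p (x : PadicAlgCl p) (y : PadicAlgCl p)

/-- The unit ball of the local field. -/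
def Ob : Subring (FF K p) where
  carrier := {x | ‖x‖ ≤ 1}
  mul_mem' := by
    intro a b ha hb
    rw [Set.mem_setOf_eq] at ha hb ⊢
    rw [norm_mul]
    exact mul_le_one₀ ha (norm_nonneg _) hb
  one_mem' := by
    rw [Set.mem_setOf_eq, norm_one]
  add_mem' := by
    intro a b ha hb
    exact (ff_add_le K p a b).trans (max_le ha hb)
  zero_mem' := by
    rw [Set.mem_setOf_eq, norm_zero]
    exact zero_le_one
  neg_mem' := by
    intro a ha
    rw [Set.mem_setOf_eq] at ha ⊢
    rwa [norm_neg]

/-- The inclusion of the unit ball in the complex `p`-adic numbers. -/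
noncomputable def ob : Ob K p →+* ℂ_[p] :=
  ((algebraMap (PadicAlgCl p) ℂ_[p]).comp
    ((FF K p).val : FF K p →+* PadicAlgCl p)).comp (Ob K p).subtype

theorem mem_Ob {x : FF K p} : x ∈ Ob K p ↔ ‖x‖ ≤ 1 := Iff.rfl

theorem norm_ob (x : Ob K p) : ‖ob K p x‖ = ‖x‖ :=
  PadicComplex.norm_extends p _

theorem norm_p_ff : ‖(p : FF K p)‖ = (p : ℝ)⁻¹ := by
  have h1 : ‖(p : FF K p)‖ = ‖((p : FF K p) : PadicAlgCl p)‖ := rfl
  have h2 : (((p : FF K p) : PadicAlgCl p) : ℂ_[p]) = (p : ℂ_[p]) := by
    rw [← PadicComplex.coe_natCast]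
    congr 1
  rw [h1, ← PadicComplex.norm_extends, h2, norm_p_Cp']

theorem ob_integral (x : Ob K p) : (io p).IsIntegralElem (ob K p x) := by
  have hfin : FiniteDimensional ℚ_[p] (FF K p) := ff_finite K p
  have hint : IsIntegral ℚ_[p] (x : FF K p) := Algebra.IsIntegral.isIntegral _
  have h1 : spectralValue (minpoly ℚ_[p] (x : FF K p)) ≤ 1 := by
    have h2 : ‖(x : FF K p)‖ = spectralValue (minpoly ℚ_[p] (x : FF K p)) := ff_spectral _
    rw [← h2]
    exact x.2
  rw [spectralValue_le_one_iff (minpoly.monic hint)] at h1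
  set q := minpoly ℚ_[p] (x : FF K p) with hq
  have h3 : q ∈ Polynomial.lifts (PadicInt.Coe.ringHom (p := p)) := by
    rw [Polynomial.lifts_iff_coeff_lifts]
    intro n
    exact ⟨⟨q.coeff n, h1 n⟩, rfl⟩
  obtain ⟨Q, hQ, -, hQm⟩ := Polynomial.lifts_and_degree_eq_and_monic h3 (minpoly.monic hint)
  refine ⟨Q, hQm, ?_⟩
  have h4 : Polynomial.eval₂ (algebraMap ℚ_[p] (FF K p)) (x : FF K p) q = 0 := by
    rw [← Polynomial.aeval_def]
    exact minpoly.aeval _ _
  rw [← hQ, Polynomial.eval₂_map] at h4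
  have h5 := congrArg ((algebraMap (PadicAlgCl p) ℂ_[p]).comp
    ((FF K p).val : FF K p →+* PadicAlgCl p)) h4
  rw [map_zero, Polynomial.hom_eval₂] at h5
  exact h5

theorem ob_fin : Finite (Ob K p ⧸ Ideal.span {(p : Ob K p)}) := by
  have hfin : FiniteDimensional ℚ_[p] (FF K p) := ff_finite K p
  have hprop : ProperSpace (FF K p) := FiniteDimensional.proper ℚ_[p] (FF K p)
  have hp0 := pinv_pos p
  have hcpt : IsCompact (Metric.closedBall (0 : FF K p) 1) := isCompact_closedBall _ _
  obtain ⟨t, ht, hcov⟩ := (Metric.totallyBounded_iff.1 hcpt.totallyBounded) _ hp0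
  classical
  have key : ∀ x : Ob K p, ∃ y : t, dist (x : FF K p) y < (p : ℝ)⁻¹ := by
    intro x
    have hx : (x : FF K p) ∈ Metric.closedBall (0 : FF K p) 1 := by
      rw [mem_closedBall_zero_iff]
      exact x.2
    obtain ⟨y, hy, hxy⟩ := Set.mem_iUnion₂.1 (hcov hx)
    exact ⟨⟨y, hy⟩, hxy⟩
  choose f hf using key
  have := ht.to_subtype
  -- two elements with the same centre are congruent
  have hcong : ∀ x y : Ob K p, f x = f y → Ideal.Quotient.mk (Ideal.span {(p : Ob K p)}) x
      = Ideal.Quotient.mk _ y := by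
    intro x y hxy
    rw [Ideal.Quotient.eq, Ideal.mem_span_singleton']
    have h1 := hf x
    have h2 := hf y
    rw [hxy] at h1
    have h3 : ‖(x : FF K p) - y‖ ≤ (p : ℝ)⁻¹ := by
      have h4 : (x : FF K p) - y = (x - f y) + (f y - y) := by ring
      rw [h4]
      refine (ff_add_le K p _ _).trans (max_le ?_ ?_)
      · rw [← dist_eq_norm]
        exact h1.le
      · rw [← dist_eq_norm, dist_comm]
        exact h2.le
    have hpne : (p : FF K p) ≠ 0 := by
      intro h
      have := norm_p_ff K p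
      rw [h, norm_zero] at this
      exact hp0.ne this
    refine ⟨⟨((x : FF K p) - y) / p, ?_⟩, ?_⟩
    · rw [mem_Ob, norm_div, norm_p_ff]
      exact div_le_one_of_le₀ h3 hp0.le
    · apply Subtype.ext
      push_cast
      exact div_mul_cancel₀ _ hpne
  -- the quotient is the image of a finite set
  refine Finite.of_surjective (α := Set.range f)
    (fun c => Ideal.Quotient.mk (Ideal.span {(p : Ob K p)}) (Classical.choose c.2)) ?_
  intro q
  obtain ⟨x, rfl⟩ := Ideal.Quotient.mk_surjective q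
  exact ⟨⟨f x, x, rfl⟩, hcong _ _ (Classical.choose_spec (⟨x, rfl⟩ : f x ∈ Set.range f))⟩

theorem ob_complete : CompleteSpace (Ob K p) := by
  have hfin : FiniteDimensional ℚ_[p] (FF K p) := ff_finite K p
  have hc : CompleteSpace (FF K p) := FiniteDimensional.complete ℚ_[p] (FF K p)
  have : IsClosed ((Ob K p : Subring (FF K p)) : Set (FF K p)) := by
    have h1 : ((Ob K p : Subring (FF K p)) : Set (FF K p)) = {x | ‖x‖ ≤ 1} := rfl
    rw [h1]
    exact isClosed_le continuous_norm continuous_const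
  exact this.completeSpace_coe

theorem ob_loc : Loc p (Ob K p) (ob K p) where
  norm_map := norm_ob K p
  le_one x := x.2
  dvd x hx := by
    have hp0 := pinv_pos p
    have hpne : (p : FF K p) ≠ 0 := by
      intro h
      have := norm_p_ff K p
      rw [h, norm_zero] at this
      exact hp0.ne this
    refine ⟨⟨(x : FF K p) / p, ?_⟩, ?_⟩
    · rw [mem_Ob, norm_div, norm_p_ff]
      exact div_le_one_of_le₀ hx hp0.le
    · apply Subtype.ext
      push_cast
      exact (mul_div_cancel₀ _ hpne).symm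
  unit x hx := by
    have hx1 : ‖(x : FF K p)‖ = 1 := hx
    have hx0 : (x : FF K p) ≠ 0 := by
      intro h
      rw [h, norm_zero] at hx1
      exact zero_ne_one hx1
    refine IsUnit.of_mul_eq_one (⟨(x : FF K p)⁻¹, ?_⟩ : Ob K p) ?_
    · rw [mem_Ob, norm_inv, hx1, inv_one]
    · apply Subtype.ext
      push_cast
      exact mul_inv_cancel₀ hx0
  fin := ob_fin K p
  complete := ob_complete K p
  integral := ob_integral K p

end

end Pool.Agent.Helper88.TL
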