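import Pool.Agent.Helper88.TL.Idem
import Pool.Agent.Helper33.SS.Disc

/-!
# Residue polydiscs over the unit ball of a finite extension
-/

set_option autoImplicit false

namespace Pool.Agent.Helper88.TL

open Filter Topology Pool.Agent.Helper33.SS

section DiscAux

open MvPolynomial

/-- The space of affine polynomials. -/
noncomputable def affR (σ k : Type*) [CommRing k] : Submodule k (MvPolynomial σ k) :=
  Submodule.span k (Set.range (fun o : Option σ => o.elim (1 : MvPolynomial σ k) X))

lemma one_mem_affR (σ k : Type*) [CommRing k] : (1 : MvPolynomial σ k) ∈ affR σ k :=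
  Submodule.subset_span ⟨none, rfl⟩

lemma X_mem_affR {σ : Type*} (k : Type*) [CommRing k] (i : σ) :
    (X i : MvPolynomial σ k) ∈ affR σ k :=
  Submodule.subset_span ⟨some i, rfl⟩

lemma C_mem_affR {σ : Type*} {k : Type*} [CommRing k] (c : k) :
    (C c : MvPolynomial σ k) ∈ affR σ k := by
  have h : (C c : MvPolynomial σ k) = c • 1 := by rw [MvPolynomial.smul_eq_C_mul, mul_one]
  rw [h]
  exact Submodule.smul_mem _ _ (one_mem_affR σ k)

lemma affR_map {σ k : Type*} [CommRing k] (v : MvPolynomial σ k →ₐ[k] MvPolynomial σ k)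
    (hv : ∀ i, v (X i) ∈ affR σ k) (x : MvPolynomial σ k) (hx : x ∈ affR σ k) : v x ∈ affR σ k := by
  have h : affR σ k ≤ (affR σ k).comap v.toLinearMap := by
    unfold affR
    rw [Submodule.span_le]
    rintro _ ⟨o, rfl⟩
    cases o with
    | none =>
      show v 1 ∈ affR σ k
      rw [map_one]
      exact one_mem_affR σ k
    | some i => exact hv i
  exact h hx

lemma affR_iter {σ k : Type*} [CommRing k] (v : MvPolynomial σ k →ₐ[k] MvPolynomial σ k)
    (hv : ∀ i, v (X i) ∈ affR σ k) (n : ℕ) (i : σ) : (v ^ n) (X i) ∈ affR σ k := by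
  induction n with
  | zero => exact X_mem_affR k i
  | succ n ih =>
    rw [pow_succ', AlgHom.mul_apply]
    exact affR_map v hv _ ih

instance affR_finite (σ k : Type*) [Finite σ] [CommRing k] [Finite k] : Finite (affR σ k) := by
  have h : Module.Finite k (affR σ k) := by
    unfold affR
    exact Module.Finite.span_of_finite k (Set.finite_range _)
  exact Module.finite_of_finite k

/-- A uniform exponent. -/
lemma affR_exp (σ k : Type*) [Finite σ] [CommRing k] [Finite k] :
    ∃ e : ℕ, 1 ≤ e ∧ ∀ v : MvPolynomial σ k →ₐ[k] MvPolynomial σ k,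
      (∀ i, v (X i) ∈ affR σ k) → v ^ (e + e) = v ^ e := by
  classical
  set N := Nat.card (σ → affR σ k) with hN
  have hNpos : 0 < N := Nat.card_pos
  refine ⟨N.factorial, Nat.factorial_pos _, fun v hv => ?_⟩
  -- pigeonhole
  have hinj : ¬ Function.Injective (fun n : Fin (N + 1) =>
      (fun i => (⟨(v ^ (n : ℕ)) (X i), affR_iter v hv n i⟩ : affR σ k))) := by
    intro hinj
    have h1 := Nat.card_le_card_of_injective _ hinj
    rw [Nat.card_eq_fintype_card, Fintype.card_fin, ← hN] at h1
    omega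
  have hex : ∃ i j : ℕ, i < j ∧ j ≤ N ∧ v ^ i = v ^ j := by
    rw [Function.Injective] at hinj
    push Not at hinj
    obtain ⟨a, b, hab, hne⟩ := hinj
    have heq : v ^ (a : ℕ) = v ^ (b : ℕ) := by
      apply MvPolynomial.algHom_ext
      intro i
      have := congrFun hab i
      exact congrArg Subtype.val this
    have hne' : (a : ℕ) ≠ b := fun h => hne (Fin.ext h)
    rcases lt_or_gt_of_ne hne' with h | h
    · exact ⟨a, b, h, by omega, heq⟩
    · exact ⟨b, a, h, by omega, heq.symm⟩
  obtain ⟨i, j, hij, hj, heq⟩ := hex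
  obtain ⟨d, rfl⟩ := Nat.exists_eq_add_of_lt hij
  -- periodicity
  have hper : ∀ n, i ≤ n → v ^ (n + (d + 1)) = v ^ n := by
    intro n hn
    obtain ⟨m, rfl⟩ := Nat.exists_eq_add_of_le hn
    have e1 : i + m + (d + 1) = (i + d + 1) + m := by ring
    rw [e1, pow_add, ← heq, ← pow_add]
  have hper2 : ∀ t n, i ≤ n → v ^ (n + (d + 1) * t) = v ^ n := by
    intro t
    induction t with
    | zero => intro n _; simp
    | succ t ih =>
      intro n hn
      have e1 : n + (d + 1) * (t + 1) = (n + (d + 1) * t) + (d + 1) := by ring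
      rw [e1, hper _ (by nlinarith), ih n hn]
  have hdvd : (d + 1) ∣ N.factorial := Nat.dvd_factorial (by omega) (by omega)
  obtain ⟨t, ht⟩ := hdvd
  have hge : i ≤ N.factorial := by
    have := Nat.self_le_factorial N
    omega
  conv_lhs => rw [show N.factorial + N.factorial = N.factorial + (d + 1) * t by rw [← ht]]
  exact hper2 t _ hge

lemma mul_dvd_iff_mk {R : Type*} [CommRing R] (a : R) {σ : Type*} (φ : MvPolynomial σ R) :
    (C a : MvPolynomial σ R) ∣ φ ↔
      MvPolynomial.map (Ideal.Quotient.mk (Ideal.span {a})) φ = 0 := by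
  refine MvPolynomial.C_dvd_iff_map_hom_eq_zero _ _ (fun r => ?_) φ
  rw [Ideal.Quotient.eq_zero_iff_mem, Ideal.mem_span_singleton]

end DiscAux

/-- The analogue of `Pool.Agent.Helper33.SS.disc`. -/
theorem disc' {p : ℕ} [Fact p.Prime] {R : Type} [NormedCommRing R] {ι : R →+* ℂ_[p]}
    (hR : Loc p R ι) (σ : Type) [Fintype σ] [DecidableEq σ] :
    ∃ e : ℕ, 1 ≤ e ∧ ∀ (G : σ → MvPolynomial σ R) (b y₀ : σ → R),
      (∀ i, ‖ev G b i - b i‖ ≤ (p : ℝ)⁻¹) → (∀ i, ‖y₀ i - b i‖ ≤ (p : ℝ)⁻¹) →
      ∃ f : ℕ → σ → R, (∀ i k n, ‖(fwdDiff 1)^[k] (fun m => f m i) n‖ ≤ ((p : ℝ)⁻¹) ^ k) ∧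
        (∀ n i, ‖(ev G)^[e * n] y₀ i - f n i‖ ≤ ((p : ℝ)⁻¹) ^ n) ∧
        (∀ n i, Tendsto (fun j => (ev G)^[e * (n + p ^ j)] y₀ i) atTop (𝓝 (f n i))) := by
  classical
  have hp : p.Prime := Fact.out
  have hfinq := hR.fin
  set κ := R ⧸ Ideal.span {(p : R)} with hκ
  set π : R →+* κ := Ideal.Quotient.mk (Ideal.span {(p : R)}) with hπ
  obtain ⟨e, he1, he⟩ := affR_exp σ κ
  refine ⟨e, he1, fun G b y₀ hb hy => ?_⟩
  open MvPolynomial in
  -- the coordinate `ξ₀`
  have hξ : ∀ i, ∃ x : R, y₀ i = b i + p * x := by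
    intro i
    obtain ⟨x, hx⟩ := hR.dvd _ (hy i)
    exact ⟨x, by rw [← hx]; ring⟩
  choose ξ hξ using hξ
  have hc : ∀ i, ∃ x : R, ev G b i = b i + p * x := by
    intro i
    obtain ⟨x, hx⟩ := hR.dvd _ (hb i)
    exact ⟨x, by rw [← hx]; ring⟩
  choose c hc using hc
  -- Taylor
  have hT := fun i => Pool.Agent.Helper37.taylor (R := R) (S := MvPolynomial σ R)
    (MvPolynomial.C (p : R)) (fun j => MvPolynomial.C (b j)) (fun j => MvPolynomial.X j) (G i)
  choose r hr using hT
  set H : σ → MvPolynomial σ R := fun i => MvPolynomial.C (c i) +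
    (∑ j, MvPolynomial.C (MvPolynomial.eval b (MvPolynomial.pderiv j (G i))) * MvPolynomial.X j)
      + MvPolynomial.C (p : R) * r i with hH
  have haC : ∀ P : MvPolynomial σ R,
      MvPolynomial.aeval (fun j => (MvPolynomial.C (b j) : MvPolynomial σ R)) P
        = MvPolynomial.C (MvPolynomial.eval b P) := by
    intro P
    induction P using MvPolynomial.induction_on with
    | C a => simp
    | add P Q hP hQ => rw [map_add, hP, hQ, map_add, map_add]
    | mul_X P i hP => rw [map_mul, hP, MvPolynomial.aeval_X, map_mul, MvPolynomial.eval_X, map_mul]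
  have hS : ∀ i, MvPolynomial.aeval (fun j => (MvPolynomial.C (b j) +
      MvPolynomial.C (p : R) * MvPolynomial.X j : MvPolynomial σ R)) (G i)
        = MvPolynomial.C (b i) + MvPolynomial.C (p : R) * H i := by
    intro i
    rw [hr i, haC]
    have h2 : (MvPolynomial.C (MvPolynomial.eval b (G i)) : MvPolynomial σ R)
        = MvPolynomial.C (b i) + MvPolynomial.C (p : R) * MvPolynomial.C (c i) := by
      rw [← map_mul, ← map_add, ← hc i]
      rfl
    have h3 : ∑ j, MvPolynomial.aeval (fun j => (MvPolynomial.C (b j) : MvPolynomial σ R))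
        (MvPolynomial.pderiv j (G i)) * MvPolynomial.X j
        = ∑ j, MvPolynomial.C (MvPolynomial.eval b (MvPolynomial.pderiv j (G i))) *
          MvPolynomial.X j := Finset.sum_congr rfl fun j _ => by rw [haC]
    rw [h2, h3, hH]
    ring
  -- the maps in the coordinate
  have hstep : ∀ ζ : σ → R, ev G (fun i => b i + p * ζ i) = fun i => b i + p * ev H ζ i := by
    intro ζ
    funext i
    have h1 := congrArg (MvPolynomial.eval ζ) (hS i)
    have h2 : MvPolynomial.eval ζ (MvPolynomial.aeval (fun j => (MvPolynomial.C (b j) +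
      MvPolynomial.C (p : R) * MvPolynomial.X j : MvPolynomial σ R)) (G i))
        = MvPolynomial.eval (fun i => b i + p * ζ i) (G i) := by
      generalize G i = P
      induction P using MvPolynomial.induction_on with
      | C a => simp
      | add P Q hP hQ => rw [map_add, map_add, hP, hQ, map_add]
      | mul_X P i hP =>
        rw [map_mul, map_mul, hP, MvPolynomial.aeval_X, map_mul, MvPolynomial.eval_X]
        simp
    rw [h2] at h1
    show MvPolynomial.eval (fun i => b i + p * ζ i) (G i) = _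
    rw [h1]
    simp [ev]
  have hiter : ∀ m : ℕ, ∀ i, (ev G)^[m] y₀ i = b i + p * (ev H)^[m] ξ i := by
    intro m
    induction m with
    | zero => intro i; exact hξ i
    | succ m ih =>
      intro i
      rw [Function.iterate_succ_apply', Function.iterate_succ_apply', funext ih, hstep]
  -- reduction modulo p
  set red := MvPolynomial.map (σ := σ) π with hred
  set w : MvPolynomial σ κ →ₐ[κ] MvPolynomial σ κ :=
    MvPolynomial.aeval (fun i => red (H i)) with hw
  have hcomm : ∀ h : MvPolynomial σ R, red (MvPolynomial.aeval H h) = w (red h) := by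
    intro h
    induction h using MvPolynomial.induction_on with
    | C a => simp [hred, hw]
    | add P Q hP hQ => rw [map_add, map_add, hP, hQ, map_add, map_add]
    | mul_X P i hP =>
      rw [map_mul, map_mul, hP, map_mul, map_mul, MvPolynomial.aeval_X]
      congr 1
      rw [hred, MvPolynomial.map_X, hw, MvPolynomial.aeval_X]
  have hwL : ∀ i, w (MvPolynomial.X i) ∈ affR σ κ := by
    intro i
    rw [hw, MvPolynomial.aeval_X, hH]
    simp only [hred, map_add, map_mul, map_sum, MvPolynomial.map_C, MvPolynomial.map_X]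
    refine Submodule.add_mem _ (Submodule.add_mem _ (C_mem_affR _)
      (Submodule.sum_mem _ fun j _ => ?_)) ?_
    · rw [← MvPolynomial.smul_eq_C_mul]
      exact Submodule.smul_mem _ _ (X_mem_affR _ j)
    · have h0 : π (p : R) = 0 := by
        rw [hπ, Ideal.Quotient.eq_zero_iff_mem]
        exact Ideal.mem_span_singleton_self _
      rw [h0, map_zero, zero_mul]
      exact Submodule.zero_mem _
  have hcomm' : ∀ (m : ℕ) (h : MvPolynomial σ R),
      red ((((MvPolynomial.aeval H : MvPolynomial σ R →ₐ[R] _).toLinearMap) ^ m) h)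
        = (w ^ m) (red h) := by
    intro m
    induction m with
    | zero => intro h; simp
    | succ m ih =>
      intro h
      rw [pow_succ, Module.End.mul_apply, ih, pow_succ, AlgHom.mul_apply]
      congr 1
      exact hcomm h
  -- apply the idempotent lemma
  set U : Module.End R (MvPolynomial σ R) :=
    ((MvPolynomial.aeval H : MvPolynomial σ R →ₐ[R] _).toLinearMap) with hU
  have hu : ∀ h, ∃ g, (U ^ e) ((U ^ e) h) - (U ^ e) h = (p : R) • g := by
    intro h
    have h1 : red ((U ^ e) ((U ^ e) h) - (U ^ e) h) = 0 := by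
      rw [map_sub, ← Module.End.mul_apply, ← pow_add, hcomm', hcomm', he w hwL, sub_self]
    obtain ⟨g, hg⟩ := (mul_dvd_iff_mk (p : R) _).2 h1
    exact ⟨g, by rw [hg, MvPolynomial.smul_eq_C_mul]⟩
  set φ : MvPolynomial σ R →ₗ[R] R :=
    (MvPolynomial.aeval ξ : MvPolynomial σ R →ₐ[R] R).toLinearMap with hφ
  have hval : ∀ (m : ℕ) (i : σ),
      φ (((U ^ e) ^ m) (MvPolynomial.C (b i) + MvPolynomial.C (p : R) * MvPolynomial.X i))
        = (ev G)^[e * m] y₀ i := by
    intro m i
    rw [← pow_mul, hiter]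
    have h1 : ∀ g, φ g = MvPolynomial.eval ξ g := fun g => by
      rw [hφ, AlgHom.toLinearMap_apply]
      exact DFunLike.congr_fun (MvPolynomial.coe_aeval_eq_eval ξ) g
    rw [h1, hU, eval_iter]
    simp
  have hid := fun i => idem' hR (U ^ e) hu φ
    (MvPolynomial.C (b i) + MvPolynomial.C (p : R) * MvPolynomial.X i)
  choose f hf1 hf2 hf3 using hid
  refine ⟨fun n i => f i n, fun i k n => hf1 i k n, fun n i => ?_, fun n i => ?_⟩
  · rw [← hval]
    exact hf2 i n
  · have h1 := hf3 i n
    simpa only [hval] using h1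

end Pool.Agent.Helper88.TL
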