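import Pool.Agent.Helper88.TL.Nondeg

/-!
# Ranks, adjugates and products of Jacobian matrices along orbits
-/

set_option autoImplicit false

namespace Pool.Agent.Helper88.TL

open Pool.Agent.Helper33.SS MvPolynomial Filter Topology

section
variable {R : Type*} [CommRing R] {σ : Type*} [Fintype σ] [DecidableEq σ]

theorem jprod_smul {F : σ → MvPolynomial σ R} {d : ℕ} (hF : ∀ i, (F i).IsHomogeneous d) (c : R)
    (z : σ → R) (n : ℕ) : ∃ e : ℕ, jprod F (c • z) n = c ^ e • jprod F z n := by
  induction n with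
  | zero => exact ⟨0, by rw [pow_zero, one_smul]; rfl⟩
  | succ n ih =>
    obtain ⟨e, he⟩ := ih
    refine ⟨d ^ n * (d - 1) + e, ?_⟩
    rw [jprod, jprod, he, ev_iter_smul F hF, jac_smul F hF, Matrix.smul_mul, Matrix.mul_smul,
      smul_smul, ← pow_mul, ← pow_add]

theorem jprod_add (F : σ → MvPolynomial σ R) (z : σ → R) (a b : ℕ) :
    jprod F z (a + b) = jprod F ((ev F)^[a] z) b * jprod F z a := by
  induction b with
  | zero => rw [add_zero, jprod, one_mul]
  | succ b ih =>
    rw [← add_assoc, jprod, ih, jprod, ← Function.iterate_add_apply, add_comm b a, Matrix.mul_assoc]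

theorem ev_iter_mul {F : σ → MvPolynomial σ R} {d : ℕ} (hF : ∀ i, (F i).IsHomogeneous d)
    {z : σ → R} {N : ℕ} {u : R} (h : (ev F)^[N] z = u • z) (r : ℕ) :
    ∃ e : ℕ, (ev F)^[N * r] z = u ^ e • z := by
  induction r with
  | zero => exact ⟨0, by simp⟩
  | succ r ih =>
    obtain ⟨e, he⟩ := ih
    refine ⟨e * d ^ N + 1, ?_⟩
    rw [Nat.mul_succ, Nat.add_comm, Function.iterate_add_apply, he, ev_iter_smul F hF, h, smul_smul,
      ← pow_mul, pow_succ]

theorem jprod_mul {F : σ → MvPolynomial σ R} {d : ℕ} (hF : ∀ i, (F i).IsHomogeneous d)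
    {z : σ → R} {N : ℕ} {u : R} (h : (ev F)^[N] z = u • z) (r : ℕ) :
    ∃ e : ℕ, jprod F z (N * r) = u ^ e • (jprod F z N) ^ r := by
  induction r with
  | zero => exact ⟨0, by rw [pow_zero, one_smul, pow_zero]; rfl⟩
  | succ r ih =>
    obtain ⟨e, he⟩ := ih
    obtain ⟨e1, he1⟩ := ev_iter_mul hF h r
    obtain ⟨e2, he2⟩ := jprod_smul hF (u ^ e1) z N
    refine ⟨e1 * e2 + e, ?_⟩
    rw [Nat.mul_succ, jprod_add, he1, he2, he, Matrix.smul_mul, Matrix.mul_smul, smul_smul,
      ← pow_mul, ← pow_add, ← pow_succ']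

theorem jprod_map {S : Type*} [CommRing S] (f : R →+* S) (F : σ → MvPolynomial σ R) (z : σ → R)
    (n : ℕ) : jprod (fun i => MvPolynomial.map f (F i)) (fun i => f (z i)) n
      = (jprod F z n).map f := by
  induction n with
  | zero =>
    rw [jprod, jprod]
    exact (Matrix.map_one f (map_zero f) (map_one f)).symm
  | succ n ih =>
    rw [jprod, jprod, ih, ev_iterate_map f F n z, Matrix.map_mul]
    congr 1
    exact jac_map f F _

end

theorem rank_sq_smul {k : Type*} [Field k] {n : Type*} [Fintype n] [DecidableEq n] {a : k}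
    (ha : a ≠ 0) (A : Matrix n n k) : ((a • A) ^ 2).rank = (A ^ 2).rank := by
  rw [smul_pow]
  exact Matrix.rank_smul_of_mem_nonZeroDivisors _ (mem_nonZeroDivisors_of_ne_zero (pow_ne_zero _ ha))

theorem rank_jprod_smul {p : ℕ} [Fact p.Prime] {R : Type} [NormedCommRing R] {ι : R →+* ℂ_[p]}
    (hR : Loc p R ι) {σ : Type} [Fintype σ] [DecidableEq σ]
    {F : σ → MvPolynomial σ R} {d : ℕ} (hF : ∀ i, (F i).IsHomogeneous d) {c : R} (hc : c ≠ 0)
    {z : σ → R} {k : ℕ} :
    (((jprod F (c • z) k).map ι) ^ 2).rank = (((jprod F z k).map ι) ^ 2).rank := by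
  obtain ⟨e, he⟩ := jprod_smul hF c z k
  rw [he]
  have h1 : (c ^ e • jprod F z k).map ι = (ι c) ^ e • (jprod F z k).map ι := by
    ext i j
    simp only [Matrix.map_apply, Matrix.smul_apply, smul_eq_mul, map_mul, map_pow]
  rw [h1]
  exact rank_sq_smul (pow_ne_zero _ ((map_ne_zero_iff _ hR.injective).2 hc)) _

theorem rank_add_le' {k : Type*} [Field k] {n : Type*} [Fintype n] (A B : Matrix n n k) :
    (A + B).rank ≤ A.rank + B.rank := by
  rw [Matrix.rank, Matrix.rank, Matrix.rank, Matrix.mulVecLin_add]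
  refine le_trans (Submodule.finrank_mono ?_) (Submodule.finrank_add_le_finrank_add_finrank _ _)
  rintro _ ⟨x, rfl⟩
  exact Submodule.add_mem_sup ⟨x, rfl⟩ ⟨x, rfl⟩

/-- A matrix with nonzero adjugate has corank at most one. -/
theorem rank_of_adjugate_ne {k : Type*} [Field k] {n : Type*} [Fintype n] [DecidableEq n]
    {A : Matrix n n k} (h : A.adjugate ≠ 0) : Fintype.card n ≤ A.rank + 1 := by
  obtain ⟨i, j, hij⟩ : ∃ i j, A.adjugate i j ≠ 0 := by
    by_contra hcon
    push Not at hcon
    exact h (by ext i j; exact hcon i j)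
  rw [Matrix.adjugate_apply] at hij
  have h1 : A.updateRow j (Pi.single i 1)
      = A + Matrix.vecMulVec (Pi.single j 1) (Pi.single i 1 - A j) := by
    ext r s
    rw [Matrix.add_apply, Matrix.vecMulVec_apply, Matrix.updateRow_apply, Pi.sub_apply]
    by_cases hr : r = j
    · subst hr
      rw [if_pos rfl, Pi.single_eq_same]
      ring
    · rw [if_neg hr, Pi.single_eq_of_ne hr]
      ring
  have h2 := Matrix.rank_of_det_ne_zero hij
  rw [← h2, h1]
  refine (rank_add_le' _ _).trans ?_
  have := Matrix.rank_vecMulVec_le (Pi.single j (1 : k)) (Pi.single i 1 - A j)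
  omega

/-- Over a field a nilpotent matrix is annihilated by the power of its size. -/
theorem pow_card_eq_zero {k : Type*} [Field k] {n : Type*} [Fintype n] [DecidableEq n]
    {A : Matrix n n k} (h : IsNilpotent A) : A ^ Fintype.card n = 0 := by
  have h1 := Matrix.isNilpotent_charpoly_sub_pow_of_isNilpotent h
  have h2 : A.charpoly = Polynomial.X ^ Fintype.card n := by
    have := h1.eq_zero
    exact sub_eq_zero.1 this
  have h3 := Matrix.aeval_self_charpoly A
  rwa [h2, map_pow, Polynomial.aeval_X] at h3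

end Pool.Agent.Helper88.TL
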