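import Pool.Agent.Helper88.TL.Place
import Pool.Agent.Helper88.TL.Compo
import Pool.Agent.Helper88.TL.Stage1
import Pool.Agent.Helper33.SS.Over

/-!
# From the local theorem to orbits over a number field
-/

set_option autoImplicit false

namespace Pool.Agent.Helper88.TL

open Pool.Agent.Helper33.SS MvPolynomial Filter Topology

section
variable {K : Type} [Field K] [Algebra K ℂ] {v : AbsoluteValue K ℝ} {p : ℕ} [Fact p.Prime]
  {R : Type} [NormedCommRing R] {ι : R →+* ℂ_[p]} {j : K →+* ℂ_[p]} {n : ℕ} {s : ℂ ≃+* ℂ_[p]}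
  {σ : Type}

theorem PlaceData.le_one_iff (h : PlaceData K v p R ι j n s) {z : K} : v z ≤ 1 ↔ ‖j z‖ ≤ 1 := by
  rw [h.hvj]
  exact pow_le_one_iff_of_nonneg (norm_nonneg _) h.hn

theorem PlaceData.eq_one_iff (h : PlaceData K v p R ι j n s) {z : K} : v z = 1 ↔ ‖j z‖ = 1 := by
  rw [h.hvj]
  exact pow_eq_one_iff_of_nonneg (norm_nonneg _) h.hn

theorem PlaceData.eq_one_iff' (h : PlaceData K v p R ι j n s) {z : K} {r : R} (hr : ι r = j z) :
    v z = 1 ↔ ‖r‖ = 1 := by
  rw [h.eq_one_iff, ← hr, h.hR.norm_map]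

theorem PlaceData.exists_lift (h : PlaceData K v p R ι j n s) (P : MvPolynomial σ K)
    (hP : ∀ m, v (P.coeff m) ≤ 1) :
    ∃ Q : MvPolynomial σ R, MvPolynomial.map ι Q = MvPolynomial.map j P := by
  classical
  choose z hz using fun m => h.hint _ (hP m)
  refine ⟨∑ m ∈ P.support, monomial m (z m), ?_⟩
  conv_rhs => rw [P.as_sum, map_sum]
  rw [map_sum]
  refine Finset.sum_congr rfl fun m _ => ?_
  rw [map_monomial, map_monomial, hz]

/-- A point, a map and the orbit over the unit ball. -/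
theorem PlaceData.orbit {F : σ → MvPolynomial σ K} {F' : σ → MvPolynomial σ R}
    (hF' : ∀ i, MvPolynomial.map ι (F' i) = MvPolynomial.map j (F i)) {a : σ → K} {a' : σ → R}
    (ha' : ∀ i, ι (a' i) = j (a i)) (m : ℕ) (i : σ) :
    ι ((ev F')^[m] a' i) = j ((ev F)^[m] a i) := by
  have h1 := ev_iterate_map ι F' m a'
  have h2 := ev_iterate_map j F m a
  have h3 : (fun i => MvPolynomial.map ι (F' i)) = fun i => MvPolynomial.map j (F i) := by
    funext i
    exact hF' i
  have h4 : (fun i => ι (a' i)) = fun i => j (a i) := by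
    funext i
    exact ha' i
  rw [h3, h4, h2] at h1
  exact (congrFun h1 i).symm

/-- Good reduction keeps the orbit primitive. -/
theorem PlaceData.orbit_prim (h : PlaceData K v p R ι j n s) {F : σ → MvPolynomial σ K}
    {F' : σ → MvPolynomial σ R}
    (hF' : ∀ i, MvPolynomial.map ι (F' i) = MvPolynomial.map j (F i))
    (hgood : ∀ y : σ → K, (∀ i, v (y i) ≤ 1) → (∃ i, v (y i) = 1) → ∃ i, v (eval y (F i)) = 1)
    {a : σ → K} {a' : σ → R} (ha' : ∀ i, ι (a' i) = j (a i)) (ha : ∃ i, v (a i) = 1) (m : ℕ) :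
    (∀ i, v ((ev F)^[m] a i) ≤ 1) ∧ ∃ i, v ((ev F)^[m] a i) = 1 := by
  have h1 : ∀ m i, v ((ev F)^[m] a i) ≤ 1 := by
    intro m i
    rw [h.le_one_iff, ← PlaceData.orbit hF' ha', h.hR.norm_map]
    exact h.hR.le_one _
  refine ⟨h1 m, ?_⟩
  induction m with
  | zero => exact ha
  | succ m ih =>
    rw [Function.iterate_succ_apply']
    exact hgood _ (h1 m) ih

/-- The transfer of the local theorem. -/
theorem PlaceData.main (h : PlaceData K v p R ι j n s) (hp3 : 3 ≤ p) [Fintype σ] [DecidableEq σ]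
    (F : σ → MvPolynomial σ K) (d : ℕ) (hd : 0 < d) (hF : ∀ i, (F i).IsHomogeneous d)
    (hgood : ∀ y : σ → K, (∀ i, v (y i) ≤ 1) → (∃ i, v (y i) = 1) → ∃ i, v (eval y (F i)) = 1)
    (F' : σ → MvPolynomial σ R)
    (hF' : ∀ i, MvPolynomial.map ι (F' i) = MvPolynomial.map j (F i))
    (a : σ → K) (ha : ∃ i, v (a i) = 1) (a' : σ → R) (ha' : ∀ i, ι (a' i) = j (a i))
    (hnp : ∀ m k, 1 ≤ k → ∀ c : K, (ev F)^[m + k] a ≠ c • (ev F)^[m] a)
    (V : Set (MvPolynomial σ ℂ)) (hV : ∀ g ∈ V, ∃ e : ℕ, g.IsHomogeneous e)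
    (hfin : ∀ k, 1 ≤ k → ∃ B : Finset (σ → ℂ), ∀ z : σ → ℂ, z ≠ 0 →
      (∀ m, InZ V ((ev fun i => MvPolynomial.map (algebraMap K ℂ) (F i))^[k * m] z)) →
        ∃ b ∈ B, ∃ c : ℂ, z = c • b)
    (hrank : ∀ (z : σ → R) (t : ℕ → ℕ), Tendsto t atTop atTop →
      Tendsto (fun l => (ev F')^[t l] a') atTop (𝓝 z) → ∀ k, 1 ≤ k →
      ∀ c : R, ‖c‖ = 1 → (ev F')^[k] z = c • z →
      Fintype.card σ ≤ (((jprod F' z k).map ι) ^ 2).rank + 1) :
    Sparse {m | InZ V (fun i => algebraMap K ℂ ((ev F)^[m] a i))} := by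
  classical
  have hR := h.hR
  have hdom := hR.isDomain
  obtain ⟨W, hW1, hW2, hW3, hW4⟩ := exists_components (K := K) v V hV
  set V' : Set (MvPolynomial σ R) :=
    {Q | ∃ g ∈ W, MvPolynomial.map ι Q = MvPolynomial.map j g} with hV'
  have horb := fun m => PlaceData.orbit hF' ha' m
  have hprim := fun m => h.orbit_prim hF' hgood ha' ha m
  have hF'h : ∀ i, (F' i).IsHomogeneous d := by
    intro i
    apply homogeneous_of_map ι hR.injective
    rw [hF' i]
    exact (hF i).map _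
  have hV'h : ∀ Q ∈ V', ∃ e : ℕ, Q.IsHomogeneous e := by
    rintro Q ⟨g, hg, hQ⟩
    obtain ⟨e, he⟩ := hW1 g hg
    refine ⟨e, homogeneous_of_map ι hR.injective ?_⟩
    rw [hQ]
    exact he.map _
  have hmain := stage1R hp3 hR F' d hd hF'h V' {1} hV'h
    (by
      rintro g rfl
      exact ⟨0, isHomogeneous_one σ R⟩) ?_ a'
    (fun z t ht hz _ k hk c hc hfix => hrank z t ht hz k hk c hc hfix)
    (fun m => ⟨1, rfl, by rw [map_one, hR.norm_one]⟩)
    (fun m => by
      obtain ⟨i, hi⟩ := (hprim m).2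
      exact ⟨i, (h.eq_one_iff' (horb m i)).1 hi⟩) ?_
  · refine hmain.mono fun m hm => ?_
    show InZ V' _
    rintro Q ⟨g, hg, hQ⟩
    apply hR.injective
    rw [map_zero, ← hR.eval_map, hQ]
    have h1 : (fun i => ι ((ev F')^[m] a' i)) = fun i => j ((ev F)^[m] a i) := by
      funext i
      exact horb m i
    rw [h1]
    have h2 : eval (fun i => j ((ev F)^[m] a i)) (MvPolynomial.map j g)
        = j (eval ((ev F)^[m] a) g) := by
      rw [MvPolynomial.eval_map]
      exact (MvPolynomial.eval₂_comp j _ g).symm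
    rw [h2, hW3 _ hm g hg, map_zero]
  · -- finiteness
    intro k hk
    obtain ⟨B, hB⟩ := hfin k hk
    refine ⟨B.image fun b i => s (b i), fun z hz h1 _ => ?_⟩
    set z' : σ → ℂ := fun i => s.symm (z i) with hz'
    have hzz : z = fun i => s (z' i) := by
      funext i
      rw [hz', RingEquiv.apply_symm_apply]
    have hz'0 : z' ≠ 0 := by
      intro h0
      apply hz
      rw [hzz]
      funext i
      rw [h0]
      simp
    have hsj : (s : ℂ →+* ℂ_[p]).comp (algebraMap K ℂ) = j := by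
      ext x
      exact h.hs x
    have hmap : ∀ g : MvPolynomial σ K, MvPolynomial.map j g
        = MvPolynomial.map (s : ℂ →+* ℂ_[p]) (MvPolynomial.map (algebraMap K ℂ) g) := by
      intro g
      rw [MvPolynomial.map_map, hsj]
    have hcq : cq ι F' = fun i => MvPolynomial.map (s : ℂ →+* ℂ_[p])
        (MvPolynomial.map (algebraMap K ℂ) (F i)) := by
      funext i
      rw [cq, hF' i, hmap]
    obtain ⟨b, hb, c, hc⟩ := hB z' hz'0 (fun m => hW4 _ fun g hg => by
      obtain ⟨Q, hQ⟩ := h.exists_lift g (hW2 g hg)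
      have h2 := h1 m (MvPolynomial.map ι Q) ⟨Q, ⟨g, hg, hQ⟩, rfl⟩
      rw [hcq, hzz] at h2
      have h3 := ev_iterate_map (s : ℂ →+* ℂ_[p])
        (fun i => MvPolynomial.map (algebraMap K ℂ) (F i)) (k * m) z'
      have h4 : (ev fun i => MvPolynomial.map (s : ℂ →+* ℂ_[p])
          (MvPolynomial.map (algebraMap K ℂ) (F i)))^[k * m] (fun i => s (z' i))
          = fun i => s ((ev fun i => MvPolynomial.map (algebraMap K ℂ) (F i))^[k * m] z' i) := h3
      rw [h4, hQ, hmap] at h2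
      have h5 : eval (fun i => s ((ev fun i => MvPolynomial.map (algebraMap K ℂ) (F i))^[k * m] z' i))
          (MvPolynomial.map (s : ℂ →+* ℂ_[p]) (MvPolynomial.map (algebraMap K ℂ) g))
          = s (eval ((ev fun i => MvPolynomial.map (algebraMap K ℂ) (F i))^[k * m] z')
            (MvPolynomial.map (algebraMap K ℂ) g)) := by
        rw [MvPolynomial.eval_map]
        exact (MvPolynomial.eval₂_comp (s : ℂ →+* ℂ_[p]) _ _).symm
      rw [h5] at h2
      exact (map_eq_zero_iff s s.injective).1 h2)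
    refine ⟨fun i => s (b i), Finset.mem_image_of_mem _ hb, s c, ?_⟩
    rw [hzz, hc]
    funext i
    simp only [Pi.smul_apply, smul_eq_mul, map_mul]
  · -- not preperiodic
    intro m k hk c hcon
    obtain ⟨i₀, hi₀⟩ := (hprim m).2
    have hne : (ev F)^[m] a i₀ ≠ 0 := by
      intro h0
      rw [h0, map_zero] at hi₀
      exact zero_ne_one hi₀
    apply hnp m k hk ((ev F)^[m + k] a i₀ / (ev F)^[m] a i₀)
    funext i
    rw [Pi.smul_apply, smul_eq_mul, div_mul_eq_mul_div, eq_div_iff hne]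
    apply j.injective
    rw [map_mul, map_mul, ← horb, ← horb, ← horb, ← horb, hcon]
    simp only [Pi.smul_apply, smul_eq_mul, map_mul]
    ring

end

end Pool.Agent.Helper88.TL
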