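import Pool.Agent.Helper84.SPFinal

set_option autoImplicit false

/-!
MP_120218_co, theorem TL (few sums, many products, linear dependence): definitions.
-/

open Finset
open Pool.Agent.Helper84.SP

namespace Pool.Agent.Helper88.TL

variable {G Q : Type*} [AddCommGroup G] [DecidableEq G] [AddCommGroup Q] [DecidableEq Q]

/-- unnormalised information of `x + x'` about `x'` -/
noncomputable def J2 (X X' : Finset G) : ℝ := J (fun g : G => g) X X'

/-- information of `x + x'` about `x'`, that is `H(x + x') - log |X|` -/
noncomputable def I2 (X X' : Finset G) : ℝ := I (fun g : G => g) X X'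

/-- doubling of a pair: `2 H(x + x') - log |X| - log |X'|` -/
noncomputable def dd (X X' : Finset G) : ℝ := I2 X X' + I2 X' X

/-- sum over the pairs of classes -/
noncomputable def SJ (π : G →+ Q) (X X' : Finset G) : ℝ :=
  ∑ c ∈ X.image π, ∑ c' ∈ X'.image π, J2 (cl π X c) (cl π X' c')

/-- the pair loses at least `δ` (normalised) when passing to pairs of classes -/
def PG (π : G →+ Q) (X X' : Finset G) (δ : ℝ) : Prop :=
  SJ π X X' + SJ π X' X + X.card * X'.card * δ ≤ J2 X X' + J2 X' X

theorem PG_symm {π : G →+ Q} {X X' : Finset G} {δ : ℝ} (h : PG π X X' δ) : PG π X' X δ := by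
  unfold PG at h ⊢
  have : (X'.card : ℝ) * X.card = X.card * X'.card := mul_comm _ _
  rw [this]
  linarith

theorem dd_nonneg (X X' : Finset G) : 0 ≤ dd X X' :=
  add_nonneg (I_nonneg _ _ _) (I_nonneg _ _ _)

end Pool.Agent.Helper88.TL
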