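import Pool.Agent.Helper88.TL.Loc
import Pool.Agent.Helper33.SS.Eig

/-!
# Normal form of eigenvalues of integral matrices over the unit ball of a finite extension
-/

set_option autoImplicit false

namespace Pool.Agent.Helper88.TL

open Pool.Agent.Helper33.SS

variable {p : ℕ} [Fact p.Prime] {R : Type} [NormedCommRing R] {ι : R →+* ℂ_[p]}

theorem Loc.isIntegralElem_root (hR : Loc p R ι) {P : Polynomial R} (hP : P.Monic) {μ : ℂ_[p]}
    (hμ : (P.map ι).IsRoot μ) : (io p).IsIntegralElem μ := by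
  letI : Algebra ℤ_[p] ℂ_[p] := (io p).toAlgebra
  let A := integralClosure ℤ_[p] ℂ_[p]
  let φ : R →+* A := ι.codRestrict A (fun x => hR.integral x)
  have hφ : ∀ x, ((φ x : A) : ℂ_[p]) = ι x := fun x => rfl
  have h1 : IsIntegral A μ := by
    refine ⟨P.map φ, hP.map φ, ?_⟩
    rw [Polynomial.eval₂_map]
    have h2 : (algebraMap A ℂ_[p]).comp φ = ι := by
      ext x
      exact hφ x
    rw [h2]
    have h3 : Polynomial.eval μ (P.map ι) = 0 := hμ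
    rwa [Polynomial.eval_map] at h3
  exact isIntegral_trans (R := ℤ_[p]) μ h1

theorem exists_good' (hR : Loc p R ι) (P : Polynomial R) (hP : P.Monic) :
    ∃ (w : ℂ_[p]) (k : ℕ), w ≠ 0 ∧ ‖w‖ < 1 ∧ (p : ℝ)⁻¹ ≤ ‖w‖ ∧ 1 ≤ k ∧
      ∀ μ : ℂ_[p], (P.map ι).IsRoot μ → GoodEig (p : ℝ)⁻¹ w (μ ^ k) := by
  classical
  have hPm : (P.map ι).Monic := hP.map _
  set S : Finset ℂ_[p] := (P.map ι).roots.toFinset with hS
  have hmem : ∀ μ, μ ∈ S ↔ (P.map ι).IsRoot μ := by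
    intro μ
    rw [hS, Multiset.mem_toFinset, Polynomial.mem_roots hPm.ne_zero]
  have hint : ∀ μ : S, ∃ Q : Polynomial ℤ_[p], Q.Monic ∧ (Q.map (io p)).IsRoot (μ : ℂ_[p]) := by
    intro μ
    obtain ⟨Q, hQ1, hQ2⟩ := hR.isIntegralElem_root hP ((hmem μ).1 μ.2)
    refine ⟨Q, hQ1, ?_⟩
    rw [Polynomial.IsRoot, Polynomial.eval_map]
    exact hQ2
  choose Q hQ1 hQ2 using hint
  obtain ⟨w, k, h1, h2, h3, h4, h5⟩ := exists_good p (∏ μ : S, Q μ)
    (Polynomial.monic_prod_of_monic _ _ fun μ _ => hQ1 μ)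
  refine ⟨w, k, h1, h2, h3, h4, fun μ hμ => h5 μ ?_⟩
  rw [Polynomial.map_prod, Polynomial.IsRoot, Polynomial.eval_prod]
  exact Finset.prod_eq_zero (Finset.mem_univ (⟨μ, (hmem μ).2 hμ⟩ : S)) (hQ2 ⟨μ, (hmem μ).2 hμ⟩)

end Pool.Agent.Helper88.TL
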