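import Pool.Agent.Helper88.TL.TV
import Pool.Agent.Helper26.ES.GroupLemma

set_option autoImplicit false

/-!
MP_120218_co, theorem TL: two laws on a group without small subgroups which are nearly invariant
under each other are concentrated (argument of helper24).
-/

open Finset
open Pool.Agent.Helper84.SP

namespace Pool.Agent.Helper88.TL

variable {Q : Type*} [AddCommGroup Q] [DecidableEq Q] [Fintype Q]

theorem group_gain (F F' : Q → ℝ) (hF : ∀ w, 0 ≤ F w) (hF1 : ∑ w, F w = 1)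
    (hF' : ∀ w, 0 ≤ F' w) (hF1' : ∑ w, F' w = 1)
    (h1 : ∑ z, F' z * tv (tr F z) (conv F F') < 1 / 96)
    (h2 : ∑ z, F z * tv (tr F' z) (conv F F') < 1 / 96) {q : ℕ}
    (hq : ∀ t : Q, t ≠ 0 → ∀ j : ℕ, 1 ≤ j → j < q → j • t ≠ 0) (S : Finset Q)
    (hS : 1 / 2 ≤ ∑ w ∈ S, F w) (hSq : 6 * S.card < q) : ∃ z, 7 / 8 ≤ F' z :=
  Pool.Agent.Helper26.ES.group_lemma_set (H := conv F F') hF hF1 hF' hF1' h2.le h1.le hq S hS hSq

end Pool.Agent.Helper88.TL
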