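import Pool.Agent.Helper88.TL.Defs

set_option autoImplicit false

open Finset
open Pool.Agent.Helper84.SP

namespace Pool.Agent.Helper88.TL

variable {G Q : Type*} [AddCommGroup G] [DecidableEq G] [AddCommGroup Q] [DecidableEq Q]

/-- one part `D'` of `D`, with a guess `Q'` for the event that the second point lies in it -/
theorem Guess_part {X D D' : Finset G} (hsub : D' ⊆ D) (hp : (0 : ℝ) < D'.card) (Q' : G → ℝ)
    (hQ' : ∀ s, 0 < Q' s) {S : Finset G} (hS : ∀ x ∈ X, ∀ y ∈ D, x + y ∈ S) :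
    ∑ x ∈ X, ∑ y ∈ D', Real.log ((D'.card : ℝ) / (rep (fun g : G => g) X D' (x + y) : ℝ)) +
        ∑ x ∈ X, ∑ y ∈ D', Real.log (D.card / D'.card * Q' (x + y)) -
        (∑ s ∈ S, Q' s * (rep (fun g : G => g) X D s : ℝ) - X.card * D'.card) ≤
      ∑ x ∈ X, ∑ y ∈ D', Real.log ((D.card : ℝ) / (rep (fun g : G => g) X D (x + y) : ℝ)) := by
  have hpD : (0 : ℝ) < D.card := lt_of_lt_of_le hp (by exact_mod_cast card_le_card hsub)
  have hcorr : ∑ x ∈ X, ∑ y ∈ D',
      (Q' (x + y) * (rep (fun g : G => g) X D (x + y) : ℝ) /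
        (rep (fun g : G => g) X D' (x + y) : ℝ) - 1) ≤
      ∑ s ∈ S, Q' s * (rep (fun g : G => g) X D s : ℝ) - X.card * D'.card := by
    simp_rw [sum_sub_distrib]
    rw [sum_pairs (fun g : G => g) X D' (fun s => Q' s * (rep (fun g : G => g) X D s : ℝ) /
      (rep (fun g : G => g) X D' s : ℝ))
      (fun x hx y hy => hS x hx y (hsub hy) : ∀ x ∈ X, ∀ y ∈ D', x + y ∈ S)]
    have h3 : ∑ _x ∈ X, ∑ _y ∈ D', (1 : ℝ) = X.card * D'.card := by simp
    rw [h3]
    apply sub_le_sub_right
    apply sum_le_sum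
    intro s _
    rcases Nat.eq_zero_or_pos (rep (fun g : G => g) X D' s) with h | h
    · rw [h]
      simp only [Nat.cast_zero, zero_mul]
      exact mul_nonneg (hQ' s).le (by positivity)
    · have h' : (0 : ℝ) < rep (fun g : G => g) X D' s := by exact_mod_cast h
      rw [mul_div_cancel₀ _ h'.ne']
  have hterm : ∑ x ∈ X, ∑ y ∈ D',
      (Real.log ((D'.card : ℝ) / (rep (fun g : G => g) X D' (x + y) : ℝ)) +
        Real.log (D.card / D'.card * Q' (x + y)) -
        (Q' (x + y) * (rep (fun g : G => g) X D (x + y) : ℝ) /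
          (rep (fun g : G => g) X D' (x + y) : ℝ) - 1)) ≤
      ∑ x ∈ X, ∑ y ∈ D', Real.log ((D.card : ℝ) / (rep (fun g : G => g) X D (x + y) : ℝ)) := by
    apply sum_le_sum
    intro x hx
    apply sum_le_sum
    intro y hy
    have h1 : (0 : ℝ) < rep (fun g : G => g) X D' (x + y) := by
      exact_mod_cast rep_pos (α := fun g : G => g) hx hy
    have h2 : (0 : ℝ) < rep (fun g : G => g) X D (x + y) := by
      exact_mod_cast rep_pos (α := fun g : G => g) hx (hsub hy)
    have h5 := hQ' (x + y)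
    have h6 := Real.log_le_sub_one_of_pos (show 0 <
      Q' (x + y) * (rep (fun g : G => g) X D (x + y) : ℝ) /
        (rep (fun g : G => g) X D' (x + y) : ℝ) by positivity)
    rw [Real.log_div (by positivity) h1.ne', Real.log_mul h5.ne' h2.ne'] at h6
    rw [Real.log_div hpD.ne' h2.ne', Real.log_div hp.ne' h1.ne',
      Real.log_mul (by positivity) h5.ne', Real.log_div hpD.ne' hp.ne']
    linarith
  simp_rw [sum_sub_distrib, sum_add_distrib] at hterm hcorr
  linarith

omit [DecidableEq G] in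
theorem Guess_fib (π : G →+ Q) (X X' : Finset G) (f : G → G → ℝ) :
    ∑ x ∈ X, ∑ y ∈ X', f x y = ∑ c' ∈ X'.image π, ∑ x ∈ X, ∑ y ∈ cl π X' c', f x y := by
  rw [sum_comm (s := X'.image π)]
  apply sum_congr rfl
  intro x _
  rw [← sum_fiberwise_of_maps_to (s := X') (t := X'.image π) (g := π)
    (fun x hx => mem_image_of_mem _ hx)]
  rfl

/-- Passing to pairs of classes, with an arbitrary guess `g c' w` (density of the class `c'` of
`x'` given the class `w` of `x + x'`). -/
theorem J_guess (π : G →+ Q) (X X' : Finset G) (g : Q → Q → ℝ) (hg : ∀ c' w, 0 < g c' w)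
    (hsum : ∀ w, ∑ c' ∈ X'.image π, ((cl π X' c').card : ℝ) * g c' w ≤ X'.card) :
    SJ π X X' + ∑ x ∈ X, ∑ y ∈ X', Real.log (g (π y) (π (x + y))) ≤ J2 X X' := by
  rcases X'.eq_empty_or_nonempty with h0 | h0
  · subst h0
    simp [SJ, J2, J]
  have hn : (0 : ℝ) < X'.card := by exact_mod_cast card_pos.2 h0
  obtain ⟨S, hS⟩ : ∃ S : Finset G, ∀ x ∈ X, ∀ y ∈ X', x + y ∈ S :=
    ⟨sset (fun g : G => g) X X', fun x hx y hy => mem_sset (α := fun g : G => g) hx hy⟩
  have e1 : SJ π X X' = ∑ c' ∈ X'.image π, J (fun g : G => g) X (cl π X' c') := by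
    unfold SJ J2
    rw [sum_comm]
    apply sum_congr rfl
    intro c' _
    exact (J_classes (α := fun g : G => g) π X (D := cl π X' c') (a := c')
      (fun y hy => (mem_cl.1 hy).2)).symm
  have e2 : J2 X X' = ∑ c' ∈ X'.image π, ∑ x ∈ X, ∑ y ∈ cl π X' c',
      Real.log ((X'.card : ℝ) / (rep (fun g : G => g) X X' (x + y) : ℝ)) := by
    unfold J2 J
    exact Guess_fib π X X'
      (fun x y => Real.log ((X'.card : ℝ) / (rep (fun g : G => g) X X' (x + y) : ℝ)))
  have e3 : ∑ x ∈ X, ∑ y ∈ X', Real.log (g (π y) (π (x + y))) =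
      ∑ c' ∈ X'.image π, ∑ x ∈ X, ∑ y ∈ cl π X' c', Real.log (g c' (π (x + y))) := by
    rw [Guess_fib π X X' (fun x y => Real.log (g (π y) (π (x + y))))]
    apply sum_congr rfl
    intro c' _
    apply sum_congr rfl
    intro x _
    apply sum_congr rfl
    intro y hy
    rw [(mem_cl.1 hy).2]
  rw [e1, e2, e3, ← sum_add_distrib]
  have hpart : ∀ c' ∈ X'.image π,
      (J (fun g : G => g) X (cl π X' c') +
        ∑ x ∈ X, ∑ y ∈ cl π X' c', Real.log (g c' (π (x + y)))) -
        (∑ s ∈ S, (((cl π X' c').card : ℝ) / X'.card * g c' (π s)) *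
          (rep (fun g : G => g) X X' s : ℝ) - X.card * (cl π X' c').card) ≤
      ∑ x ∈ X, ∑ y ∈ cl π X' c',
        Real.log ((X'.card : ℝ) / (rep (fun g : G => g) X X' (x + y) : ℝ)) := by
    intro c' hc'
    obtain ⟨y0, hy0, rfl⟩ := mem_image.1 hc'
    have hp := cl_pos (π := π) hy0
    have h := Guess_part (X := X) (cl_subset π X' (π y0)) hp
      (fun s => ((cl π X' (π y0)).card : ℝ) / X'.card * g (π y0) (π s))
      (fun s => mul_pos (div_pos hp hn) (hg _ _)) hS
    have h2 : ∀ s : G, (X'.card : ℝ) / ((cl π X' (π y0)).card : ℝ) *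
        (((cl π X' (π y0)).card : ℝ) / X'.card * g (π y0) (π s)) = g (π y0) (π s) := by
      intro s
      field_simp
    simp_rw [h2] at h
    unfold J
    exact h
  have hsumle := sum_le_sum hpart
  rw [sum_sub_distrib] at hsumle
  have herr : ∑ c' ∈ X'.image π, (∑ s ∈ S, (((cl π X' c').card : ℝ) / X'.card * g c' (π s)) *
          (rep (fun g : G => g) X X' s : ℝ) - X.card * (cl π X' c').card) ≤ 0 := by
    rw [sum_sub_distrib, sum_comm, ← mul_sum]
    have h1 : ∑ c' ∈ X'.image π, ((cl π X' c').card : ℝ) = X'.card := by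
      have := sum_cl π X' (fun _ => 1)
      simp only [mul_one, sum_const, nsmul_eq_mul] at this
      exact this.symm
    rw [h1, ← sum_rep (fun g : G => g) X X' hS, sub_nonpos]
    apply sum_le_sum
    intro s _
    rw [← sum_mul]
    apply mul_le_of_le_one_left (by positivity)
    have h2 : ∑ c' ∈ X'.image π, (((cl π X' c').card : ℝ) / X'.card * g c' (π s)) =
        (∑ c' ∈ X'.image π, ((cl π X' c').card : ℝ) * g c' (π s)) / X'.card := by
      rw [sum_div]
      apply sum_congr rfl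
      intro c' _
      ring
    rw [h2, div_le_one hn]
    exact hsum _
  linarith

/-- superadditivity -/
theorem pair_super (π : G →+ Q) (X X' : Finset G) : SJ π X X' ≤ J2 X X' := by
  have h := J_guess π X X' (fun _ _ => 1) (fun _ _ => one_pos) (fun w => by
    simp only [mul_one]
    exact sum_cl_le π X' (X'.image π))
  simpa using h

theorem PG_zero (π : G →+ Q) (X X' : Finset G) : PG π X X' 0 := by
  unfold PG
  have h1 := pair_super π X X'
  have h2 := pair_super π X' X
  rw [mul_zero, add_zero]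
  exact add_le_add h1 h2

theorem Guess_sum {X : Finset G} (P : G → Prop) [DecidablePred P] {v : ℝ} (h0 : 0 ≤ v)
    (h1 : v ≤ 1 / 2) :
    (X.card : ℝ) * (-v - 2 * v ^ 2) + 2 * v * ((X.filter P).card : ℝ) ≤
      ∑ x ∈ X, Real.log (1 + (if P x then 1 else -1) * v) := by
  have h2 : ∀ x ∈ X, (-v - 2 * v ^ 2) + (if P x then (2 * v) else 0) ≤
      Real.log (1 + (if P x then 1 else -1) * v) := by
    intro x _
    by_cases h : P x
    · rw [if_pos h, if_pos h, one_mul]
      have := log_one_add_ge h0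
      nlinarith [sq_nonneg v]
    · rw [if_neg h, if_neg h, neg_one_mul, ← sub_eq_add_neg, add_zero]
      exact log_one_sub_ge h1
  refine le_trans (le_of_eq ?_) (sum_le_sum h2)
  rw [sum_add_distrib, sum_const, nsmul_eq_mul, ← sum_filter, sum_const, nsmul_eq_mul]
  ring

theorem Guess_sum' {X : Finset G} (P : G → Prop) [DecidablePred P] {v : ℝ} (h0 : 0 ≤ v)
    (h1 : v ≤ 1 / 2) :
    (X.card : ℝ) * (v - 2 * v ^ 2) - 2 * v * ((X.filter P).card : ℝ) ≤
      ∑ x ∈ X, Real.log (1 + (if P x then 1 else -1) * (-v)) := by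
  have h2 : ∀ x ∈ X, (v - 2 * v ^ 2) - (if P x then (2 * v) else 0) ≤
      Real.log (1 + (if P x then 1 else -1) * (-v)) := by
    intro x _
    by_cases h : P x
    · rw [if_pos h, if_pos h, one_mul, ← sub_eq_add_neg]
      have := log_one_sub_ge h1
      nlinarith [sq_nonneg v]
    · rw [if_neg h, if_neg h, neg_one_mul, neg_neg, sub_zero]
      have := log_one_add_ge h0
      nlinarith [sq_nonneg v]
  refine le_trans (le_of_eq ?_) (sum_le_sum h2)
  rw [sum_sub_distrib, sum_const, nsmul_eq_mul, ← sum_filter, sum_const, nsmul_eq_mul]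
  ring

/-- The test lemma: the test `T` separates the classes `L` and `U` of `x'`. -/
theorem J_test (π : G →+ Q) {X X' : Finset G} (T L U : Q → Prop) [DecidablePred T]
    [DecidablePred L] [DecidablePred U] (hLU : ∀ c, ¬ (L c ∧ U c)) {pL pU t a b : ℝ}
    (hL : ∀ y ∈ X', L (π y) → ((X.filter (fun x => T (π (x + y)))).card : ℝ) ≤ pL * X.card)
    (hU : ∀ y ∈ X', U (π y) → pU * X.card ≤ ((X.filter (fun x => T (π (x + y)))).card : ℝ))
    (ht0 : 0 ≤ t) (ht1 : t ≤ 1) (hp : pL + t ≤ pU) (ha0 : 0 ≤ a) (hb0 : 0 ≤ b)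
    (ha : a * X'.card ≤ ((X'.filter (fun y => L (π y))).card : ℝ))
    (hb : b * X'.card ≤ ((X'.filter (fun y => U (π y))).card : ℝ)) :
    SJ π X X' + X.card * X'.card * (a * b * t ^ 2 / 2) ≤ J2 X X' := by
  rcases X'.eq_empty_or_nonempty with h0 | h0
  · have h := pair_super π X X'
    subst h0
    simpa using h
  have hn : (0 : ℝ) < X'.card := by exact_mod_cast card_pos.2 h0
  obtain ⟨n, hnn⟩ : ∃ n : ℝ, n = X'.card := ⟨_, rfl⟩
  obtain ⟨m, hm⟩ : ∃ m : ℝ, m = X.card := ⟨_, rfl⟩
  obtain ⟨nL, hnL⟩ : ∃ nL : ℝ, nL = ((X'.filter (fun y => L (π y))).card : ℝ) := ⟨_, rfl⟩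
  obtain ⟨nU, hnU⟩ : ∃ nU : ℝ, nU = ((X'.filter (fun y => U (π y))).card : ℝ) := ⟨_, rfl⟩
  have hm0 : 0 ≤ m := by rw [hm]; positivity
  have hnL0 : 0 ≤ nL := by rw [hnL]; positivity
  have hnU0 : 0 ≤ nU := by rw [hnU]; positivity
  have hLUn : nL + nU ≤ n := by
    rw [hnL, hnU, hnn]
    have hdis : Disjoint (X'.filter (fun y => L (π y))) (X'.filter (fun y => U (π y))) := by
      rw [disjoint_filter]
      intro y _ h1 h2
      exact hLU _ ⟨h1, h2⟩
    have h := card_union_of_disjoint hdis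
    have h2 : ((X'.filter (fun y => L (π y))) ∪ (X'.filter (fun y => U (π y)))).card ≤
        X'.card := card_le_card (union_subset (filter_subset _ _) (filter_subset _ _))
    rw [h] at h2
    exact_mod_cast h2
  rw [← hnn, ← hnL] at ha
  rw [← hnn, ← hnU] at hb
  rw [← hnn, ← hm]
  rw [← hnn] at hn
  obtain ⟨PL, hPL⟩ : ∃ PL : ℝ, PL = nL / n := ⟨_, rfl⟩
  obtain ⟨PU, hPU⟩ : ∃ PU : ℝ, PU = nU / n := ⟨_, rfl⟩
  have hPL0 : 0 ≤ PL := by rw [hPL]; positivity
  have hPU0 : 0 ≤ PU := by rw [hPU]; positivity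
  have hPs : PL + PU ≤ 1 := by
    rw [hPL, hPU, ← add_div, div_le_one hn]
    exact hLUn
  have haL : a ≤ PL := by rw [hPL, le_div_iff₀ hn]; exact ha
  have hbU : b ≤ PU := by rw [hPU, le_div_iff₀ hn]; exact hb
  have enL : nL = n * PL := by rw [hPL]; field_simp
  have enU : nU = n * PU := by rw [hPU]; field_simp
  have hg2 : ∀ c w : Q, |(if T w then (1 : ℝ) else -1) *
      (t / 2 * ((if U c then PL else 0) - (if L c then PU else 0)))| ≤ 1 / 2 := by
    intro c w
    rw [abs_mul]
    have h1 : |(if T w then (1 : ℝ) else -1)| = 1 := by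
      split_ifs
      · exact abs_one
      · rw [abs_neg, abs_one]
    rw [h1, one_mul, abs_mul, abs_of_nonneg (by linarith : (0 : ℝ) ≤ t / 2)]
    have h2 : |(if U c then PL else 0) - (if L c then PU else 0)| ≤ 1 := by
      rw [abs_le]
      split_ifs <;> constructor <;> linarith
    calc t / 2 * |(if U c then PL else 0) - (if L c then PU else 0)| ≤ 1 / 2 * 1 :=
          mul_le_mul (by linarith) h2 (abs_nonneg _) (by norm_num)
      _ = 1 / 2 := by norm_num
  have hguess := J_guess π X X' (fun c w => 1 + (if T w then (1 : ℝ) else -1) *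
      (t / 2 * ((if U c then PL else 0) - (if L c then PU else 0))))
    (fun c w => by
      have := abs_le.1 (hg2 c w)
      linarith [this.1])
    (fun w => by
      rw [← sum_cl π X' (fun c => 1 + (if T w then (1 : ℝ) else -1) *
        (t / 2 * ((if U c then PL else 0) - (if L c then PU else 0))))]
      rw [sum_add_distrib, ← mul_sum, ← mul_sum, sum_sub_distrib, ← sum_filter, ← sum_filter,
        sum_const, sum_const, sum_const, nsmul_eq_mul, nsmul_eq_mul, nsmul_eq_mul, ← hnU, ← hnL,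
        enU, enL]
      apply le_of_eq
      ring)
  refine le_trans ?_ hguess
  apply add_le_add le_rfl
  -- the lower bound for each `y`
  have hy : ∀ y ∈ X',
      (if U (π y) then m * ((t / 2 * PL) * (2 * pU - 1) - 2 * (t / 2 * PL) ^ 2) else 0) +
      (if L (π y) then m * ((t / 2 * PU) * (1 - 2 * pL) - 2 * (t / 2 * PU) ^ 2) else 0) ≤
      ∑ x ∈ X, Real.log (1 + (if T (π (x + y)) then (1 : ℝ) else -1) *
        (t / 2 * ((if U (π y) then PL else 0) - (if L (π y) then PU else 0)))) := by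
    intro y hy
    have hvL0 : 0 ≤ t / 2 * PL := by positivity
    have hvU0 : 0 ≤ t / 2 * PU := by positivity
    have hvL1 : t / 2 * PL ≤ 1 / 2 := by
      calc t / 2 * PL ≤ 1 / 2 * 1 := mul_le_mul (by linarith) (by linarith) hPL0 (by norm_num)
        _ = 1 / 2 := by norm_num
    have hvU1 : t / 2 * PU ≤ 1 / 2 := by
      calc t / 2 * PU ≤ 1 / 2 * 1 := mul_le_mul (by linarith) (by linarith) hPU0 (by norm_num)
        _ = 1 / 2 := by norm_num
    by_cases hUy : U (π y)
    · have hLy : ¬ L (π y) := fun h => hLU _ ⟨h, hUy⟩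
      simp only [if_pos hUy, if_neg hLy, sub_zero, add_zero]
      have h1 := Guess_sum (X := X) (fun x => T (π (x + y))) hvL0 hvL1
      have h2 := hU y hy hUy
      rw [← hm] at h1 h2
      have h3 := mul_le_mul_of_nonneg_left h2 hvL0
      linarith
    · by_cases hLy : L (π y)
      · simp only [if_neg hUy, if_pos hLy, zero_sub, zero_add]
        have h1 := Guess_sum' (X := X) (fun x => T (π (x + y))) hvU0 hvU1
        have h2 := hL y hy hLy
        rw [← hm] at h1 h2
        have h3 := mul_le_mul_of_nonneg_left h2 hvU0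
        have h4 : t / 2 * -PU = -(t / 2 * PU) := by ring
        rw [h4]
        linarith
      · simp [if_neg hUy, if_neg hLy]
  rw [sum_comm]
  refine le_trans ?_ (sum_le_sum hy)
  rw [sum_add_distrib, ← sum_filter, ← sum_filter, sum_const, sum_const, nsmul_eq_mul,
    nsmul_eq_mul, ← hnU, ← hnL, enU, enL]
  have key : n * PU * (m * (t / 2 * PL * (2 * pU - 1) - 2 * (t / 2 * PL) ^ 2)) +
      n * PL * (m * (t / 2 * PU * (1 - 2 * pL) - 2 * (t / 2 * PU) ^ 2)) =
      m * n * (PL * PU * (t * (pU - pL) - t ^ 2 / 2 * (PL + PU))) := by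
    ring
  rw [key]
  apply mul_le_mul_of_nonneg_left _ (by positivity)
  have h5 : t ^ 2 / 2 ≤ t * (pU - pL) - t ^ 2 / 2 * (PL + PU) := by
    have h6 : t * t ≤ t * (pU - pL) := mul_le_mul_of_nonneg_left (by linarith) ht0
    have h7 : t ^ 2 / 2 * (PL + PU) ≤ t ^ 2 / 2 * 1 :=
      mul_le_mul_of_nonneg_left hPs (by positivity)
    nlinarith
  have h8 : a * b ≤ PL * PU := mul_le_mul haL hbU hb0 hPL0
  calc a * b * t ^ 2 / 2 = (a * b) * (t ^ 2 / 2) := by ring
    _ ≤ (PL * PU) * (t ^ 2 / 2) := mul_le_mul_of_nonneg_right h8 (by positivity)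
    _ ≤ _ := mul_le_mul_of_nonneg_left h5 (by positivity)

end Pool.Agent.Helper88.TL
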