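import Pool.Agent.Helper88.TL.Loc
import Pool.Agent.Helper33.SS.Idem

/-!
# The idempotent lemma over the unit ball of a finite extension
-/

set_option autoImplicit false

namespace Pool.Agent.Helper88.TL

open Filter Topology Pool.Agent.Helper33.SS

section IdemAux

variable {p : ℕ} [Fact p.Prime] {R : Type} [NormedCommRing R] {ι : R →+* ℂ_[p]}
  {E : Type*} [AddCommGroup E] [Module R E]

/-- The submodule of multiples of `p ^ L`. -/
noncomputable def idemR (p : ℕ) (R E : Type*) [CommRing R] [AddCommGroup E] [Module R E]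
    (L : ℕ) : Submodule R E :=
  LinearMap.range (LinearMap.lsmul R E ((p : R) ^ L))

lemma mem_idemR {L : ℕ} {x : E} : x ∈ idemR p R E L ↔ ∃ g : E, (p : R) ^ L • g = x := by
  unfold idemR
  rw [LinearMap.mem_range]
  rfl

lemma idem_uv' (u : Module.End R E) (hu : ∀ h, ∃ g, u (u h) - u h = (p : R) • g) (L : ℕ)
    (x : E) : (u ^ L * (u - 1) ^ L) x ∈ idemR p R E L := by
  have hc : Commute u (u - 1) := (Commute.refl u).sub_right (Commute.one_right u)
  rw [← hc.mul_pow]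
  induction L generalizing x with
  | zero =>
    rw [mem_idemR]
    exact ⟨x, by simp⟩
  | succ L ih =>
    rw [pow_succ, Module.End.mul_apply]
    obtain ⟨g, hg⟩ := hu x
    have h1 : (u * (u - 1)) x = (p : R) • g := by
      rw [Module.End.mul_apply, LinearMap.sub_apply, Module.End.one_apply, map_sub, hg]
    rw [h1, map_smul]
    obtain ⟨g', hg'⟩ := mem_idemR.1 (ih g)
    rw [mem_idemR]
    exact ⟨g', by rw [← hg', smul_smul, pow_succ, mul_comm]⟩

lemma idem_uv_le' (u : Module.End R E) (hu : ∀ h, ∃ g, u (u h) - u h = (p : R) • g)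
    {L a b : ℕ} (ha : L ≤ a) (hb : L ≤ b)
    (x : E) : (u ^ a * (u - 1) ^ b) x ∈ idemR p R E L := by
  have hc : Commute u (u - 1) := (Commute.refl u).sub_right (Commute.one_right u)
  obtain ⟨a', rfl⟩ := Nat.exists_eq_add_of_le ha
  obtain ⟨b', rfl⟩ := Nat.exists_eq_add_of_le hb
  have h1 : u ^ (L + a') * (u - 1) ^ (L + b') = (u ^ L * (u - 1) ^ L) * (u ^ a' * (u - 1) ^ b') := by
    rw [pow_add, pow_add]
    have h2 : Commute (u ^ a') ((u - 1) ^ L) := (hc.pow_pow a' L)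
    calc u ^ L * u ^ a' * ((u - 1) ^ L * (u - 1) ^ b')
        = u ^ L * (u ^ a' * (u - 1) ^ L) * (u - 1) ^ b' := by simp only [mul_assoc]
      _ = u ^ L * ((u - 1) ^ L * u ^ a') * (u - 1) ^ b' := by rw [h2.eq]
      _ = _ := by simp only [mul_assoc]
  rw [h1, Module.End.mul_apply]
  exact idem_uv' u hu L _

lemma idem_main' (u : Module.End R E)
    (hu : ∀ h, ∃ g, u (u h) - u h = (p : R) • g)
    {L N a : ℕ} (hN : p ^ (2 * L) ∣ N) (ha : L ≤ a) (x : E) :
    (u ^ (a + N)) x - (u ^ a) x ∈ idemR p R E L := by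
  have h1 : u ^ (a + N) = u ^ a * ∑ i ∈ Finset.range (N + 1), (u - 1) ^ i * (N.choose i : Module.End R E) := by
    rw [pow_add]
    congr 1
    have h2 := (Commute.one_right (u - 1)).add_pow N
    rw [sub_add_cancel] at h2
    rw [h2]
    refine Finset.sum_congr rfl fun i _ => ?_
    rw [one_pow, mul_one]
  have h3 : (u ^ (a + N)) x - (u ^ a) x
      = ∑ i ∈ Finset.range N, (N.choose (i + 1) : R) • (u ^ a * (u - 1) ^ (i + 1)) x := by
    rw [h1, Finset.sum_range_succ']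
    simp only [pow_zero, Nat.choose_zero_right, Nat.cast_one, mul_one]
    rw [mul_add, mul_one, LinearMap.add_apply, add_sub_cancel_right, Finset.mul_sum,
      LinearMap.sum_apply]
    refine Finset.sum_congr rfl fun i _ => ?_
    rw [← mul_assoc, Module.End.mul_apply (u ^ a * (u - 1) ^ (i + 1))]
    have h4 : ((N.choose (i + 1) : ℕ) : Module.End R E) x = (N.choose (i + 1) : R) • x := by
      rw [Module.End.natCast_apply, Nat.cast_smul_eq_nsmul]
    rw [h4, map_smul]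
  rw [h3]
  refine Submodule.sum_mem _ fun i _ => ?_
  rcases lt_or_ge (i + 1) L with hi | hi
  · obtain ⟨c, hc⟩ := idem_choose (p := p) hN (Nat.succ_pos i) hi
    rw [hc, mem_idemR]
    refine ⟨(c : R) • (u ^ a * (u - 1) ^ (i + 1)) x, ?_⟩
    rw [smul_smul]
    push_cast
    rfl
  · exact Submodule.smul_mem _ _ (idem_uv_le' u hu ha hi x)

lemma idem_norm' (hR : Loc p R ι) (φ : E →ₗ[R] R) {L : ℕ} {x : E} (hx : x ∈ idemR p R E L) :
    ‖φ x‖ ≤ ((p : ℝ)⁻¹) ^ L := by
  obtain ⟨g, hg⟩ := mem_idemR.1 hx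
  rw [← hg, map_smul, smul_eq_mul, hR.norm_mul, hR.norm_pow, hR.norm_p]
  have h1 : ‖φ g‖ ≤ 1 := hR.le_one _
  have h2 : 0 ≤ ((p : ℝ)⁻¹) ^ L := by positivity
  nlinarith

lemma idem_diff' (u : Module.End R E) (φ : E →ₗ[R] R) (h : E) (m k n : ℕ) :
    (fwdDiff 1)^[k] (fun n => φ ((u ^ (n + m)) h)) n = φ ((u ^ (n + m) * (u - 1) ^ k) h) := by
  induction k generalizing n with
  | zero => simp
  | succ k ih =>
    rw [Function.iterate_succ_apply', fwdDiff, ih, ih, ← map_sub, ← LinearMap.sub_apply]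
    congr 2
    rw [pow_succ' (u - 1) k, show n + 1 + m = (n + m) + 1 by omega, pow_succ u (n + m)]
    noncomm_ring

lemma idem_fwd_tendsto' (k : ℕ) : ∀ (F : ℕ → ℕ → R) (f : ℕ → R),
    (∀ n, Tendsto (fun j => F j n) atTop (𝓝 (f n))) → ∀ n,
    Tendsto (fun j => (fwdDiff 1)^[k] (F j) n) atTop (𝓝 ((fwdDiff 1)^[k] f n)) := by
  induction k with
  | zero => intro F f hF n; simpa using hF n
  | succ k ih =>
    intro F f hF n
    simp only [Function.iterate_succ_apply]
    refine ih (fun j => fwdDiff 1 (F j)) (fwdDiff 1 f) (fun n => ?_) n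
    simp only [fwdDiff]
    exact (hF (n + 1)).sub (hF n)

end IdemAux

/-- The idempotent lemma. -/
theorem idem' {p : ℕ} [Fact p.Prime] {R : Type} [NormedCommRing R] {ι : R →+* ℂ_[p]}
    (hR : Loc p R ι) {E : Type*} [AddCommGroup E] [Module R E]
    (u : Module.End R E) (hu : ∀ h, ∃ g, u (u h) - u h = (p : R) • g)
    (φ : E →ₗ[R] R) (h : E) :
    ∃ f : ℕ → R, (∀ k n, ‖(fwdDiff 1)^[k] f n‖ ≤ ((p : ℝ)⁻¹) ^ k) ∧
      (∀ n, ‖φ ((u ^ n) h) - f n‖ ≤ ((p : ℝ)⁻¹) ^ n) ∧
      (∀ n, Tendsto (fun j => φ ((u ^ (n + p ^ j)) h)) atTop (𝓝 (f n))) := by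
  have hp : p.Prime := Fact.out
  have hp1 : (1 : ℝ) < p := by exact_mod_cast hp.one_lt
  have hpinv0 : (0 : ℝ) ≤ (p : ℝ)⁻¹ := by positivity
  have hpinv1 : (p : ℝ)⁻¹ < 1 := inv_lt_one_of_one_lt₀ hp1
  have := hR.complete
  -- comparison of two members of the sequence
  have key : ∀ n j j' L : ℕ, 2 * L ≤ j → j ≤ j' →
      ‖φ ((u ^ (n + p ^ j')) h) - φ ((u ^ (n + p ^ j)) h)‖ ≤ ((p : ℝ)⁻¹) ^ L := by
    intro n j j' L hL hj
    rw [← map_sub]
    have h1 : p ^ j ≤ p ^ j' := Nat.pow_le_pow_right hp.pos hj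
    have h2 : n + p ^ j' = (n + p ^ j) + (p ^ j' - p ^ j) := by omega
    rw [h2]
    refine idem_norm' hR φ (idem_main' u hu ?_ ?_ h)
    · exact Nat.dvd_sub (pow_dvd_pow p (by omega)) (pow_dvd_pow p hL)
    · have h3 : j < p ^ j := Nat.lt_pow_self hp.one_lt
      omega
  have hcau : ∀ n, CauchySeq (fun j => φ ((u ^ (n + p ^ j)) h)) := by
    intro n
    rw [Metric.cauchySeq_iff']
    intro ε hε
    obtain ⟨L, hL⟩ := exists_pow_lt_of_lt_one hε hpinv1
    refine ⟨2 * L, fun j hj => ?_⟩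
    rw [dist_eq_norm]
    exact lt_of_le_of_lt (key n (2 * L) j L le_rfl hj) hL
  choose f hf using fun n => cauchySeq_tendsto_of_complete (hcau n)
  refine ⟨f, ?_, ?_, hf⟩
  · intro k n
    have h1 := idem_fwd_tendsto' k (fun j n => φ ((u ^ (n + p ^ j)) h)) f hf n
    refine le_of_tendsto h1.norm ?_
    filter_upwards [eventually_ge_atTop k] with j hj
    rw [idem_diff' u φ h (p ^ j) k n]
    refine idem_norm' hR φ (idem_uv_le' u hu ?_ le_rfl h)
    have h3 : j < p ^ j := Nat.lt_pow_self hp.one_lt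
    omega
  · intro n
    have h1 : Tendsto (fun j => φ ((u ^ n) h) - φ ((u ^ (n + p ^ j)) h)) atTop
        (𝓝 (φ ((u ^ n) h) - f n)) := tendsto_const_nhds.sub (hf n)
    refine le_of_tendsto h1.norm ?_
    filter_upwards [eventually_ge_atTop (2 * n)] with j hj
    rw [norm_sub_rev, ← map_sub]
    exact idem_norm' hR φ (idem_main' u hu (pow_dvd_pow p hj) le_rfl h)

end Pool.Agent.Helper88.TL
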