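import Pool.Agent.Helper33.SS.Defs
import Pool.Agent.Helper33.SS.Itp

/-!
# Unit balls of finite extensions of the `p`-adic numbers
-/

set_option autoImplicit false

namespace Pool.Agent.Helper88.TL

open Pool.Agent.Helper33.SS MvPolynomial Filter Topology

/-- `R` behaves like the unit ball of a finite extension of `ℚ_[p]`, embedded in `ℂ_[p]` by `ι`. -/
structure Loc (p : ℕ) [Fact p.Prime] (R : Type) [NormedCommRing R] (ι : R →+* ℂ_[p]) : Prop where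
  norm_map : ∀ x, ‖ι x‖ = ‖x‖
  le_one : ∀ x : R, ‖x‖ ≤ 1
  dvd : ∀ x : R, ‖x‖ ≤ (p : ℝ)⁻¹ → (p : R) ∣ x
  unit : ∀ x : R, ‖x‖ = 1 → IsUnit x
  fin : Finite (R ⧸ Ideal.span {(p : R)})
  complete : CompleteSpace R
  integral : ∀ x : R, (io p).IsIntegralElem (ι x)

section
variable {p : ℕ} [Fact p.Prime] {R : Type} [NormedCommRing R] {ι : R →+* ℂ_[p]}

theorem norm_p_Cp' (p : ℕ) [Fact p.Prime] : ‖(p : ℂ_[p])‖ = (p : ℝ)⁻¹ := by
  calc ‖(p : ℂ_[p])‖ = ‖algebraMap ℚ_[p] ℂ_[p] (p : ℚ_[p])‖ := by rw [map_natCast]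
    _ = ‖(p : ℚ_[p])‖ := norm_algebraMap' _ _
    _ = (p : ℝ)⁻¹ := Padic.norm_p

theorem Loc.norm_mul (h : Loc p R ι) (x y : R) : ‖x * y‖ = ‖x‖ * ‖y‖ := by
  rw [← h.norm_map, ← h.norm_map x, ← h.norm_map y, map_mul, _root_.norm_mul]

theorem Loc.norm_one (h : Loc p R ι) : ‖(1 : R)‖ = 1 := by
  rw [← h.norm_map, map_one, NormOneClass.norm_one]

theorem Loc.norm_pow (h : Loc p R ι) (x : R) (n : ℕ) : ‖x ^ n‖ = ‖x‖ ^ n := by
  rw [← h.norm_map, ← h.norm_map x, map_pow, _root_.norm_pow]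

theorem Loc.norm_p (h : Loc p R ι) : ‖(p : R)‖ = (p : ℝ)⁻¹ := by
  rw [← h.norm_map, map_natCast, norm_p_Cp']

theorem Loc.injective (h : Loc p R ι) : Function.Injective ι := by
  intro a b hab
  have h1 : ‖a - b‖ = 0 := by rw [← h.norm_map, map_sub, hab, sub_self, norm_zero]
  exact sub_eq_zero.1 (norm_eq_zero.1 h1)

theorem Loc.add_le (h : Loc p R ι) (x y : R) : ‖x + y‖ ≤ max ‖x‖ ‖y‖ := by
  rw [← h.norm_map, ← h.norm_map x, ← h.norm_map y, map_add]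
  exact IsUltrametricDist.norm_add_le_max _ _

theorem Loc.add_le_of (h : Loc p R ι) {x y : R} {r : ℝ} (hx : ‖x‖ ≤ r) (hy : ‖y‖ ≤ r) :
    ‖x + y‖ ≤ r := (h.add_le x y).trans (max_le hx hy)

theorem Loc.add_eq_max (h : Loc p R ι) {x y : R} (hxy : ‖x‖ ≠ ‖y‖) : ‖x + y‖ = max ‖x‖ ‖y‖ := by
  rw [← h.norm_map, ← h.norm_map x, ← h.norm_map y, map_add]
  rw [← h.norm_map x, ← h.norm_map y] at hxy
  exact IsUltrametricDist.norm_add_eq_max_of_norm_ne_norm hxy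

theorem Loc.norm_eval_sub_le (h : Loc p R ι) {σ : Type} (g : MvPolynomial σ R) {x y : σ → R}
    {r : ℝ} (hr : 0 ≤ r) (hxy : ∀ i, ‖x i - y i‖ ≤ r) : ‖eval x g - eval y g‖ ≤ r := by
  induction g using MvPolynomial.induction_on with
  | C c => simpa using hr
  | add P Q hP hQ =>
    rw [map_add, map_add, add_sub_add_comm]
    exact h.add_le_of hP hQ
  | mul_X P i hP =>
    rw [map_mul, map_mul, eval_X, eval_X]
    have h1 : eval x P * x i - eval y P * y i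
        = (eval x P - eval y P) * x i + eval y P * (x i - y i) := by ring
    rw [h1]
    refine h.add_le_of ?_ ?_
    · rw [h.norm_mul]
      calc ‖eval x P - eval y P‖ * ‖x i‖ ≤ r * 1 :=
            mul_le_mul hP (h.le_one _) (norm_nonneg _) hr
        _ = r := mul_one r
    · rw [h.norm_mul]
      calc ‖eval y P‖ * ‖x i - y i‖ ≤ 1 * r :=
            mul_le_mul (h.le_one _) (hxy i) (norm_nonneg _) zero_le_one
        _ = r := one_mul r

theorem pinv_pos (p : ℕ) [Fact p.Prime] : (0 : ℝ) < (p : ℝ)⁻¹ :=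
  inv_pos.2 (by exact_mod_cast (Fact.out : p.Prime).pos)

theorem pinv_lt (p : ℕ) [Fact p.Prime] : (p : ℝ)⁻¹ < 1 :=
  inv_lt_one_of_one_lt₀ (by exact_mod_cast (Fact.out : p.Prime).one_lt)

theorem Loc.ev_iterate_congr (h : Loc p R ι) {σ : Type} (F : σ → MvPolynomial σ R) {x y : σ → R}
    {r : ℝ} (hr : 0 ≤ r) (hxy : ∀ i, ‖x i - y i‖ ≤ r) (n : ℕ) :
    ∀ i, ‖(ev F)^[n] x i - (ev F)^[n] y i‖ ≤ r := by
  induction n with
  | zero => exact hxy
  | succ n ih =>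
    intro i
    rw [Function.iterate_succ_apply', Function.iterate_succ_apply']
    exact h.norm_eval_sub_le (F i) hr ih

theorem Loc.norm_eq_one_of_congr (h : Loc p R ι) {a b : R} (hab : ‖a - b‖ ≤ (p : ℝ)⁻¹)
    (hb : ‖b‖ = 1) : ‖a‖ = 1 := by
  have h1 : a = (a - b) + b := by ring
  have h2 : ‖a - b‖ < 1 := hab.trans_lt (pinv_lt p)
  rw [h1, h.add_eq_max (by rw [hb]; exact h2.ne), hb]
  exact max_eq_right h2.le

theorem Loc.congr_trans (h : Loc p R ι) {a b c : R} {r : ℝ} (h1 : ‖a - b‖ ≤ r)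
    (h2 : ‖b - c‖ ≤ r) : ‖a - c‖ ≤ r := by
  have h3 : a - c = (a - b) + (b - c) := by ring
  rw [h3]
  exact h.add_le_of h1 h2

theorem congr_symm' {a b : R} {r : ℝ} (h : ‖a - b‖ ≤ r) : ‖b - a‖ ≤ r := by
  rwa [norm_sub_rev]

/-- two terms of a sequence of vectors agree modulo `p` -/
theorem Loc.exists_mod_period (h : Loc p R ι) {σ : Type} [Finite σ] (y : ℕ → σ → R) :
    ∃ n₀ k : ℕ, 1 ≤ k ∧ ∀ i, ‖y (n₀ + k) i - y n₀ i‖ ≤ (p : ℝ)⁻¹ := by
  classical
  have : Fintype σ := Fintype.ofFinite σ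
  have := h.fin
  let r : ℕ → σ → R ⧸ Ideal.span {(p : R)} := fun n i => Ideal.Quotient.mk _ (y n i)
  obtain ⟨a, b, hab, hr⟩ := Finite.exists_ne_map_eq_of_infinite r
  have key : ∀ a b : ℕ, a < b → r a = r b → ∃ n₀ k : ℕ, 1 ≤ k ∧
      ∀ i, ‖y (n₀ + k) i - y n₀ i‖ ≤ (p : ℝ)⁻¹ := by
    intro a b hab hr
    refine ⟨a, b - a, by omega, fun i => ?_⟩
    rw [show a + (b - a) = b by omega]
    have h1 : y b i - y a i ∈ Ideal.span {(p : R)} := by
      rw [← Ideal.Quotient.eq]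
      exact (congrFun hr i).symm
    obtain ⟨c, hc⟩ := Ideal.mem_span_singleton'.1 h1
    rw [← hc, h.norm_mul, h.norm_p]
    have := h.le_one c
    have h0 := pinv_pos p
    nlinarith
  rcases lt_or_gt_of_ne hab with h1 | h1
  · exact key a b h1 hr
  · exact key b a h1 hr.symm

theorem Loc.eval_map (_h : Loc p R ι) {σ : Type} (x : σ → R) (g : MvPolynomial σ R) :
    eval (fun i => ι (x i)) (MvPolynomial.map ι g) = ι (eval x g) := by
  rw [MvPolynomial.eval_map]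
  exact (MvPolynomial.eval₂_comp ι x g).symm

theorem Loc.inZ_map (h : Loc p R ι) {σ : Type} (V : Set (MvPolynomial σ R)) (x : σ → R) :
    InZ (MvPolynomial.map ι '' V) (fun i => ι (x i)) ↔ InZ V x := by
  constructor
  · intro h1 g hg
    have := h1 _ ⟨g, hg, rfl⟩
    rw [h.eval_map] at this
    exact (map_eq_zero_iff _ h.injective).1 this
  · rintro h1 _ ⟨g, hg, rfl⟩
    rw [h.eval_map, h1 g hg, map_zero]

end

/-- base change to `ℂ_[p]` -/
noncomputable def cq {p : ℕ} [Fact p.Prime] {R : Type} [CommRing R] (ι : R →+* ℂ_[p])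
    {σ τ : Type} (F : τ → MvPolynomial σ R) : τ → MvPolynomial σ ℂ_[p] :=
  fun j => MvPolynomial.map ι (F j)

end Pool.Agent.Helper88.TL
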