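import Pool.Agent.Helper88.TL.Loc
import Pool.Agent.Helper33.SS.Stage2

/-!
# Orbits with invertible derivatives
-/

set_option autoImplicit false

namespace Pool.Agent.Helper88.TL

open Pool.Agent.Helper33.SS MvPolynomial Filter Topology

theorem ev_iter_smul {R : Type*} [CommRing R] {σ : Type*} (F : σ → MvPolynomial σ R) {d : ℕ}
    (hF : ∀ i, (F i).IsHomogeneous d) (c : R) (x : σ → R) (n : ℕ) :
    (ev F)^[n] (c • x) = c ^ (d ^ n) • (ev F)^[n] x := by
  rw [← ev_itp, ← ev_itp]
  funext i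
  simp only [ev, Pi.smul_apply, smul_eq_mul]
  exact eval_smul_form (itp_homogeneous hF n i) c x

theorem jac_smul {R : Type*} [CommRing R] {σ : Type*} (F : σ → MvPolynomial σ R) {d : ℕ}
    (hF : ∀ i, (F i).IsHomogeneous d) (c : R) (x : σ → R) :
    jac F (c • x) = c ^ (d - 1) • jac F x := by
  ext i j
  simp only [jac, Matrix.of_apply, Matrix.smul_apply, smul_eq_mul]
  exact eval_smul_form (hF i).pderiv c x

/-- The derivatives along the orbit of `z` are invertible. -/
def NJ {R : Type*} [CommRing R] {σ : Type*} [Fintype σ] [DecidableEq σ]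
    (F : σ → MvPolynomial σ R) (z : σ → R) : Prop :=
  ∀ n, (jac F ((ev F)^[n] z)).det ≠ 0

theorem NJ.smul {R : Type*} [CommRing R] [IsDomain R] {σ : Type*} [Fintype σ] [DecidableEq σ]
    {F : σ → MvPolynomial σ R} {d : ℕ} (hF : ∀ i, (F i).IsHomogeneous d) {z : σ → R}
    (h : NJ F z) {c : R} (hc : c ≠ 0) : NJ F (c • z) := by
  intro n
  rw [ev_iter_smul F hF, jac_smul F hF, Matrix.det_smul]
  exact mul_ne_zero (pow_ne_zero _ (pow_ne_zero _ (pow_ne_zero _ hc))) (h n)

theorem NJ.iter {R : Type*} [CommRing R] {σ : Type*} [Fintype σ] [DecidableEq σ]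
    {F : σ → MvPolynomial σ R} {z : σ → R} (h : NJ F z) (m : ℕ) : NJ F ((ev F)^[m] z) := by
  intro n
  rw [← Function.iterate_add_apply]
  exact h _

theorem det_jprod {R : Type*} [CommRing R] {σ : Type*} [Fintype σ] [DecidableEq σ]
    (F : σ → MvPolynomial σ R) (z : σ → R) (n : ℕ) :
    (jprod F z n).det = ∏ j ∈ Finset.range n, (jac F ((ev F)^[j] z)).det := by
  induction n with
  | zero => simp [jprod]
  | succ n ih =>
    rw [jprod, Matrix.det_mul, ih, Finset.prod_range_succ, mul_comm]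

theorem NJ.rank {p : ℕ} [Fact p.Prime] {R : Type} [NormedCommRing R] {ι : R →+* ℂ_[p]}
    (hR : Loc p R ι) {σ : Type} [Fintype σ] [DecidableEq σ]
    {F : σ → MvPolynomial σ R} {z : σ → R} (h : NJ F z) (k : ℕ) :
    Fintype.card σ ≤ (((jprod F z k).map ι) ^ 2).rank + 1 := by
  have h1 : ((jprod F z k).map ι).det ≠ 0 := by
    have h2 : ((jprod F z k).map ι).det = ι (jprod F z k).det := (RingHom.map_det ι _).symm
    rw [h2, det_jprod, map_prod, Finset.prod_ne_zero_iff]
    intro j _ h3
    exact h j ((map_eq_zero_iff _ hR.injective).1 h3)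
  have h2 : IsUnit (((jprod F z k).map ι) ^ 2) := by
    rw [Matrix.isUnit_iff_isUnit_det, Matrix.det_pow]
    exact (isUnit_iff_ne_zero.2 h1).pow 2
  rw [Matrix.rank_of_isUnit _ h2]
  exact Nat.le_succ _

theorem continuous_ev {R : Type*} [CommRing R] [TopologicalSpace R] [IsTopologicalRing R]
    {σ : Type*} (F : σ → MvPolynomial σ R) : Continuous (ev F) :=
  continuous_pi fun i => MvPolynomial.continuous_eval (F i)

theorem continuous_detjac {R : Type*} [CommRing R] [TopologicalSpace R] [IsTopologicalRing R]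
    {σ : Type*} [Fintype σ] [DecidableEq σ] (F : σ → MvPolynomial σ R) :
    Continuous fun x => (jac F x).det := by
  refine Continuous.matrix_det ?_
  refine continuous_matrix fun i j => ?_
  exact MvPolynomial.continuous_eval (pderiv j (F i))

/-- Limit points of orbits along which the Jacobian is bounded from below. -/
theorem NJ.of_limit {R : Type*} [NormedCommRing R] {σ : Type*} [Fintype σ] [DecidableEq σ]
    {F : σ → MvPolynomial σ R} {α : σ → R} {c : ℝ} (hc : 0 < c) {n₁ : ℕ}
    (hJ : ∀ n, n₁ ≤ n → c ≤ ‖(jac F ((ev F)^[n] α)).det‖) {t : ℕ → ℕ} (ht : Tendsto t atTop atTop)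
    {z : σ → R} (hz : Tendsto (fun j => (ev F)^[t j] α) atTop (𝓝 z)) : NJ F z := by
  intro n
  have h1 : Tendsto (fun j => (ev F)^[n] ((ev F)^[t j] α)) atTop (𝓝 ((ev F)^[n] z)) :=
    (((continuous_ev F).iterate n).tendsto z).comp hz
  have h2 : Tendsto (fun j => ‖(jac F ((ev F)^[n] ((ev F)^[t j] α))).det‖) atTop
      (𝓝 ‖(jac F ((ev F)^[n] z)).det‖) :=
    (((continuous_detjac F).tendsto _).comp h1).norm
  have h3 : c ≤ ‖(jac F ((ev F)^[n] z)).det‖ := by
    refine ge_of_tendsto h2 ?_
    filter_upwards [ht.eventually_ge_atTop n₁] with j hj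
    rw [← Function.iterate_add_apply]
    exact hJ _ (by omega)
  intro h4
  rw [h4, norm_zero] at h3
  exact absurd h3 (not_le.2 hc)

theorem Loc.isDomain {p : ℕ} [Fact p.Prime] {R : Type} [NormedCommRing R] {ι : R →+* ℂ_[p]}
    (hR : Loc p R ι) : IsDomain R :=
  hR.injective.isDomain ι

end Pool.Agent.Helper88.TL
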