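import Pool.Agent.Helper88.TL.Const
import Pool.Agent.Helper33.SS.Iso

/-!
# The local field of a number field at a finite place
-/

set_option autoImplicit false

namespace Pool.Agent.Helper88.TL

open Pool.Agent.Helper33.SS Pool.Agent.Helper85.Sub NumberField Height AdmissibleAbsValues
  IsDedekindDomain Cardinal

/-- The data of a place: an embedding in `ℂ_[p]` with values in the unit ball of a finite
extension of `ℚ_[p]` on the integral elements. -/
structure PlaceData (K : Type) [Field K] [Algebra K ℂ] (v : AbsoluteValue K ℝ) (p : ℕ)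
    [Fact p.Prime] (R : Type) [NormedCommRing R] (ι : R →+* ℂ_[p]) (j : K →+* ℂ_[p]) (n : ℕ)
    (s : ℂ ≃+* ℂ_[p]) : Prop where
  hR : Loc p R ι
  hn : n ≠ 0
  hvj : ∀ z, v z = ‖j z‖ ^ n
  hint : ∀ z, v z ≤ 1 → ∃ r : R, ι r = j z
  hs : ∀ z, s (algebraMap K ℂ z) = j z

theorem exists_place {K : Type} [Field K] [NumberField K] [Algebra K ℂ] {v : AbsoluteValue K ℝ}
    (hv : v ∈ nonarchAbsVal (K := K)) (h2 : v 2 = 1) :
    ∃ (p : ℕ) (_ : Fact p.Prime) (R : Type) (_ : NormedCommRing R) (ι : R →+* ℂ_[p])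
      (j : K →+* ℂ_[p]) (n : ℕ) (s : ℂ ≃+* ℂ_[p]), 3 ≤ p ∧ PlaceData K v p R ι j n s := by
  have hv' : IsFinitePlace v := hv
  set w : FinitePlace K := ⟨v, hv'⟩ with hw
  set P := w.maximalIdeal with hPdef
  have hwP : FinitePlace.mk P = w := FinitePlace.mk_maximalIdeal w
  obtain ⟨p, hp, hpP⟩ := exists_prime_mem P
  have hpf : Fact p.Prime := ⟨hp⟩
  obtain ⟨n, hn0, ⟨σ₀, hσ₀⟩, -, hall⟩ := card_fiber (p := p) P hpP
  have hvσ : ∀ x : K, v x = ‖σ₀ x‖ ^ n := by
    intro x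
    have h1 := hall σ₀ hσ₀ x
    rw [hwP] at h1
    exact h1
  set j : K →+* ℂ_[p] := (algebraMap (PadicAlgCl p) ℂ_[p]).comp σ₀ with hj
  have hjn : ∀ x, ‖j x‖ = ‖σ₀ x‖ := fun x => PadicComplex.norm_extends p (σ₀ x)
  let _ : Algebra K ℂ_[p] := j.toAlgebra
  have hK : #K ≤ ℵ₀ := by
    have : Countable K := by
      have e := (Module.finBasis ℚ K).equivFun
      exact e.toEquiv.countable_iff.2 inferInstance
    exact mk_le_aleph0
  have h1 : #ℂ = #ℂ_[p] := by rw [card_Cp, Cardinal.mk_complex]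
  have h3 : ℵ₀ < #ℂ := by rw [Cardinal.mk_complex]; exact Cardinal.aleph0_lt_continuum
  obtain ⟨s, hs⟩ := exists_algEquiv (K := K) (C := ℂ) (D := ℂ_[p]) hK h3 h1
  refine ⟨p, hpf, Ob K p, inferInstance, ob K p, j, n, s, ?_, ?_⟩
  · -- the residue characteristic is not two
    have hp2 : p ≠ 2 := by
      intro hp2
      have h4 := hvσ 2
      rw [h2, map_ofNat] at h4
      have h5 : ‖(2 : PadicAlgCl p)‖ = (2 : ℝ)⁻¹ := by
        have h6 := norm_p_ff K p
        have h7 : ‖(p : FF K p)‖ = ‖((p : FF K p) : PadicAlgCl p)‖ := rfl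
        rw [h7] at h6
        have h8 : ((p : FF K p) : PadicAlgCl p) = ((p : ℕ) : PadicAlgCl p) := rfl
        have h10 : ((p : ℕ) : PadicAlgCl p) = ((2 : ℕ) : PadicAlgCl p) :=
          congrArg (Nat.cast : ℕ → PadicAlgCl p) hp2
        rw [h8, h10, Nat.cast_ofNat] at h6
        have h11 : ((p : ℕ) : ℝ) = 2 := by exact_mod_cast hp2
        rw [h6, h11]
      rw [h5] at h4
      have h9 : ((2 : ℝ)⁻¹) ^ n < 1 := pow_lt_one₀ (by norm_num) (by norm_num) hn0
      exact h9.ne h4.symm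
    have := hp.two_le
    omega
  · refine ⟨ob_loc K p, hn0, fun z => by rw [hjn]; exact hvσ z, fun z hz => ?_, fun z => hs z⟩
    have h4 : ‖σ₀ z‖ ≤ 1 := by
      rw [hvσ] at hz
      by_contra hcon
      rw [not_le] at hcon
      exact absurd hz (not_le.2 (one_lt_pow₀ hcon hn0))
    exact ⟨⟨lift σ₀ z, h4⟩, rfl⟩

end Pool.Agent.Helper88.TL
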