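import Pool.Agent.Helper88.TL.Eig
import Pool.Agent.Helper33.SS.Stage2

/-!
# Orbits attracted by a fixed point, over the unit ball of a finite extension
-/

set_option autoImplicit false

namespace Pool.Agent.Helper88.TL

open MvPolynomial Filter Topology Matrix Pool.Agent.Helper33.SS

theorem stage2R {p : ℕ} [Fact p.Prime] (hp3 : 3 ≤ p) {R : Type} [NormedCommRing R] {ι : R →+* ℂ_[p]}
    (hR : Loc p R ι) {σ : Type} [Fintype σ] [DecidableEq σ]
    (G : σ → MvPolynomial σ R) (D : ℕ) (hD : 0 < D) (hG : ∀ i, (G i).IsHomogeneous D)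
    (β : σ → R) (i₀ : σ) (hβ : β i₀ = 1) (c : R) (hc : ‖c‖ = 1)
    (hfix : ∀ i, eval β (G i) = c * β i)
    (y : ℕ → σ → R) (hy : ∀ n, y (n + 1) = ev G (y n)) (hyu : ∀ n, ‖y n i₀‖ = 1)
    (hyβ : ∃ C : ℝ, ∀ n i, ‖y n i - y n i₀ * β i‖ ≤ C * ((p : ℝ)⁻¹) ^ n)
    (hyne : ∀ n, y n ≠ y n i₀ • β)
    (V E : Set (MvPolynomial σ R)) (hV : ∀ g ∈ V, ∃ e : ℕ, g.IsHomogeneous e)
    (hE : ∀ g ∈ E, ∃ e : ℕ, g.IsHomogeneous e) (hβE : ¬ InZ E β)
    (hfin : ∀ k, 1 ≤ k → ∃ B : Finset (σ → ℂ_[p]), ∀ z : σ → ℂ_[p], z ≠ 0 →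
      (∀ n, InZ (MvPolynomial.map ι '' V) ((ev (cq ι G))^[k * n] z)) →
      ¬ InZ (MvPolynomial.map ι '' E) z → ∃ b ∈ B, ∃ c : ℂ_[p], z = c • b)
    (hrank : Fintype.card σ ≤ (((jac G β).map ι) ^ 2).rank + 1) :
    Sparse {n | InZ V (y n)} := by
  classical
  have hpp : p.Prime := Fact.out
  have hp0 : (0 : ℝ) < (p : ℝ)⁻¹ := inv_pos.2 (by exact_mod_cast hpp.pos)
  have hp1 : (p : ℝ)⁻¹ < 1 := inv_lt_one_of_one_lt₀ (by exact_mod_cast hpp.one_lt)
  set β' : σ → ℂ_[p] := fun i => ι (β i) with hβ'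
  set Y : ℕ → σ → ℂ_[p] := fun n i => ι (y n i) with hY
  set μ : ℕ → ℂ_[p] := fun n => ι (y n i₀) with hμdef
  have hμ : ∀ n, ‖μ n‖ = 1 := fun n => by rw [hμdef]; simp only [hR.norm_map, hyu]
  have hμ0 : ∀ n, μ n ≠ 0 := fun n h => by
    have := hμ n
    rw [h, norm_zero] at this
    exact zero_ne_one this
  set X' : ℕ → σ → ℂ_[p] := fun n i => Y n i / μ n - β' i with hX'
  have hβ1 : β' i₀ = 1 := by simp only [hβ', hβ, map_one]
  have hX0 : ∀ n, X' n i₀ = 0 := by
    intro n
    simp only [hX', hβ1]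
    have : Y n i₀ = μ n := rfl
    rw [this, div_self (hμ0 n), sub_self]
  set x : ℕ → {j : σ // j ≠ i₀} → ℂ_[p] := fun n j => X' n j with hx
  have hext : ∀ n, extz i₀ (x n) = X' n := by
    intro n
    funext j
    by_cases h : j = i₀
    · subst h
      simp only [extz, dif_pos, hX0]
    · simp only [extz, dif_neg h, hx]
  have hYX : ∀ n, Y n = μ n • (β' + X' n) := by
    intro n
    funext i
    simp only [Pi.smul_apply, Pi.add_apply, smul_eq_mul, hX']
    rw [add_sub_cancel, mul_div_cancel₀ _ (hμ0 n)]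
  have hYx : ∀ n, Y n = μ n • (β' + extz i₀ (x n)) := fun n => by rw [hext, hYX]
  obtain ⟨C₀, hC₀⟩ := hyβ
  have hXb : ∀ n i, ‖X' n i‖ ≤ C₀ * ((p : ℝ)⁻¹) ^ n := by
    intro n i
    have h1 : X' n i = ι (y n i - y n i₀ * β i) / μ n := by
      rw [map_sub, map_mul, sub_div]
      simp only [hX']
      rw [mul_div_cancel_left₀ _ (hμ0 n)]
    rw [h1, norm_div, hμ, div_one, hR.norm_map]
    exact hC₀ n i
  have hYrec : ∀ n, Y (n + 1) = ev (cq ι G) (Y n) := by
    intro n
    have := ev_map ι G (y n)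
    simp only [hY]
    rw [hy n]
    exact this.symm
  have hG' : ∀ i, (cq ι G i).IsHomogeneous D := fun i => (hG i).map _
  have hc0 : ι c ≠ 0 := by
    intro h
    have := hR.norm_map c
    rw [h, norm_zero, hc] at this
    exact zero_ne_one this
  have hfix' : ∀ i, eval β' (cq ι G i) = ι c * β' i := by
    intro i
    simp only [cq, hβ']
    rw [hR.eval_map, hfix, map_mul]
  obtain ⟨Q, hQ, hrec⟩ := exists_recurrence (cq ι G) D hG' β' i₀ hβ1 (ι c) hc0 hfix' Y hYrec μ
    hμ0 x hYx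
  set T := tmat (jac (cq ι G) β') β' i₀ (ι c) with hT
  -- the matrix is integral
  obtain ⟨ci, hci⟩ : ∃ ci : R, ci * c = 1 := by
    obtain ⟨u, hu⟩ := hR.unit c hc
    exact ⟨↑u⁻¹, by rw [← hu, Units.inv_mul]⟩
  have hJ : jac (cq ι G) β' = (jac G β).map ι := jac_map ι G β
  set T0 : Matrix {j : σ // j ≠ i₀} {j : σ // j ≠ i₀} R :=
    Matrix.of fun j l => ci * (jac G β j l - β j * jac G β i₀ l) with hT0
  have hJ' : ∀ j l, jac (cq ι G) β' j l = ι (jac G β j l) := fun j l => by rw [hJ]; rfl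
  have hTT0 : T = T0.map ι := by
    ext j l
    simp only [hT, tmat, hJ', hT0, Matrix.of_apply, Matrix.map_apply, map_mul, map_sub]
    congr 1
    have : ι ci * ι c = 1 := by rw [← map_mul, hci, map_one]
    exact (eq_inv_of_mul_eq_one_left this).symm
  obtain ⟨w, k, hw0, hw1, hwp, hk, hgood⟩ := exists_good' hR T0.charpoly T0.charpoly_monic
  have hgoodT : ∀ ν, T.charpoly.IsRoot ν → GoodEig (p : ℝ)⁻¹ w (ν ^ k) := by
    intro ν hν
    apply hgood
    rwa [hTT0, Matrix.charpoly_map] at hν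
  have hw0' : 0 < ‖w‖ := norm_pos_iff.2 hw0
  have hC₀0 : 0 ≤ C₀ := by
    have := (norm_nonneg _).trans (hXb 0 i₀)
    simpa using this
  have hdec : ∀ j i, ∃ C : ℝ, ∀ m, ‖x (k * m + j) i‖ ≤ C * ‖w‖ ^ m := by
    intro j i
    refine ⟨C₀, fun m => (hXb _ _).trans (mul_le_mul_of_nonneg_left ?_ hC₀0)⟩
    calc ((p : ℝ)⁻¹) ^ (k * m + j) ≤ ((p : ℝ)⁻¹) ^ m :=
          pow_le_pow_of_le_one hp0.le hp1.le (by nlinarith)
      _ ≤ ‖w‖ ^ m := pow_le_pow_left₀ hp0.le hwp m
  have hboot := boot hp0 hp1 hw0 hw1 T Q hQ x hrec k hk hgoodT hdec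
  set a : MvPolynomial σ R → ℕ → ℕ → ℂ_[p] :=
    fun g j m => eval (β' + X' (k * m + j)) (MvPolynomial.map ι g) with ha
  have hexp : ∀ g j M, HasExp (p : ℝ)⁻¹ w M (a g j) := by
    intro g j M
    refine HasExp.eval (z := fun m => β' + X' (k * m + j)) hp0.le hw1.le (fun i => ?_) _
    by_cases h : i = i₀
    · have : (fun m => (β' + X' (k * m + j)) i) = fun _ => β' i := by
        funext m
        rw [h, Pi.add_apply, hX0, add_zero]
      rw [this]
      exact HasExp.of_adic hp0.le hw1.le (Adic.const hp0.le _)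
    · exact HasExp.add hp0.le (HasExp.of_adic hp0.le hw1.le (Adic.const hp0.le (β' i)))
        (hboot M j ⟨i, h⟩)
  have hzero : ∀ n, ∀ g ∈ V, (eval (y n) g = 0 ↔
      eval (β' + X' n) (MvPolynomial.map ι g) = 0) := by
    intro n g hg
    obtain ⟨e, he⟩ := hV g hg
    have h1 : ι (eval (y n) g) = μ n ^ e * eval (β' + X' n) (MvPolynomial.map ι g) := by
      rw [← hR.eval_map, ← eval_smul_form (he.map _), ← hYX]
    rw [← map_eq_zero_iff _ hR.injective, h1, mul_eq_zero]
    simp [hμ0 n]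
  have hxlim : Tendsto X' atTop (𝓝 0) := by
    rw [tendsto_pi_nhds]
    intro i
    rw [Pi.zero_apply]
    refine squeeze_zero_norm (hXb · i) ?_
    have := (tendsto_pow_atTop_nhds_zero_of_lt_one hp0.le hp1).const_mul C₀
    simpa using this
  have hβE' : ¬ InZ (MvPolynomial.map ι '' E) β' := by
    rw [hβ', hR.inZ_map]
    exact hβE
  have hE' : ∀ g ∈ MvPolynomial.map ι '' E, ∃ e : ℕ, g.IsHomogeneous e := by
    rintro _ ⟨g, hg, rfl⟩
    obtain ⟨e, he⟩ := hE g hg
    exact ⟨e, he.map _⟩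
  -- flatness of the values of forms does not depend on the scaling
  have hflatscale : ∀ (γ : ℕ → ℝ) (t : ℕ → ℕ), ∀ g ∈ V,
      Flat γ (fun m => eval (β' + X' (t m)) (MvPolynomial.map ι g)) →
      Flat γ (fun m => eval (Y (t m)) (MvPolynomial.map ι g)) := by
    intro γ t g hg h
    obtain ⟨e, he⟩ := hV g hg
    refine Flat.of_norm_le (fun m => ?_) h
    rw [hYX, eval_smul_form (he.map _), norm_mul, norm_pow, hμ, one_pow, one_mul]
  by_cases hall : ∀ j < k, ∃ g ∈ V, Sparse {m | a g j m = 0}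
  · refine Sparse.of_classes 0 k hk fun j hj => ?_
    obtain ⟨g, hg, hs⟩ := hall j hj
    refine hs.mono fun m hm => ?_
    have h1 := (hzero _ g hg).1 (hm g hg)
    rw [show 0 + j + k * m = k * m + j by ring] at h1
    exact h1
  · push Not at hall
    obtain ⟨j, hj, hns⟩ := hall
    have hflat1 : ∀ g ∈ V, Flat (fun m => ‖w‖ ^ m) (a g j) := fun g hg =>
      (HasExp.dichotomy hp3 (norm_p_Cp p) hw0 hw1 (hexp g j)).resolve_left (hns g hg)
    have hitk : ev (itp (cq ι G) k) = (ev (cq ι G))^[k] := by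
      funext z
      exact ev_itp _ _ _
    have hYit : ∀ n i, Y (n + i) = (ev (cq ι G))^[i] (Y n) := by
      intro n i
      induction i with
      | zero => rfl
      | succ i ih => rw [Function.iterate_succ_apply', ← ih, ← hYrec]; rfl
    obtain ⟨B, hB⟩ := hfin k hk
    have hflat2 : ∀ i, Flat (fun m => ‖w‖ ^ m) (fun m => X' (k * m + j) i) := by
      refine nul (itp (cq ι G) k) (MvPolynomial.map ι '' V) (MvPolynomial.map ι '' E)
        hE' B ?_ (fun m => Y (k * m + j)) ?_ β' i₀ hβ1 hβE' (fun m => μ (k * m + j))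
        (fun m => hμ _) (fun m => X' (k * m + j)) (fun m => hX0 _) (fun m => hYX _) ?_
        (fun m => ‖w‖ ^ m) (fun m => pow_pos hw0' m) ⟨1, fun m => ?_⟩ ?_
      · intro z hz hz1 hz2
        refine hB z hz (fun n => ?_) hz2
        have := hz1 n
        rwa [hitk, ← Function.iterate_mul] at this
      · intro m
        rw [hitk, ← hYit]
        congr 1
        ring
      · refine hxlim.comp (tendsto_atTop_mono (fun m => ?_) tendsto_id)
        have := Nat.mul_le_mul_right m hk
        simp only [id]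
        omega
      · rw [one_mul]
        exact pow_le_pow_of_le_one hw0'.le hw1.le (Nat.le_succ m)
      · rintro _ ⟨g, hg, rfl⟩
        exact hflatscale _ (fun m => k * m + j) g hg (hflat1 g hg)
    have hx0 : ∀ n, x n ≠ 0 := by
      intro n h
      apply hyne n
      funext i
      apply hR.injective
      have h1 : X' n = 0 := by
        rw [← hext n, h]
        funext i
        simp [extz]
      have h2 := congrFun (hYX n) i
      rw [h1, add_zero] at h2
      simp only [Pi.smul_apply, smul_eq_mul] at h2 ⊢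
      rw [map_mul]
      exact h2
    have hxlim' : Tendsto x atTop (𝓝 0) := by
      rw [tendsto_pi_nhds] at hxlim ⊢
      intro i
      exact hxlim i
    obtain ⟨C₁, hC₁⟩ := step_le T Q hQ x hrec hx0 hxlim'
    have hflat3 : ∀ i, Flat (fun n => ‖w‖ ^ n) (fun n => x n i) :=
      flat_all hw0 hw1 x hC₁ k hk j fun i => hflat2 i
    have hDne : (D : ℂ_[p]) ≠ 0 := by exact_mod_cast hD.ne'
    have hJβ : jac (cq ι G) β' *ᵥ β' = ((D : ℂ_[p]) * ι c) • β' := by
      funext i
      have := jac_mulVec_self hG' β' i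
      rw [Matrix.mulVec, dotProduct, this, hfix']
      simp only [Pi.smul_apply, smul_eq_mul]
      ring
    rw [← hJ] at hrank
    rcases linalg (jac (cq ι G) β') β' i₀ hβ1 (ι c) D hc0 hDne hJβ hrank with
      ⟨Θ, hΘ⟩ | ⟨Θ, κ, ℓ, h1, h2, h3, h4⟩
    · exact (not_flat T Q hQ x hrec hx0 hw0 hw1 hflat3 Θ hΘ).elim
    · -- the super-attracted case
      set P : MvPolynomial σ R → MvPolynomial {j : σ // j ≠ i₀} ℂ_[p] := fun g =>
        aeval (fun i => (C (β' i) : MvPolynomial {j : σ // j ≠ i₀} ℂ_[p]) +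
          if h : i = i₀ then 0 else X ⟨i, h⟩) (MvPolynomial.map ι g) with hP
      have hPe : ∀ g n, eval (x n) (P g) = eval (β' + X' n) (MvPolynomial.map ι g) := by
        intro g n
        simp only [hP]
        rw [← MvPolynomial.coe_aeval_eq_eval, ← MvPolynomial.coe_aeval_eq_eval]
        change (aeval (x n)) _ = (aeval (β' + X' n)) _
        rw [← AlgHom.comp_apply, MvPolynomial.comp_aeval]
        congr 2
        funext i
        simp only [map_add, MvPolynomial.aeval_C, Pi.add_apply, Algebra.algebraMap_self,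
          RingHom.id_apply]
        congr 1
        by_cases h : i = i₀
        · rw [dif_pos h, map_zero, h, hX0]
        · rw [dif_neg h, MvPolynomial.aeval_X]
      by_cases hev : ∃ g ∈ V, ∃ n₀, ∀ n, n₀ ≤ n → eval (x n) (P g) ≠ 0
      · obtain ⟨g, hg, n₀, hn₀⟩ := hev
        refine Sparse.of_finite ((Set.finite_Iio n₀).subset fun n hn => ?_)
        by_contra hnn
        have h5 := (hzero n g hg).1 (hn g hg)
        rw [← hPe] at h5
        exact hn₀ n (not_lt.1 hnn) h5
      · push Not at hev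
        have hflat4 : ∀ g ∈ V, Flat (fun n => ‖x n‖) (fun n => eval (x n) (P g)) := by
          intro g hg
          refine (curve_dichotomy T Q hQ x hrec hx0 hw0 hw1 hflat3 Θ κ ℓ h1 h2 h3 h4
            (P g)).resolve_left ?_
          rintro ⟨n₀, hn₀⟩
          obtain ⟨n, hn, hn'⟩ := hev g hg n₀
          exact hn₀ n hn hn'
        obtain ⟨B1, hB1⟩ := hfin 1 le_rfl
        have hflat5 : ∀ i, Flat (fun n => ‖x n‖) (fun n => X' n i) := by
          refine nul (cq ι G) (MvPolynomial.map ι '' V) (MvPolynomial.map ι '' E)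
            hE' B1 ?_ Y hYrec β' i₀ hβ1 hβE' μ hμ X' hX0 hYX hxlim (fun n => ‖x n‖)
            (fun n => norm_pos_iff.2 (hx0 n)) ⟨C₁, hC₁⟩ ?_
          · intro z hz hz1 hz2
            exact hB1 z hz (fun n => by rw [one_mul]; exact hz1 n) hz2
          · rintro _ ⟨g, hg, rfl⟩
            refine hflatscale _ (fun n => n) g hg ?_
            have := hflat4 g hg
            simp only [hPe] at this
            exact this
        -- contradiction
        exfalso
        choose Ci hCi using fun i : {j : σ // j ≠ i₀} => hflat5 i 2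
        set A : ℝ := ∑ i, |Ci i| with hA
        have hA0 : 0 ≤ A := Finset.sum_nonneg fun _ _ => abs_nonneg _
        have hxn : ∀ n, ‖x n‖ ≤ A * ‖x n‖ ^ 2 := by
          intro n
          refine (pi_norm_le_iff_of_nonneg (mul_nonneg hA0 (by positivity))).2 fun i => ?_
          refine (hCi i n).trans (mul_le_mul_of_nonneg_right ?_ (by positivity))
          exact (le_abs_self _).trans (Finset.single_le_sum (f := fun i => |Ci i|)
            (fun _ _ => abs_nonneg _) (Finset.mem_univ i))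
        have hlim : Tendsto (fun n => A * ‖x n‖) atTop (𝓝 0) := by
          have := hxlim'.norm.const_mul A
          simpa using this
        obtain ⟨n, hn⟩ := (hlim.eventually (gt_mem_nhds zero_lt_one)).exists
        have hpos : 0 < ‖x n‖ := norm_pos_iff.2 (hx0 n)
        have := hxn n
        nlinarith

end Pool.Agent.Helper88.TL
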